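import Pool.Agent.TH980.PL.Cplx

/-!
Random long range hopping with a profile that is not absolutely summable: basic objects.
-/

set_option autoImplicit false

namespace Pool.Agent.TH980.SH

open Finset MeasureTheory H10PL Filter Topology Pool.Agent.TH980.PL

variable {d : ℕ} {T0 : (Fin d → ℤ) → (Fin d → ℤ) → ℝ} {κ : (Fin d → ℤ) → ℝ} {ρ0 b : ℝ}

/-- `((H - E) φ)(y)` -/
noncomputable def ap (T0 : (Fin d → ℤ) → (Fin d → ℤ) → ℝ) (κ : (Fin d → ℤ) → ℝ) (E : ℝ)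
    (s : Sym2 (Fin d → ℤ) → Bool) (V φ : (Fin d → ℤ) → ℝ) (y : Fin d → ℤ) : ℝ :=
  (∑' w, Kf T0 κ s y w * φ w) + (V y - E) * φ y

/-- square summable -/
def L2 (φ : (Fin d → ℤ) → ℝ) : Prop := Summable fun y => φ y ^ 2

theorem L2.lin {φ ψ : (Fin d → ℤ) → ℝ} (hφ : L2 φ) (hψ : L2 ψ) (a c : ℝ) :
    L2 fun y => a * φ y + c * ψ y := by
  unfold L2 at *
  refine Summable.of_nonneg_of_le (fun y => sq_nonneg _) (fun y => ?_)
    ((hφ.mul_left (2 * a ^ 2)).add (hψ.mul_left (2 * c ^ 2)))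
  nlinarith [sq_nonneg (a * φ y - c * ψ y)]

theorem ap_lin (h : Adm T0 κ ρ0 b) {E : ℝ} {s : Sym2 (Fin d → ℤ) → Bool} {V : (Fin d → ℤ) → ℝ}
    {φ ψ : (Fin d → ℤ) → ℝ} (hφ : L2 φ) (hψ : L2 ψ) (a c : ℝ) (y : Fin d → ℤ) :
    ap T0 κ E s V (fun y => a * φ y + c * ψ y) y = a * ap T0 κ E s V φ y + c * ap T0 κ E s V ψ y := by
  unfold ap
  have h1 := (cs_tsum (Kf_sq_summable h s y) hφ).1
  have h2 := (cs_tsum (Kf_sq_summable h s y) hψ).1
  have h3 : ∑' w, Kf T0 κ s y w * (a * φ w + c * ψ w) =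
      a * (∑' w, Kf T0 κ s y w * φ w) + c * ∑' w, Kf T0 κ s y w * ψ w := by
    rw [← tsum_mul_left, ← tsum_mul_left, ← (h1.mul_left a).tsum_add (h2.mul_left c)]
    refine tsum_congr fun w => ?_
    ring
  rw [h3]
  ring

theorem ap_smul (E : ℝ) (s : Sym2 (Fin d → ℤ) → Bool) (V : (Fin d → ℤ) → ℝ)
    (φ : (Fin d → ℤ) → ℝ) (a : ℝ) (y : Fin d → ℤ) :
    ap T0 κ E s V (fun y => a * φ y) y = a * ap T0 κ E s V φ y := by
  unfold ap
  have h3 : ∑' w, Kf T0 κ s y w * (a * φ w) = a * (∑' w, Kf T0 κ s y w * φ w) := by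
    rw [← tsum_mul_left]
    refine tsum_congr fun w => ?_
    ring
  rw [h3]
  ring

theorem L2.smul {φ : (Fin d → ℤ) → ℝ} (hφ : L2 φ) (a : ℝ) : L2 fun y => a * φ y := by
  unfold L2 at *
  refine (hφ.mul_left (a ^ 2)).congr fun y => ?_
  ring

theorem ap_upd (E : ℝ) (s : Sym2 (Fin d → ℤ) → Bool) (V : (Fin d → ℤ) → ℝ)
    (φ : (Fin d → ℤ) → ℝ) (z : Fin d → ℤ) (t : ℝ) (y : Fin d → ℤ) :
    ap T0 κ E s (Function.update V z t) φ y =
      ap T0 κ E s V φ y + (if y = z then (t - V z) * φ z else 0) := by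
  unfold ap
  by_cases hy : y = z
  · subst hy
    rw [Function.update_self, if_pos rfl]
    ring
  · rw [Function.update_of_ne hy, if_neg hy]
    ring

/-- the edges between the origin and the sites of `T` -/
def ET (T : Finset (Fin d → ℤ)) : Set (Sym2 (Fin d → ℤ)) := {e | ∃ z ∈ T, e = s(0, z)}

theorem ap_flip (h : Adm T0 κ ρ0 b) {E : ℝ} {s : Sym2 (Fin d → ℤ) → Bool}
    {V : (Fin d → ℤ) → ℝ} {φ : (Fin d → ℤ) → ℝ} (hφ : L2 φ) (T : Finset (Fin d → ℤ))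
    [DecidablePred (· ∈ ET T)] (y : Fin d → ℤ) (hy : y ≠ 0) :
    ap T0 κ E (flipS (ET T) s) V φ y =
      ap T0 κ E s V φ y - (if y ∈ T then 2 * sg (s s(0, y)) * κ y * φ 0 else 0) := by
  classical
  have hK : ∀ w, Kf T0 κ (flipS (ET T) s) y w * φ w = Kf T0 κ s y w * φ w -
      (if w = 0 then (if y ∈ T then 2 * sg (s s(0, y)) * κ y * φ 0 else 0) else 0) := by
    intro w
    unfold Kf
    by_cases hw : w = 0
    · subst hw
      rw [if_pos rfl]
      by_cases hyT : y ∈ T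
      · have h1 : s(y, 0) ∈ ET T := ⟨y, hyT, Sym2.eq_swap⟩
        have h2 : sg (flipS (ET T) s s(y, 0)) = - sg (s s(0, y)) := by
          unfold flipS
          rw [if_pos h1, Sym2.eq_swap]
          unfold sg
          cases s s(0, y) <;> simp
        have h3 : sg (s s(y, 0)) = sg (s s(0, y)) := by rw [Sym2.eq_swap]
        rw [h2, h3, if_pos hyT, sub_zero]
        ring
      · have h1 : s(y, 0) ∉ ET T := by
          rintro ⟨z, hz, he⟩
          rw [Sym2.eq_iff] at he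
          rcases he with ⟨h4, h5⟩ | ⟨h4, _⟩
          · exact hy h4
          · exact hyT (h4 ▸ hz)
        have h2 : sg (flipS (ET T) s s(y, 0)) = sg (s s(y, 0)) := by
          unfold flipS
          rw [if_neg h1]
        rw [h2, if_neg hyT]
        ring
    · rw [if_neg hw]
      have h1 : s(y, w) ∉ ET T := by
        rintro ⟨z, hz, he⟩
        rw [Sym2.eq_iff] at he
        rcases he with ⟨h4, _⟩ | ⟨_, h5⟩
        · exact hy h4
        · exact hw h5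
      have h2 : sg (flipS (ET T) s s(y, w)) = sg (s s(y, w)) := by
        unfold flipS
        rw [if_neg h1]
      rw [h2]
      ring
  unfold ap
  have h1 := (cs_tsum (Kf_sq_summable h s y) hφ).1
  have h2 : Summable fun w : Fin d → ℤ =>
      (if w = 0 then (if y ∈ T then 2 * sg (s s(0, y)) * κ y * φ 0 else 0) else (0 : ℝ)) :=
    summable_of_ne_finset_zero (s := {0}) (fun w hw => if_neg (by simpa using hw))
  rw [tsum_congr hK, h1.tsum_sub h2, tsum_ite_eq]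
  ring

/-- Green's identity -/
theorem green (h : Adm T0 κ ρ0 b) {E : ℝ} {s : Sym2 (Fin d → ℤ) → Bool} (hc : CutOK T0 κ s)
    {V : (Fin d → ℤ) → ℝ} {φ ψ : (Fin d → ℤ) → ℝ} (hφ : L2 φ) (hψ : L2 ψ)
    (F : Finset (Fin d → ℤ)) (h1 : ∀ y, y ∉ F → ap T0 κ E s V φ y = 0)
    (h2 : ∀ y, y ∉ F → ap T0 κ E s V ψ y = 0) :
    ∑ y ∈ F, ψ y * ap T0 κ E s V φ y = ∑ y ∈ F, φ y * ap T0 κ E s V ψ y := by
  classical
  set N := ∑' y, ψ y ^ 2 + ∑' y, φ y ^ 2 with hN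
  have hN0 : 0 ≤ N := add_nonneg (tsum_nonneg fun y => sq_nonneg _) (tsum_nonneg fun y => sq_nonneg _)
  have key : |∑ y ∈ F, ψ y * ap T0 κ E s V φ y - ∑ y ∈ F, φ y * ap T0 κ E s V ψ y| ≤ 0 := by
    refine le_of_forall_pos_le_add fun ε hε => ?_
    rw [zero_add]
    have hε' : 0 < ε / (N + 1) := by positivity
    obtain ⟨χ, hχ1, hχ2, hχ3⟩ := hc (ε / (N + 1)) hε' F
    have hb := comm_bound h s χ _ hε'.le hχ3 φ ψ hφ hψ
    have hFs : F ⊆ χ.support := by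
      intro y hy
      rw [Finsupp.mem_support_iff, hχ2 y hy]
      exact one_ne_zero
    have hid : ∑ y ∈ χ.support, χ y * ψ y * ∑' w, Kf T0 κ s y w * φ w -
        ∑ w ∈ χ.support, χ w * φ w * ∑' y, Kf T0 κ s w y * ψ y =
        ∑ y ∈ F, ψ y * ap T0 κ E s V φ y - ∑ y ∈ F, φ y * ap T0 κ E s V ψ y := by
      rw [← Finset.sum_sub_distrib, ← Finset.sum_sub_distrib]
      have e1 : ∀ w, χ w * ψ w * (∑' y, Kf T0 κ s w y * φ y) -
          χ w * φ w * (∑' y, Kf T0 κ s w y * ψ y) =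
          χ w * (ψ w * ap T0 κ E s V φ w - φ w * ap T0 κ E s V ψ w) := by
        intro w
        unfold ap
        ring
      rw [Finset.sum_congr rfl fun w _ => e1 w, ← Finset.sum_subset hFs]
      · refine Finset.sum_congr rfl fun w hw => ?_
        rw [hχ2 w hw]
        ring
      · intro w _ hw
        rw [h1 w hw, h2 w hw]
        ring
    rw [hid] at hb
    refine hb.trans ?_
    calc ε / (N + 1) * N ≤ ε / (N + 1) * (N + 1) :=
          mul_le_mul_of_nonneg_left (by linarith) hε'.le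
      _ = ε := by field_simp
  have := abs_nonpos_iff.1 key
  linarith

/-- `φ` is the solution normalised at `z`, with the sites of `F` removed -/
def GF (T0 : (Fin d → ℤ) → (Fin d → ℤ) → ℝ) (κ : (Fin d → ℤ) → ℝ) (E : ℝ)
    (s : Sym2 (Fin d → ℤ) → Bool) (V : (Fin d → ℤ) → ℝ) (F : Finset (Fin d → ℤ))
    (z : Fin d → ℤ) (φ : (Fin d → ℤ) → ℝ) : Prop :=
  L2 φ ∧ φ z = 1 ∧ (∀ y ∈ F, φ y = 0) ∧ ∀ y, y ∉ F → y ≠ z → ap T0 κ E s V φ y = 0

/-- uniqueness with the sites of `F` removed -/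
def UQ (T0 : (Fin d → ℤ) → (Fin d → ℤ) → ℝ) (κ : (Fin d → ℤ) → ℝ) (E : ℝ)
    (s : Sym2 (Fin d → ℤ) → Bool) (V : (Fin d → ℤ) → ℝ) (F : Finset (Fin d → ℤ)) : Prop :=
  ∀ φ : (Fin d → ℤ) → ℝ, L2 φ → (∀ y ∈ F, φ y = 0) →
    (∀ y, y ∉ F → ap T0 κ E s V φ y = 0) → ∀ y, φ y = 0

theorem GF.unique (h : Adm T0 κ ρ0 b) {E : ℝ} {s : Sym2 (Fin d → ℤ) → Bool}
    {V : (Fin d → ℤ) → ℝ} {F : Finset (Fin d → ℤ)} {z : Fin d → ℤ} {φ ψ : (Fin d → ℤ) → ℝ}
    (hφ : GF T0 κ E s V F z φ) (hψ : GF T0 κ E s V F z ψ)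
    (hU : UQ T0 κ E s V (insert z F)) : φ = ψ := by
  obtain ⟨a1, a2, a3, a4⟩ := hφ
  obtain ⟨b1, b2, b3, b4⟩ := hψ
  have h1 := hU (fun y => 1 * φ y + (-1) * ψ y) (a1.lin b1 1 (-1)) ?_ ?_
  · funext y
    have := h1 y
    linarith
  · intro y hy
    rcases Finset.mem_insert.1 hy with rfl | hy
    · rw [a2, b2]; ring
    · rw [a3 y hy, b3 y hy]; ring
  · intro y hy
    rw [Finset.mem_insert, not_or] at hy
    rw [ap_lin h a1 b1, a4 y hy.2 hy.1, b4 y hy.2 hy.1]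
    ring

/-- the value at `z` does not vanish -/
theorem GF.ne {E : ℝ} {s : Sym2 (Fin d → ℤ) → Bool}
    {V : (Fin d → ℤ) → ℝ} {F : Finset (Fin d → ℤ)} {z : Fin d → ℤ} {φ : (Fin d → ℤ) → ℝ}
    (hφ : GF T0 κ E s V F z φ) (hU : UQ T0 κ E s V F) : ap T0 κ E s V φ z ≠ 0 := by
  obtain ⟨a1, a2, a3, a4⟩ := hφ
  intro h0
  have h1 := hU φ a1 a3 (fun y hy => by
    by_cases hyz : y = z
    · rw [hyz]; exact h0
    · exact a4 y hy hyz) z
  rw [a2] at h1
  exact one_ne_zero h1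

/-- `UQ` does not depend on the potential at the removed sites -/
theorem UQ_upd {E : ℝ} {s : Sym2 (Fin d → ℤ) → Bool} {V : (Fin d → ℤ) → ℝ}
    {F : Finset (Fin d → ℤ)} {z : Fin d → ℤ} (hz : z ∈ F) (t : ℝ) :
    UQ T0 κ E s (Function.update V z t) F ↔ UQ T0 κ E s V F := by
  unfold UQ
  refine forall_congr' fun φ => forall_congr' fun _ => forall_congr' fun _ => ?_
  have : (∀ y, y ∉ F → ap T0 κ E s (Function.update V z t) φ y = 0) ↔
      (∀ y, y ∉ F → ap T0 κ E s V φ y = 0) := by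
    refine forall_congr' fun y => forall_congr' fun hy => ?_
    rw [ap_upd, if_neg (fun h : y = z => hy (h ▸ hz)), add_zero]
  rw [this]

/-- `GF` does not depend on the potential at `z` -/
theorem GF_upd {E : ℝ} {s : Sym2 (Fin d → ℤ) → Bool} {V : (Fin d → ℤ) → ℝ}
    {F : Finset (Fin d → ℤ)} {z : Fin d → ℤ} {φ : (Fin d → ℤ) → ℝ} (t : ℝ) :
    GF T0 κ E s (Function.update V z t) F z φ ↔ GF T0 κ E s V F z φ := by
  unfold GF
  have : (∀ y, y ∉ F → y ≠ z → ap T0 κ E s (Function.update V z t) φ y = 0) ↔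
      (∀ y, y ∉ F → y ≠ z → ap T0 κ E s V φ y = 0) := by
    refine forall_congr' fun y => forall_congr' fun _ => forall_congr' fun hyz => ?_
    rw [ap_upd, if_neg hyz, add_zero]
  rw [this]

/-- `GF` does not depend on the potential at the removed sites -/
theorem GF_updF {E : ℝ} {s : Sym2 (Fin d → ℤ) → Bool} {V : (Fin d → ℤ) → ℝ}
    {F : Finset (Fin d → ℤ)} {z x : Fin d → ℤ} {φ : (Fin d → ℤ) → ℝ} (hx : x ∈ F) (t : ℝ) :
    GF T0 κ E s (Function.update V x t) F z φ ↔ GF T0 κ E s V F z φ := by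
  unfold GF
  have : (∀ y, y ∉ F → y ≠ z → ap T0 κ E s (Function.update V x t) φ y = 0) ↔
      (∀ y, y ∉ F → y ≠ z → ap T0 κ E s V φ y = 0) := by
    refine forall_congr' fun y => forall_congr' fun hy => forall_congr' fun _ => ?_
    rw [ap_upd, if_neg (fun h : y = x => hy (h ▸ hx)), add_zero]
  rw [this]

end Pool.Agent.TH980.SH
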