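import Pool.Agent.TH980.SH.Base

/-!
Measurability of the events that there is a normalised solution with bounded norm and further
closed properties.
-/

set_option autoImplicit false

namespace Pool.Agent.TH980.SH

open Finset MeasureTheory H10PL Filter Topology Pool.Agent.TH980.PL

variable {d : ℕ} {T0 : (Fin d → ℤ) → (Fin d → ℤ) → ℝ} {κ : (Fin d → ℤ) → ℝ} {ρ0 b : ℝ}

/-- configurations -/
abbrev Om (d : ℕ) : Type := ((Fin d → ℤ) → ℝ) × (Sym2 (Fin d → ℤ) → Bool)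

/-- functions with norm square at most `n` -/
def Kn (d : ℕ) (n : ℝ) : Set ((Fin d → ℤ) → ℝ) := {φ | ∀ F : Finset (Fin d → ℤ), ∑ y ∈ F, φ y ^ 2 ≤ n}

theorem mem_Kn {n : ℝ} {φ : (Fin d → ℤ) → ℝ} : φ ∈ Kn d n ↔ L2 φ ∧ ∑' y, φ y ^ 2 ≤ n := by
  constructor
  · intro h
    have hs : L2 φ := summable_of_sum_le (fun y => sq_nonneg _) h
    exact ⟨hs, hs.tsum_le_of_sum_le h⟩
  · rintro ⟨h1, h2⟩ F
    exact (h1.sum_le_tsum F fun y _ => sq_nonneg _).trans h2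

theorem Kn_mono {n m : ℝ} (h : n ≤ m) : Kn d n ⊆ Kn d m := fun _ hφ F => (hφ F).trans h

theorem Kn_closed (n : ℝ) : IsClosed (Kn d n) := by
  unfold Kn
  rw [Set.ofPred_forall]
  refine isClosed_iInter fun F => isClosed_le ?_ continuous_const
  exact continuous_finsetSum _ fun y _ => (continuous_apply y).pow 2

theorem Kn_compact (n : ℝ) : IsCompact (Kn d n) := by
  have h1 : Kn d n ⊆ Set.pi Set.univ fun _ => Set.Icc (-Real.sqrt n) (Real.sqrt n) := by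
    intro φ hφ y _
    have h2 := hφ {y}
    rw [Finset.sum_singleton] at h2
    exact abs_le.1 (Real.abs_le_sqrt h2)
  exact (isCompact_univ_pi fun _ => isCompact_Icc).of_isClosed_subset (Kn_closed n) h1

theorem proj_closed {P : Type*} [TopologicalSpace P] (n : ℝ)
    (C : Set (P × ((Fin d → ℤ) → ℝ))) (hC : IsClosed C) (hsub : ∀ p ∈ C, p.2 ∈ Kn d n) :
    IsClosed {p : P | ∃ φ, (p, φ) ∈ C} := by
  have : CompactSpace (Kn d n) := isCompact_iff_compactSpace.1 (Kn_compact n)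
  let g : P × (Kn d n) → P × ((Fin d → ℤ) → ℝ) := fun p => (p.1, p.2.1)
  have hg : Continuous g := continuous_fst.prodMk (continuous_subtype_val.comp continuous_snd)
  have h1 : {p : P | ∃ φ, (p, φ) ∈ C} = Prod.fst '' (g ⁻¹' C) := by
    ext p
    constructor
    · rintro ⟨φ, hφ⟩
      exact ⟨(p, ⟨φ, hsub _ hφ⟩), hφ, rfl⟩
    · rintro ⟨⟨p', φ⟩, h2, rfl⟩
      exact ⟨φ.1, h2⟩
  rw [h1]
  exact isClosedMap_fst_of_compactSpace _ (hC.preimage hg)

theorem ap_contOn (h : Adm T0 κ ρ0 b) (n : ℝ) (y : Fin d → ℤ) :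
    ContinuousOn (fun p : (ℝ × Om d) × ((Fin d → ℤ) → ℝ) =>
      ap T0 κ p.1.1 p.1.2.2 p.1.2.1 p.2 y) {p | p.2 ∈ Kn d n} := by
  have hcoord : ∀ y, Continuous fun p : (ℝ × Om d) × ((Fin d → ℤ) → ℝ) => p.2 y := fun y =>
    (continuous_apply y).comp continuous_snd
  have hE : Continuous fun p : (ℝ × Om d) × ((Fin d → ℤ) → ℝ) => p.1.1 :=
    continuous_fst.comp continuous_fst
  have hV : ∀ y, Continuous fun p : (ℝ × Om d) × ((Fin d → ℤ) → ℝ) => p.1.2.1 y := fun y =>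
    (continuous_apply y).comp (continuous_fst.comp (continuous_snd.comp continuous_fst))
  have hK : ∀ y w, Continuous fun p : (ℝ × Om d) × ((Fin d → ℤ) → ℝ) =>
      Kf T0 κ p.1.2.2 y w := by
    intro y w
    unfold Kf
    refine continuous_const.add (Continuous.mul ?_ continuous_const)
    exact (continuous_of_discreteTopology (f := sg)).comp
      ((continuous_apply _).comp (continuous_snd.comp (continuous_snd.comp continuous_fst)))
  have hU : TendstoUniformlyOn (fun (F : Finset (Fin d → ℤ)) (p : (ℝ × Om d) × ((Fin d → ℤ) → ℝ)) =>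
      (∑ w ∈ F, Kf T0 κ p.1.2.2 y w * p.2 w) + (p.1.2.1 y - p.1.1) * p.2 y)
      (fun p : (ℝ × Om d) × ((Fin d → ℤ) → ℝ) => ap T0 κ p.1.1 p.1.2.2 p.1.2.1 p.2 y) atTop
      {p | p.2 ∈ Kn d n} := by
    rw [Metric.tendstoUniformlyOn_iff]
    intro ε hε
    have t2 : Tendsto (fun F : Finset (Fin d → ℤ) => Real.sqrt (tau T0 κ y F * n)) atTop (𝓝 0) := by
      have h3 := ((tau_tendsto h y).mul_const (n : ℝ)).sqrt
      simpa using h3
    filter_upwards [t2.eventually_lt_const hε] with F hF p hp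
    obtain ⟨h1, h2⟩ := mem_Kn.1 hp
    have h3 := part_bound h p.1.2.2 p.2 h1 h2 y F
    rw [Real.dist_eq]
    unfold ap
    refine lt_of_le_of_lt (le_of_eq ?_) (lt_of_le_of_lt h3 hF)
    congr 1
    ring
  refine hU.continuousOn (Eventually.frequently (Eventually.of_forall fun F => ?_))
  refine Continuous.continuousOn ?_
  exact (continuous_finsetSum _ fun w _ => (hK y w).mul (hcoord w)).add
    (((hV y).sub hE).mul (hcoord y))

/-- the event that there is a normalised solution with further closed properties -/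
def Ev (T0 : (Fin d → ℤ) → (Fin d → ℤ) → ℝ) (κ : (Fin d → ℤ) → ℝ) (F : Finset (Fin d → ℤ))
    (z : Fin d → ℤ) (n : ℝ) (C : Set ((ℝ × Om d) × (((Fin d → ℤ) → ℝ) × ℝ))) : Set (ℝ × Om d) :=
  {p | ∃ φ, GF T0 κ p.1 p.2.2 p.2.1 F z φ ∧ φ ∈ Kn d n ∧
    (p, (φ, ap T0 κ p.1 p.2.2 p.2.1 φ z)) ∈ C}

theorem ev_closed (h : Adm T0 κ ρ0 b) (F : Finset (Fin d → ℤ)) (z : Fin d → ℤ) (n : ℝ)
    (C : Set ((ℝ × Om d) × (((Fin d → ℤ) → ℝ) × ℝ))) (hC : IsClosed C) :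
    IsClosed (Ev T0 κ F z n C) := by
  classical
  set S : Set ((ℝ × Om d) × ((Fin d → ℤ) → ℝ)) := {p | p.2 ∈ Kn d n} with hS
  have hSc : IsClosed S := (Kn_closed n).preimage continuous_snd
  have hap := ap_contOn h n (T0 := T0) (κ := κ)
  let C1 : Set ((ℝ × Om d) × ((Fin d → ℤ) → ℝ)) :=
    (S ∩ {p | p.2 z = 1}) ∩ ((⋂ y ∈ F, {p | p.2 y = 0}) ∩
      ((⋂ y, {p | y ∉ F → y ≠ z → p ∈ S ∩ (fun p : (ℝ × Om d) × ((Fin d → ℤ) → ℝ) =>
        ap T0 κ p.1.1 p.1.2.2 p.1.2.1 p.2 y) ⁻¹' {0}}) ∩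
      (S ∩ (fun p : (ℝ × Om d) × ((Fin d → ℤ) → ℝ) =>
        (p.1, (p.2, ap T0 κ p.1.1 p.1.2.2 p.1.2.1 p.2 z))) ⁻¹' C)))
  have hcoord : ∀ y, Continuous fun p : (ℝ × Om d) × ((Fin d → ℤ) → ℝ) => p.2 y := fun y =>
    (continuous_apply y).comp continuous_snd
  have hC1 : IsClosed C1 := by
    refine IsClosed.inter (hSc.inter (isClosed_eq (hcoord z) continuous_const))
      (IsClosed.inter ?_ (IsClosed.inter ?_ ?_))
    · exact isClosed_biInter fun y _ => isClosed_eq (hcoord y) continuous_const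
    · refine isClosed_iInter fun y => ?_
      by_cases h1 : y ∉ F ∧ y ≠ z
      · have : {p : (ℝ × Om d) × ((Fin d → ℤ) → ℝ) | y ∉ F → y ≠ z → p ∈ S ∩
            (fun p : (ℝ × Om d) × ((Fin d → ℤ) → ℝ) =>
              ap T0 κ p.1.1 p.1.2.2 p.1.2.1 p.2 y) ⁻¹' {0}} = S ∩
            (fun p : (ℝ × Om d) × ((Fin d → ℤ) → ℝ) =>
              ap T0 κ p.1.1 p.1.2.2 p.1.2.1 p.2 y) ⁻¹' {0} := by
          ext p
          exact ⟨fun hp => hp h1.1 h1.2, fun hp _ _ => hp⟩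
        rw [this]
        exact (hap y).preimage_isClosed_of_isClosed hSc isClosed_singleton
      · have : {p : (ℝ × Om d) × ((Fin d → ℤ) → ℝ) | y ∉ F → y ≠ z → p ∈ S ∩
            (fun p : (ℝ × Om d) × ((Fin d → ℤ) → ℝ) =>
              ap T0 κ p.1.1 p.1.2.2 p.1.2.1 p.2 y) ⁻¹' {0}} = Set.univ := by
          ext p
          exact ⟨fun _ => trivial, fun _ h2 h3 => absurd ⟨h2, h3⟩ h1⟩
        rw [this]
        exact isClosed_univ
    · refine ContinuousOn.preimage_isClosed_of_isClosed ?_ hSc hC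
      exact (continuous_fst.continuousOn).prodMk ((continuous_snd.continuousOn).prodMk (hap z))
  have heq : Ev T0 κ F z n C = {p : ℝ × Om d | ∃ φ, (p, φ) ∈ C1} := by
    ext p
    constructor
    · rintro ⟨φ, ⟨a1, a2, a3, a4⟩, hn, hc⟩
      refine ⟨φ, ⟨⟨hn, a2⟩, ?_, ?_, ⟨hn, hc⟩⟩⟩
      · exact Set.mem_iInter₂.2 fun y hy => a3 y hy
      · exact Set.mem_iInter.2 fun y hy hyz => ⟨hn, a4 y hy hyz⟩
    · rintro ⟨φ, ⟨⟨hn, a2⟩, a3, a4, ⟨_, hc⟩⟩⟩
      refine ⟨φ, ⟨(mem_Kn.1 hn).1, a2, ?_, ?_⟩, hn, hc⟩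
      · exact fun y hy => Set.mem_iInter₂.1 a3 y hy
      · exact fun y hy hyz => (Set.mem_iInter.1 a4 y hy hyz).2
  rw [heq]
  exact proj_closed n C1 hC1 fun p hp => hp.1.1

/-- the section at a fixed energy -/
def EvE (T0 : (Fin d → ℤ) → (Fin d → ℤ) → ℝ) (κ : (Fin d → ℤ) → ℝ) (E : ℝ)
    (F : Finset (Fin d → ℤ)) (z : Fin d → ℤ) (n : ℝ)
    (C : Set ((ℝ × Om d) × (((Fin d → ℤ) → ℝ) × ℝ))) : Set (Om d) :=
  {q | ∃ φ, GF T0 κ E q.2 q.1 F z φ ∧ φ ∈ Kn d n ∧ ((E, q), (φ, ap T0 κ E q.2 q.1 φ z)) ∈ C}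

theorem evE_meas (h : Adm T0 κ ρ0 b) (E : ℝ) (F : Finset (Fin d → ℤ)) (z : Fin d → ℤ) (n : ℝ)
    (C : Set ((ℝ × Om d) × (((Fin d → ℤ) → ℝ) × ℝ))) (hC : IsClosed C) :
    MeasurableSet (EvE T0 κ E F z n C) := by
  have h1 := (ev_closed h F z n C hC).preimage (f := fun q : Om d => (E, q)) (by fun_prop)
  exact h1.measurableSet

end Pool.Agent.TH980.SH
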