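import Pool.Agent.TH980.SH.Flip

/-!
If there is a normalised solution at the origin with positive probability, then far away sites have
normalised solutions, with the origin removed, and uniform bounds.
-/

set_option autoImplicit false

namespace Pool.Agent.TH980.SH

open Finset MeasureTheory ProbabilityTheory H10PL Filter Topology Pool.Agent.TH980.PL

variable {d : ℕ} {T0 : (Fin d → ℤ) → (Fin d → ℤ) → ℝ} {κ : (Fin d → ℤ) → ℝ} {ρ0 b : ℝ}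

/-- constraint sets -/
def CD (d : ℕ) (z : Fin d → ℤ) (n : ℝ) : Set ((ℝ × Om d) × (((Fin d → ℤ) → ℝ) × ℝ)) :=
  {p | |p.2.2| ≤ n ∧ |p.1.2.1 z| ≤ n}

def CO (d : ℕ) (u : Fin d → ℤ) : Set ((ℝ × Om d) × (((Fin d → ℤ) → ℝ) × ℝ)) :=
  {p | 1 / 2 ≤ |p.2.1 u|}

def CG (d : ℕ) (z : Fin d → ℤ) (W : ℝ) : Set ((ℝ × Om d) × (((Fin d → ℤ) → ℝ) × ℝ)) :=
  {p | |p.1.2.1 z - p.2.2| ≤ W}

theorem cont_r : Continuous fun p : (ℝ × Om d) × (((Fin d → ℤ) → ℝ) × ℝ) => p.2.2 :=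
  continuous_snd.comp continuous_snd

theorem cont_V (z : Fin d → ℤ) :
    Continuous fun p : (ℝ × Om d) × (((Fin d → ℤ) → ℝ) × ℝ) => p.1.2.1 z :=
  (continuous_apply z).comp (continuous_fst.comp (continuous_snd.comp continuous_fst))

theorem cont_f (u : Fin d → ℤ) :
    Continuous fun p : (ℝ × Om d) × (((Fin d → ℤ) → ℝ) × ℝ) => p.2.1 u :=
  (continuous_apply u).comp (continuous_fst.comp continuous_snd)

theorem CD_closed (z : Fin d → ℤ) (n : ℝ) : IsClosed (CD d z n) :=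
  (isClosed_le cont_r.abs continuous_const).inter (isClosed_le (cont_V z).abs continuous_const)

theorem CO_closed (u : Fin d → ℤ) : IsClosed (CO d u) :=
  isClosed_le continuous_const (cont_f u).abs

theorem CG_closed (z : Fin d → ℤ) (W : ℝ) : IsClosed (CG d z W) :=
  isClosed_le ((cont_V z).sub cont_r).abs continuous_const

theorem iUnion_CD (E : ℝ) (z : Fin d → ℤ) :
    ⋃ n : ℕ, EvE T0 κ E ∅ z n (CD d z n) = GG T0 κ E z := by
  ext q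
  rw [Set.mem_iUnion, mem_GG]
  constructor
  · rintro ⟨n, φ, h1, _, _⟩
    exact ⟨φ, h1⟩
  · rintro ⟨φ, h1⟩
    obtain ⟨n, hn⟩ := exists_nat_ge (max (∑' y, φ y ^ 2) (max |ap T0 κ E q.2 q.1 φ z| |q.1 z|))
    refine ⟨n, φ, h1, mem_Kn.2 ⟨h1.1, (le_max_left _ _).trans hn⟩, ?_, ?_⟩
    · exact (le_max_left _ _).trans ((le_max_right _ _).trans hn)
    · exact (le_max_right _ _).trans ((le_max_right _ _).trans hn)

theorem CD_mono (E : ℝ) (z : Fin d → ℤ) :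
    Monotone fun n : ℕ => EvE T0 κ E ∅ z n (CD d z n) := by
  rintro n m hnm q ⟨φ, h1, h2, h3, h4⟩
  have h5 : (n : ℝ) ≤ m := by exact_mod_cast hnm
  exact ⟨φ, h1, Kn_mono h5 h2, h3.trans h5, h4.trans h5⟩

theorem exists_n (h : Adm T0 κ ρ0 b) (v : NNReal) (E : ℝ) {ε : ℝ} (hε : 0 < ε) :
    ∃ n : ℕ, (MU d v).real (GG T0 κ E 0 \ EvE T0 κ E ∅ 0 n (CD d 0 n)) ≤ ε := by
  have h1 : Tendsto (fun n : ℕ => MU d v (EvE T0 κ E ∅ 0 n (CD d 0 n))) atTop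
      (𝓝 (MU d v (GG T0 κ E 0))) := by
    rw [← iUnion_CD]
    exact tendsto_measure_iUnion_atTop (CD_mono E 0)
  have h2 : Tendsto (fun n : ℕ => (MU d v).real (EvE T0 κ E ∅ 0 n (CD d 0 n))) atTop
      (𝓝 ((MU d v).real (GG T0 κ E 0))) :=
    (ENNReal.tendsto_toReal (measure_ne_top _ _)).comp h1
  have h3 : ∀ᶠ n : ℕ in atTop, (MU d v).real (GG T0 κ E 0) - ε <
      (MU d v).real (EvE T0 κ E ∅ 0 n (CD d 0 n)) := h2.eventually_const_lt (by linarith)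
  obtain ⟨n, hn⟩ := h3.exists
  refine ⟨n, ?_⟩
  have hsub : EvE T0 κ E ∅ 0 n (CD d 0 n) ⊆ GG T0 κ E 0 := by
    rw [← iUnion_CD]
    exact Set.subset_iUnion (fun n : ℕ => EvE T0 κ E ∅ 0 n (CD d 0 n)) n
  rw [measureReal_sdiff hsub (evE_meas h E ∅ 0 n _ (CD_closed 0 n))]
  linarith

theorem diff_sh (h : Adm T0 κ ρ0 b) (hT : ∀ a y w, T0 (y + a) (w + a) = T0 y w) (v : NNReal)
    (E : ℝ) (n : ℕ) (z : Fin d → ℤ) :
    (MU d v).real (GG T0 κ E z \ EvE T0 κ E ∅ z n (CD d z n)) =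
      (MU d v).real (GG T0 κ E 0 \ EvE T0 κ E ∅ 0 n (CD d 0 n)) := by
  have h1 : sh z ⁻¹' (GG T0 κ E 0 \ EvE T0 κ E ∅ 0 n (CD d 0 n)) =
      GG T0 κ E z \ EvE T0 κ E ∅ z n (CD d z n) := by
    rw [Set.preimage_sdiff]
    congr 1
    · unfold GG
      rw [Set.preimage_iUnion]
      refine Set.iUnion_congr fun n => ?_
      unfold AA0
      rw [evE_sh hT E z 0 n Set.univ Set.univ (fun _ _ _ => Iff.rfl), zero_add]
    · rw [evE_sh hT E z 0 n (CD d 0 n) (CD d z n), zero_add]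
      intro q φ r
      unfold CD
      simp only [Set.mem_ofPred_eq, sh, zero_add]
  rw [← h1]
  unfold Measure.real
  rw [(sh_mp v z).measure_preimage]
  exact ((GG_meas h E 0).diff (evE_meas h E ∅ 0 n _ (CD_closed 0 n))).nullMeasurableSet

theorem O_sh (h : Adm T0 κ ρ0 b) (hT : ∀ a y w, T0 (y + a) (w + a) = T0 y w) (v : NNReal)
    (E : ℝ) (n : ℝ) (z : Fin d → ℤ) :
    (MU d v).real (EvE T0 κ E ∅ z n (CO d 0)) = (MU d v).real (EvE T0 κ E ∅ 0 n (CO d (-z))) := by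
  have h1 : sh z ⁻¹' (EvE T0 κ E ∅ 0 n (CO d (-z))) = EvE T0 κ E ∅ z n (CO d 0) := by
    rw [evE_sh hT E z 0 n (CO d (-z)) (CO d 0), zero_add]
    intro q φ r
    unfold CO
    simp only [Set.mem_ofPred_eq, neg_add_cancel]
  rw [← h1]
  unfold Measure.real
  rw [(sh_mp v z).measure_preimage]
  exact (evE_meas h E ∅ 0 n _ (CO_closed _)).nullMeasurableSet

/-- counting lemma -/
theorem card_big {φ : (Fin d → ℤ) → ℝ} {n : ℝ} (hφ : φ ∈ Kn d n) (U : Finset (Fin d → ℤ)) :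
    ((U.filter fun u => 1 / 2 ≤ |φ u|).card : ℝ) ≤ 4 * n := by
  have h1 := hφ (U.filter fun u => 1 / 2 ≤ |φ u|)
  have h2 : ∑ u ∈ U.filter fun u => 1 / 2 ≤ |φ u|, (1 / 4 : ℝ) ≤
      ∑ u ∈ U.filter fun u => 1 / 2 ≤ |φ u|, φ u ^ 2 := by
    refine Finset.sum_le_sum fun u hu => ?_
    have h3 := (Finset.mem_filter.1 hu).2
    rw [← sq_abs]
    nlinarith
  rw [Finset.sum_const, nsmul_eq_mul] at h2
  linarith

theorem sum_O (h : Adm T0 κ ρ0 b) (v : NNReal) (hv : v ≠ 0)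
    (hc : ∀ᵐ s ∂(Ps d), CutOK T0 κ s) (E : ℝ) (F : Finset (Fin d → ℤ)) (z : Fin d → ℤ)
    (n : ℝ) (C : Set ((ℝ × Om d) × (((Fin d → ℤ) → ℝ) × ℝ))) (hC : IsClosed C)
    (hn : 0 ≤ n) (U : Finset (Fin d → ℤ)) :
    ∑ u ∈ U, (MU d v).real (EvE T0 κ E F z n (CO d u ∩ C)) ≤
      4 * n * (MU d v).real (EvE T0 κ E F z n C) := by
  classical
  have hm : ∀ u, MeasurableSet (EvE T0 κ E F z n (CO d u ∩ C)) := fun u =>
    evE_meas h E F z n _ ((CO_closed u).inter hC)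
  have hmC := evE_meas h E F z n C hC
  have h1 : ∀ u, (MU d v).real (EvE T0 κ E F z n (CO d u ∩ C)) =
      ∫ q, (EvE T0 κ E F z n (CO d u ∩ C)).indicator (fun _ => (1 : ℝ)) q ∂(MU d v) := by
    intro u
    rw [integral_indicator (hm u)]
    simp
  have h2 : (MU d v).real (EvE T0 κ E F z n C) =
      ∫ q, (EvE T0 κ E F z n C).indicator (fun _ => (1 : ℝ)) q ∂(MU d v) := by
    rw [integral_indicator hmC]
    simp
  have hint : ∀ {A : Set (Om d)}, MeasurableSet A →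
      Integrable (A.indicator fun _ => (1 : ℝ)) (MU d v) := fun hA =>
    (integrable_const (1 : ℝ)).indicator hA
  rw [Finset.sum_congr rfl fun u _ => h1 u, ← integral_finsetSum _ fun u _ => hint (hm u), h2,
    ← integral_const_mul]
  refine integral_mono_ae (integrable_finsetSum _ fun u _ => hint (hm u)) ((hint hmC).const_mul _) ?_
  filter_upwards [uq_ae h v hv hc E] with q hU
  by_cases hq : q ∈ EvE T0 κ E F z n C
  · obtain ⟨φ, h3, h4, h5⟩ := hq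
    have h6 : ∀ u, (EvE T0 κ E F z n (CO d u ∩ C)).indicator (fun _ => (1 : ℝ)) q ≤
        if 1 / 2 ≤ |φ u| then 1 else 0 := by
      intro u
      by_cases hu : q ∈ EvE T0 κ E F z n (CO d u ∩ C)
      · rw [Set.indicator_of_mem hu]
        obtain ⟨φ', h3', h4', h5', _⟩ := hu
        have := h3.unique h h3' (hU _)
        subst this
        rw [if_pos]
        exact h5'
      · rw [Set.indicator_of_notMem hu]
        split_ifs <;> norm_num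
    have h7 : q ∈ EvE T0 κ E F z n C := ⟨φ, h3, h4, h5⟩
    rw [Set.indicator_of_mem h7, mul_one]
    refine (Finset.sum_le_sum fun u _ => h6 u).trans ?_
    rw [← Finset.sum_filter, Finset.sum_const, nsmul_eq_mul, mul_one]
    exact card_big h4 U
  · rw [Set.indicator_of_notMem hq, mul_zero]
    refine le_of_eq (Finset.sum_eq_zero fun u _ => ?_)
    rw [Set.indicator_of_notMem]
    rintro ⟨φ, h3, h4, _, h5⟩
    exact hq ⟨φ, h3, h4, h5⟩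

theorem O_far (h : Adm T0 κ ρ0 b) (v : NNReal) (hv : v ≠ 0)
    (hc : ∀ᵐ s ∂(Ps d), CutOK T0 κ s) (E : ℝ) (n : ℝ) (hn : 0 ≤ n) {ε : ℝ} (hε : 0 < ε) :
    ∃ Fr : Finset (Fin d → ℤ), ∀ u, u ∉ Fr → (MU d v).real (EvE T0 κ E ∅ 0 n (CO d u)) ≤ ε := by
  have h1 : Summable fun u => (MU d v).real (EvE T0 κ E ∅ 0 n (CO d u)) := by
    refine summable_of_sum_le (c := 4 * n * (MU d v).real (EvE T0 κ E ∅ 0 n Set.univ))
      (fun u => measureReal_nonneg) fun U => ?_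
    have h2 := sum_O h v hv hc E ∅ 0 n Set.univ isClosed_univ hn U
    simpa only [Set.inter_univ] using h2
  have h2 := (h1.tendsto_cofinite_zero).eventually_lt_const hε
  rw [Filter.eventually_cofinite] at h2
  refine ⟨h2.toFinset, fun u hu => ?_⟩
  rw [Set.Finite.mem_toFinset] at hu
  simp only [Set.mem_ofPred_eq, not_not] at hu
  exact hu.le

/-- removing the origin -/
theorem det_G (h : Adm T0 κ ρ0 b) {E : ℝ} {q : Om d} {n : ℝ} (hn : 0 ≤ n) {z : Fin d → ℤ}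
    (hz : z ≠ 0)
    (h1 : q ∈ EvE T0 κ E ∅ 0 n (CD d 0 n)) (h2 : q ∈ EvE T0 κ E ∅ z n (CD d z n))
    (h3 : q ∉ EvE T0 κ E ∅ z n (CO d 0)) (h4 : q ∉ EvE T0 κ E ∅ 0 n (CO d z)) :
    q ∈ EvE T0 κ E {0} z (4 * n) (CG d z (3 * n)) := by
  obtain ⟨φ0, ⟨a1, a2, a3, a4⟩, a5, a6, a7⟩ := h1
  obtain ⟨φz, ⟨b1, b2, b3, b4⟩, b5, b6, b7⟩ := h2
  have hα : |φz 0| < 1 / 2 := by
    by_contra hcon
    exact h3 ⟨φz, ⟨b1, b2, b3, b4⟩, b5, not_lt.1 hcon⟩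
  have hβ : |φ0 z| < 1 / 2 := by
    by_contra hcon
    exact h4 ⟨φ0, ⟨a1, a2, a3, a4⟩, a5, not_lt.1 hcon⟩
  set α := φz 0 with hαd
  set β := φ0 z with hβd
  have hαβ : |α * β| < 1 / 4 := by
    rw [abs_mul]
    nlinarith [abs_nonneg α, abs_nonneg β]
  have hD : 3 / 4 < 1 - α * β := by linarith [(abs_lt.1 hαβ).2]
  set D := 1 - α * β with hDd
  have hD0 : 0 < D := by linarith
  have hDi : D⁻¹ ≤ 4 / 3 := by
    rw [inv_le_comm₀ hD0 (by norm_num)]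
    linarith
  have hDi0 : 0 < D⁻¹ := inv_pos.2 hD0
  set ψ : (Fin d → ℤ) → ℝ := fun y => D⁻¹ * φz y + (-(α * D⁻¹)) * φ0 y with hψ
  have hψ2 : L2 ψ := b1.lin a1 _ _
  have eap : ∀ y, ap T0 κ E q.2 q.1 ψ y =
      D⁻¹ * ap T0 κ E q.2 q.1 φz y + (-(α * D⁻¹)) * ap T0 κ E q.2 q.1 φ0 y := fun y => by
    rw [hψ, ap_lin h b1 a1]
  have hz1 : ap T0 κ E q.2 q.1 ψ z = D⁻¹ * ap T0 κ E q.2 q.1 φz z := by
    rw [eap, a4 z (Finset.notMem_empty _) hz]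
    ring
  refine ⟨ψ, ⟨hψ2, ?_, ?_, ?_⟩, ?_, ?_⟩
  · show D⁻¹ * φz z + (-(α * D⁻¹)) * φ0 z = 1
    rw [b2, ← hβd]
    have : D⁻¹ * 1 + -(α * D⁻¹) * β = D⁻¹ * D := by rw [hDd]; ring
    rw [this, inv_mul_cancel₀ hD0.ne']
  · intro y hy
    rw [Finset.mem_singleton.1 hy]
    show D⁻¹ * φz 0 + (-(α * D⁻¹)) * φ0 0 = 0
    rw [a2, ← hαd]
    ring
  · intro y hy hyz
    rw [eap, b4 y (Finset.notMem_empty _) hyz,
      a4 y (Finset.notMem_empty _) (by simpa using hy)]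
    ring
  · intro F
    have h5 : ∀ y, ψ y ^ 2 ≤ 8 / 3 * φz y ^ 2 + 4 / 3 * φ0 y ^ 2 := by
      intro y
      have e : ψ y = D⁻¹ * (φz y - α * φ0 y) := by
        simp only [hψ]
        ring
      rw [e, mul_pow]
      have h6 : D⁻¹ ^ 2 ≤ 16 / 9 := by nlinarith
      have h7 : (φz y - α * φ0 y) ^ 2 ≤ 3 / 2 * (φz y ^ 2 + 1 / 2 * φ0 y ^ 2) := by
        have h8 : |φz y - α * φ0 y| ≤ |φz y| + 1 / 2 * |φ0 y| := by
          refine (abs_sub _ _).trans ?_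
          rw [abs_mul]
          have := mul_le_mul_of_nonneg_right hα.le (abs_nonneg (φ0 y))
          linarith
        have h9 : (φz y - α * φ0 y) ^ 2 ≤ (|φz y| + 1 / 2 * |φ0 y|) ^ 2 := by
          rw [← sq_abs (φz y - α * φ0 y)]
          exact pow_le_pow_left₀ (abs_nonneg _) h8 2
        have h10 := sq_abs (φz y)
        have h11 := sq_abs (φ0 y)
        nlinarith [sq_nonneg (|φz y| - |φ0 y|)]
      have h12 : 0 ≤ (φz y - α * φ0 y) ^ 2 := sq_nonneg _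
      calc D⁻¹ ^ 2 * (φz y - α * φ0 y) ^ 2 ≤ 16 / 9 * (φz y - α * φ0 y) ^ 2 := by gcongr
        _ ≤ 16 / 9 * (3 / 2 * (φz y ^ 2 + 1 / 2 * φ0 y ^ 2)) := by gcongr
        _ = _ := by ring
    refine (Finset.sum_le_sum fun y _ => h5 y).trans ?_
    rw [Finset.sum_add_distrib, ← Finset.mul_sum, ← Finset.mul_sum]
    have := b5 F
    have := a5 F
    linarith
  · show |q.1 z - ap T0 κ E q.2 q.1 ψ z| ≤ 3 * n
    rw [hz1]
    have h5 : |ap T0 κ E q.2 q.1 φz z| ≤ n := b6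
    have h6 : |q.1 z| ≤ n := b7
    refine (abs_sub _ _).trans ?_
    rw [abs_mul, abs_of_pos hDi0]
    have h7 : D⁻¹ * |ap T0 κ E q.2 q.1 φz z| ≤ 4 / 3 * n :=
      mul_le_mul hDi h5 (abs_nonneg _) (by norm_num)
    linarith

theorem const_lower (h : Adm T0 κ ρ0 b) (hT : ∀ a y w, T0 (y + a) (w + a) = T0 y w)
    (v : NNReal) (hv : v ≠ 0) (hc : ∀ᵐ s ∂(Ps d), CutOK T0 κ s) (E : ℝ)
    (hp : 0 < (MU d v).real (GG T0 κ E 0)) :
    ∃ (n : ℕ) (Fr : Finset (Fin d → ℤ)), (0 : Fin d → ℤ) ∈ Fr ∧ ∀ z, z ∉ Fr → κ z ≠ 0 →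
      (MU d v).real (GG T0 κ E 0) / 2 ≤
        (MU d v).real (GG T0 κ E 0 ∩ EvE T0 κ E {0} z (4 * n) (CG d z (3 * n))) := by
  classical
  set p := (MU d v).real (GG T0 κ E 0) with hpd
  have hε : 0 < p / 16 := by positivity
  obtain ⟨n, hn⟩ := exists_n h v E hε
  obtain ⟨F1, hF1⟩ := GG_near h v hv hc E hε
  obtain ⟨F2, hF2⟩ := O_far h v hv hc E (n : ℝ) (Nat.cast_nonneg n) hε
  refine ⟨n, insert 0 (F1 ∪ F2 ∪ F2.image (fun u => -u)), Finset.mem_insert_self _ _,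
    fun z hz hκ => ?_⟩
  rw [Finset.mem_insert, not_or, Finset.mem_union, not_or, Finset.mem_union, not_or] at hz
  obtain ⟨hz0, ⟨hz1, hz2⟩, hz3⟩ := hz
  have hz4 : -z ∉ F2 := fun h5 => hz3 (Finset.mem_image.2 ⟨-z, h5, neg_neg z⟩)
  have g1 : (MU d v).real (GG T0 κ E 0 \ GG T0 κ E z) ≤ p / 16 :=
    ENNReal.toReal_le_of_le_ofReal hε.le (hF1 z hz1 hκ)
  have g2 : (MU d v).real (GG T0 κ E z \ EvE T0 κ E ∅ z n (CD d z n)) ≤ p / 16 := by
    rw [diff_sh h hT v E n z]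
    exact hn
  have g3 : (MU d v).real (EvE T0 κ E ∅ 0 n (CO d z)) ≤ p / 16 := hF2 z hz2
  have g4 : (MU d v).real (EvE T0 κ E ∅ z n (CO d 0)) ≤ p / 16 := by
    rw [O_sh h hT v E n z]
    exact hF2 (-z) hz4
  have hsub : GG T0 κ E 0 ⊆ (GG T0 κ E 0 ∩ EvE T0 κ E {0} z (4 * n) (CG d z (3 * n))) ∪
      ((GG T0 κ E 0 \ EvE T0 κ E ∅ 0 n (CD d 0 n)) ∪ ((GG T0 κ E 0 \ GG T0 κ E z) ∪
      ((GG T0 κ E z \ EvE T0 κ E ∅ z n (CD d z n)) ∪ (EvE T0 κ E ∅ 0 n (CO d z) ∪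
      EvE T0 κ E ∅ z n (CO d 0))))) := by
    intro q hq
    by_contra hcon
    simp only [Set.mem_union, not_or] at hcon
    obtain ⟨c1, c2, c3, c4, c5, c6⟩ := hcon
    have d1 : q ∈ EvE T0 κ E ∅ 0 n (CD d 0 n) := by
      by_contra hh
      exact c2 ⟨hq, hh⟩
    have d2 : q ∈ GG T0 κ E z := by
      by_contra hh
      exact c3 ⟨hq, hh⟩
    have d3 : q ∈ EvE T0 κ E ∅ z n (CD d z n) := by
      by_contra hh
      exact c4 ⟨d2, hh⟩
    exact c1 ⟨hq, det_G h (Nat.cast_nonneg n) hz0 d1 d3 c6 c5⟩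
  have hle := measureReal_mono (μ := MU d v) hsub
  have u1 := measureReal_union_le (μ := MU d v)
    (GG T0 κ E 0 ∩ EvE T0 κ E {0} z (4 * n) (CG d z (3 * n)))
      ((GG T0 κ E 0 \ EvE T0 κ E ∅ 0 n (CD d 0 n)) ∪ ((GG T0 κ E 0 \ GG T0 κ E z) ∪
      ((GG T0 κ E z \ EvE T0 κ E ∅ z n (CD d z n)) ∪ (EvE T0 κ E ∅ 0 n (CO d z) ∪
      EvE T0 κ E ∅ z n (CO d 0)))))
  have u2 := measureReal_union_le (μ := MU d v)
      (GG T0 κ E 0 \ EvE T0 κ E ∅ 0 n (CD d 0 n)) ((GG T0 κ E 0 \ GG T0 κ E z) ∪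
      ((GG T0 κ E z \ EvE T0 κ E ∅ z n (CD d z n)) ∪ (EvE T0 κ E ∅ 0 n (CO d z) ∪
      EvE T0 κ E ∅ z n (CO d 0))))
  have u3 := measureReal_union_le (μ := MU d v) (GG T0 κ E 0 \ GG T0 κ E z)
      ((GG T0 κ E z \ EvE T0 κ E ∅ z n (CD d z n)) ∪ (EvE T0 κ E ∅ 0 n (CO d z) ∪
      EvE T0 κ E ∅ z n (CO d 0)))
  have u4 := measureReal_union_le (μ := MU d v) (GG T0 κ E z \ EvE T0 κ E ∅ z n (CD d z n))
      (EvE T0 κ E ∅ 0 n (CO d z) ∪ EvE T0 κ E ∅ z n (CO d 0))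
  have u5 := measureReal_union_le (μ := MU d v) (EvE T0 κ E ∅ 0 n (CO d z))
      (EvE T0 κ E ∅ z n (CO d 0))
  linarith

end Pool.Agent.TH980.SH
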