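import Pool.Agent.TH980.SH.SignD
import Pool.Agent.TH980.PL.Expl

/-!
Almost surely there is no square summable solution, if the profile is not absolutely summable.
-/

set_option autoImplicit false

namespace Pool.Agent.TH980.SH

open Finset MeasureTheory ProbabilityTheory H10PL Filter Topology Pool.Agent.TH980.PL

variable {d : ℕ} {T0 : (Fin d → ℤ) → (Fin d → ℤ) → ℝ} {κ : (Fin d → ℤ) → ℝ} {ρ0 b : ℝ}

theorem GG_ae (h : Adm T0 κ ρ0 b) (hT : ∀ a y w, T0 (y + a) (w + a) = T0 y w)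
    (v : NNReal) (hv : v ≠ 0) (hc : ∀ᵐ s ∂(Ps d), CutOK T0 κ s)
    (hns : ¬ Summable fun z => |κ z|) (x : Fin d → ℤ) :
    ∀ᵐ q ∂(MU d v), ∀ᵐ E : ℝ, q ∉ GG T0 κ E x := by
  have hm : MeasurableSet {p : ℝ × Om d | p.2 ∈ GG T0 κ p.1 x} := by
    have e : {p : ℝ × Om d | p.2 ∈ GG T0 κ p.1 x} = ⋃ n : ℕ, Ev T0 κ ∅ x n Set.univ := by
      ext p
      rw [Set.mem_iUnion]
      constructor
      · intro hp
        have hp' : p.2 ∈ GG T0 κ p.1 x := hp
        unfold GG at hp'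
        rw [Set.mem_iUnion] at hp'
        exact hp'
      · intro hp
        show p.2 ∈ GG T0 κ p.1 x
        unfold GG
        rw [Set.mem_iUnion]
        exact hp
    rw [e]
    exact MeasurableSet.iUnion fun n => (ev_closed h ∅ x n _ isClosed_univ).measurableSet
  have h1 : ((volume : Measure ℝ).prod (MU d v)) {p : ℝ × Om d | p.2 ∈ GG T0 κ p.1 x} = 0 := by
    rw [Measure.measure_prod_null hm]
    exact Eventually.of_forall fun E => GG_zero h hT v hv hc hns E x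
  have h2 : ∀ᵐ p ∂((volume : Measure ℝ).prod (MU d v)), p.2 ∉ GG T0 κ p.1 x :=
    measure_eq_zero_iff_ae_notMem.1 h1
  have h3 : ∀ᵐ p ∂((MU d v).prod (volume : Measure ℝ)), p.1 ∉ GG T0 κ p.2 x :=
    (Measure.measurePreserving_swap (μ := MU d v) (ν := (volume : Measure ℝ))).quasiMeasurePreserving.ae h2
  exact Measure.ae_ae_of_ae_prod h3

theorem bad_null' (h : Adm T0 κ ρ0 b) (hT : ∀ a y w, T0 (y + a) (w + a) = T0 y w)
    (v : NNReal) (hv : v ≠ 0) (hc : ∀ᵐ s ∂(Ps d), CutOK T0 κ s)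
    (hns : ¬ Summable fun z => |κ z|) (x : Fin d → ℤ) :
    (MU d v) {q | ∃ E ψ, IsEig T0 κ q.2 q.1 E ψ ∧ ψ x ≠ 0} = 0 := by
  set Bd : Set (Om d) := {q | ∃ E ψ, IsEig T0 κ q.2 q.1 E ψ ∧ ψ x ≠ 0} with hBd
  have hBd' : Bd = ⋃ n, Bad T0 κ x n := by
    ext q
    rw [Set.mem_iUnion]
    exact bad_iff h x q
  have hm : MeasurableSet Bd := by
    rw [hBd']
    exact MeasurableSet.iUnion fun n => (bad_closed h x n).measurableSet
  refine le_antisymm ?_ zero_le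
  refine resample_le v x hm 0 ?_
  filter_upwards [GG_ae h hT v hv hc hns x, cut_ae' v hc] with q hq hcq
  have hE : ∀ᵐ E : ℝ, ¬ ∃ t ψ, IsEig T0 κ q.2 (Function.update q.1 x t) E ψ ∧ ψ x ≠ 0 := by
    filter_upwards [hq] with E hqE
    rintro ⟨t, ψ, ⟨h1, h2⟩, h3⟩
    apply hqE
    have h4 : GF T0 κ E q.2 (Function.update q.1 x t) ∅ x (fun y => (ψ x)⁻¹ * ψ y) := by
      refine ⟨(show L2 ψ from h1).smul _, inv_mul_cancel₀ h3, ?_, ?_⟩
      · intro y hy
        exact absurd hy (Finset.notMem_empty _)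
      · intro y _ _
        rw [ap_smul]
        have h5 := h2 y
        have h6 : ap T0 κ E q.2 (Function.update q.1 x t) ψ y = 0 := by
          unfold ap
          linarith
        rw [h6, mul_zero]
    exact mem_GG.2 ⟨_, (GF_upd t).1 h4⟩
  have h3 := null_slice h q.2 hcq q.1 x hE
  have h4 : ∀ᵐ t ∂(gaussianReal 0 v), ¬ ∃ E ψ, IsEig T0 κ q.2 (Function.update q.1 x t) E ψ ∧
      ψ x ≠ 0 := (gaussianReal_absolutelyContinuous 0 hv).ae_le h3
  rw [ae_iff] at h4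
  simp only [not_not] at h4
  exact le_of_eq h4

/-- **Main theorem.** -/
theorem sharp (h : Adm T0 κ ρ0 b) (hT : ∀ a y w, T0 (y + a) (w + a) = T0 y w)
    (v : NNReal) (hv : v ≠ 0) {δ : ℝ} (hδ : 0 < δ)
    (hs : Summable fun z : Fin d → ℤ => ‖z‖ ^ δ * κ z ^ 2)
    (hns : ¬ Summable fun z => |κ z|) :
    ∀ᵐ q ∂((PV d v).prod (Ps d)), NoSol T0 κ q.2 q.1 := by
  have hc := cut_ae h (lt_min hδ two_pos) (min_le_right _ _) (summable_min h.κ0 hs)
  have h1 : ∀ᵐ q ∂(MU d v), ∀ x, ¬ ∃ E ψ, IsEig T0 κ q.2 q.1 E ψ ∧ ψ x ≠ 0 := by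
    rw [ae_all_iff]
    intro x
    rw [ae_iff]
    simpa using bad_null' h hT v hv hc hns x
  filter_upwards [h1, cut_ae' v hc] with q hq hcq
  refine noSol_of h q.2 hcq q.1 fun E ψ hψ => ?_
  funext x
  by_contra hx
  exact hq x ⟨E, ψ, hψ, hx⟩

theorem Lap_inv (a y w : Fin d → ℤ) : Lap d (y + a) (w + a) = Lap d y w := by
  unfold Lap
  have : ∑ i, |(y + a) i - (w + a) i| = ∑ i, |y i - w i| :=
    Finset.sum_congr rfl fun i _ => by
      rw [Pi.add_apply, Pi.add_apply, add_sub_add_right_eq_sub]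
  rw [this]

/-- `|z|^{-α}` is not summable for `α ≤ d` -/
theorem not_summable_pow (hd : 0 < d) {α c : ℝ} (hα : 0 < α) (hαd : α ≤ d) (hc : 0 < c) :
    ¬ Summable fun z : Fin d → ℤ => c * ‖z‖ ^ (-α) := by
  classical
  intro hsum
  set e : ℝ := c * (1 / 2) ^ d with he
  have he0 : 0 < e := by positivity
  obtain ⟨F, hF⟩ := (summable_iff_vanishing_norm.1 hsum) e he0
  obtain ⟨N, hN⟩ := exists_nat_ge (∑ y ∈ F, ‖y‖)
  set n := N + 1 with hn
  set S : Finset (Fin d → ℤ) := Fintype.piFinset fun _ : Fin d => Finset.Ico (n : ℤ) (2 * n) with hS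
  have hcard : S.card = n ^ d := by
    rw [hS, Fintype.card_piFinset_const, Int.card_Ico]
    congr 1
    omega
  have hn0 : (0 : ℝ) < n := by exact_mod_cast Nat.succ_pos N
  have hlow : ∀ z ∈ S, (n : ℝ) ≤ ‖z‖ := by
    intro z hz
    rw [hS, Fintype.mem_piFinset] at hz
    refine le_trans ?_ (norm_le_pi_norm z ⟨0, hd⟩)
    rw [Int.norm_eq_abs]
    have := (Finset.mem_Ico.1 (hz ⟨0, hd⟩)).1
    have h2 : ((n : ℤ) : ℝ) ≤ ((z ⟨0, hd⟩ : ℤ) : ℝ) := by exact_mod_cast this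
    rw [Int.cast_natCast] at h2
    exact h2.trans (le_abs_self _)
  have hup : ∀ z ∈ S, ‖z‖ ≤ 2 * n := by
    intro z hz
    rw [hS, Fintype.mem_piFinset] at hz
    rw [pi_norm_le_iff_of_nonneg (by positivity)]
    intro i
    rw [Int.norm_eq_abs, abs_le]
    obtain ⟨h3, h4⟩ := Finset.mem_Ico.1 (hz i)
    have h5 : ((n : ℤ) : ℝ) ≤ ((z i : ℤ) : ℝ) := by exact_mod_cast h3
    have h6 : ((z i : ℤ) : ℝ) ≤ ((2 * n : ℤ) : ℝ) := by exact_mod_cast h4.le
    push_cast at h6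
    rw [Int.cast_natCast] at h5
    constructor <;> linarith
  have hdis : Disjoint S F := by
    rw [Finset.disjoint_left]
    intro z hz hzF
    have h1 := hlow z hz
    have h2 := Finset.single_le_sum (f := fun y : Fin d → ℤ => ‖y‖) (fun z _ => norm_nonneg z) hzF
    have h3 : ‖z‖ ≤ ∑ y ∈ F, ‖y‖ := h2
    have h4 : (n : ℝ) = N + 1 := by rw [hn]; push_cast; ring
    linarith
  have h1 := hF S hdis
  have h2 : e ≤ ∑ z ∈ S, c * ‖z‖ ^ (-α) := by
    have h3 : ∀ z ∈ S, c * ((2 : ℝ) * n) ^ (-(d : ℝ)) ≤ c * ‖z‖ ^ (-α) := by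
      intro z hz
      refine mul_le_mul_of_nonneg_left ?_ hc.le
      have hz0 : 0 < ‖z‖ := lt_of_lt_of_le hn0 (hlow z hz)
      have hz1 : 1 ≤ ‖z‖ := by
        have : (1 : ℝ) ≤ n := by exact_mod_cast Nat.succ_pos N
        exact this.trans (hlow z hz)
      calc ((2 : ℝ) * n) ^ (-(d : ℝ)) ≤ ‖z‖ ^ (-(d : ℝ)) :=
            Real.rpow_le_rpow_of_nonpos hz0 (hup z hz) (by
              have : (0 : ℝ) ≤ d := Nat.cast_nonneg d
              linarith)
        _ ≤ ‖z‖ ^ (-α) := Real.rpow_le_rpow_of_exponent_le hz1 (by linarith)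
    have h4 := Finset.sum_le_sum h3
    rw [Finset.sum_const, hcard, nsmul_eq_mul] at h4
    refine le_trans (le_of_eq ?_) h4
    rw [Real.rpow_neg (by positivity), Real.rpow_natCast, he]
    push_cast
    rw [mul_pow, one_div, inv_pow]
    field_simp
  have h5 := (le_abs_self _).trans_lt h1
  linarith

/-- **Power laws up to the critical exponent**: all `d/2 < α ≤ d`. -/
theorem power_sharp (hd : 0 < d) (v : NNReal) (hv : v ≠ 0) (α ε : ℝ) (h1 : (d : ℝ) / 2 < α)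
    (h2 : α ≤ d) (hε : ε ≠ 0) :
    ∀ᵐ q ∂((PV d v).prod (Ps d)), NoSol (Lap d) (fun z => ε * ‖z‖ ^ (-α)) q.2 q.1 := by
  have hd' : (0 : ℝ) < d := by exact_mod_cast hd
  have hα : 0 < α := by linarith [half_pos hd']
  set κ : (Fin d → ℤ) → ℝ := fun z => ε * ‖z‖ ^ (-α) with hκ
  have h0 : κ 0 = 0 := by
    simp only [hκ, norm_zero]
    rw [Real.zero_rpow (by linarith), mul_zero]
  have hsy : ∀ z, κ (-z) = κ z := fun z => by simp only [hκ, norm_neg]
  set δ : ℝ := (2 * α - d) / 2 with hδ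
  have hδ0 : 0 < δ := by rw [hδ]; linarith
  have hs : Summable fun z : Fin d → ℤ => ‖z‖ ^ δ * κ z ^ 2 := by
    have h3 := (summable_pow hd (r := 2 * α - δ) (by rw [hδ]; linarith)).mul_left (ε ^ 2)
    refine h3.congr fun z => ?_
    by_cases hz : z = 0
    · subst hz
      rw [h0, norm_zero, Real.zero_rpow (by rw [hδ]; linarith)]
      simp
    · have h4 : 0 < ‖z‖ := by linarith [one_le_norm hz]
      simp only [hκ]
      rw [mul_pow, ← Real.rpow_natCast (‖z‖ ^ (-α)) 2, ← Real.rpow_mul h4.le]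
      have h5 : ‖z‖ ^ δ * (ε ^ 2 * ‖z‖ ^ (-α * ((2 : ℕ) : ℝ))) =
          ε ^ 2 * (‖z‖ ^ δ * ‖z‖ ^ (-α * ((2 : ℕ) : ℝ))) := by ring
      rw [h5, ← Real.rpow_add h4]
      congr 2
      push_cast
      ring
  have hadm := Lap_adm κ h0 hsy (sq_summable_of h0 hδ0 hs)
  refine sharp hadm Lap_inv v hv hδ0 hs ?_
  have h6 : (fun z => |κ z|) = fun z : Fin d → ℤ => |ε| * ‖z‖ ^ (-α) := by
    funext z
    simp only [hκ]
    rw [abs_mul, abs_of_nonneg (Real.rpow_nonneg (norm_nonneg z) _)]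
  rw [h6]
  exact not_summable_pow hd hα h2 (abs_pos.2 hε)

end Pool.Agent.TH980.SH
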