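import Pool.Agent.TH980.SH.Shift

/-!
Flipping a far away sign changes an event only a little.
-/

set_option autoImplicit false

namespace Pool.Agent.TH980.SH

open Finset MeasureTheory ProbabilityTheory H10PL Filter Topology Pool.Agent.TH980.PL
open scoped symmDiff

variable {d : ℕ} {T0 : (Fin d → ℤ) → (Fin d → ℤ) → ℝ} {κ : (Fin d → ℤ) → ℝ} {ρ0 b : ℝ}

/-- measurable sets that depend on finitely many signs -/
def alg (d : ℕ) : Set (Set (Om d)) :=
  {A | MeasurableSet A ∧ ∃ J : Finset (Sym2 (Fin d → ℤ)), ∀ V s s', (∀ e ∈ J, s e = s' e) →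
    ((V, s) ∈ A ↔ (V, s') ∈ A)}

theorem alg_isSetAlgebra : IsSetAlgebra (alg d) where
  empty_mem := ⟨MeasurableSet.empty, ∅, fun _ _ _ _ => Iff.rfl⟩
  compl_mem := by
    rintro A ⟨h1, J, hJ⟩
    exact ⟨h1.compl, J, fun V s s' hs => not_congr (hJ V s s' hs)⟩
  union_mem := by
    classical
    rintro A B ⟨h1, J, hJ⟩ ⟨h2, J', hJ'⟩
    refine ⟨h1.union h2, J ∪ J', fun V s s' hs => ?_⟩
    exact or_congr (hJ V s s' fun e he => hs e (Finset.mem_union_left _ he))
      (hJ' V s s' fun e he => hs e (Finset.mem_union_right _ he))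

theorem alg_gen : (inferInstance : MeasurableSpace (Om d)) =
    MeasurableSpace.generateFrom (alg d) := by
  refine le_antisymm ?_ (MeasurableSpace.generateFrom_le fun A hA => hA.1)
  refine sup_le ?_ ?_
  · rintro _ ⟨B, hB, rfl⟩
    refine MeasurableSpace.measurableSet_generateFrom ⟨measurable_fst hB, ∅, ?_⟩
    intro V s s' _
    exact Iff.rfl
  · have h1 : @Measurable (Om d) (Sym2 (Fin d → ℤ) → Bool) (MeasurableSpace.generateFrom (alg d)) _
        Prod.snd := by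
      refine @measurable_pi_iff (Om d) _ _ (MeasurableSpace.generateFrom (alg d)) _ _ |>.2 fun e => ?_
      intro t ht
      refine MeasurableSpace.measurableSet_generateFrom ⟨?_, {e}, ?_⟩
      · exact ((measurable_pi_apply e).comp measurable_snd) ht
      · intro V s s' hs
        have := hs e (Finset.mem_singleton_self e)
        show s e ∈ t ↔ s' e ∈ t
        rw [this]
    exact h1.comap_le

/-- flipping signs -/
def flipO (T : Set (Sym2 (Fin d → ℤ))) [DecidablePred (· ∈ T)] (q : Om d) : Om d :=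
  (q.1, flipS T q.2)

theorem flipO_mp (v : NNReal) (T : Set (Sym2 (Fin d → ℤ))) [DecidablePred (· ∈ T)] :
    MeasurePreserving (flipO T) (MU d v) (MU d v) :=
  (MeasurePreserving.id (PV d v)).prod (flip_mp T)

theorem flip_small (v : NNReal) {A : Set (Om d)} (hA : MeasurableSet A) {ε : ℝ} (hε : 0 < ε) :
    ∃ J : Finset (Sym2 (Fin d → ℤ)), ∀ (T : Set (Sym2 (Fin d → ℤ))) [DecidablePred (· ∈ T)],
      (∀ e ∈ T, e ∉ J) → MU d v (A \ (flipO T ⁻¹' A)) ≤ ENNReal.ofReal ε := by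
  have hd := Measure.MeasureDense.of_generateFrom_isSetAlgebra_finite (μ := MU d v)
    (alg_isSetAlgebra (d := d)) alg_gen
  obtain ⟨C, ⟨hCm, J, hJ⟩, hC⟩ := hd.approx A hA (measure_ne_top _ _) (ε / 2) (by positivity)
  refine ⟨J, fun T _ hT => ?_⟩
  have hinv : flipO T ⁻¹' C = C := by
    ext ⟨V, s⟩
    refine hJ V (flipS T s) s fun e he => ?_
    unfold flipS
    rw [if_neg]
    intro h1
    exact hT e h1 he
  have h1 : A \ (flipO T ⁻¹' A) ⊆ (A ∆ C) ∪ flipO T ⁻¹' (A ∆ C) := by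
    intro q hq
    by_cases hqC : q ∈ C
    · right
      have : q ∈ flipO T ⁻¹' C := by rw [hinv]; exact hqC
      exact Or.inr ⟨this, hq.2⟩
    · exact Or.inl (Or.inl ⟨hq.1, hqC⟩)
  have h2 : MeasurableSet (A ∆ C) := hA.symmDiff hCm
  calc MU d v (A \ (flipO T ⁻¹' A)) ≤ MU d v (A ∆ C) + MU d v (flipO T ⁻¹' (A ∆ C)) :=
        (measure_mono h1).trans (measure_union_le _ _)
    _ = MU d v (A ∆ C) + MU d v (A ∆ C) := by
        rw [(flipO_mp v T).measure_preimage h2.nullMeasurableSet]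
    _ ≤ ENNReal.ofReal (ε / 2) + ENNReal.ofReal (ε / 2) := add_le_add hC.le hC.le
    _ = ENNReal.ofReal ε := by
        rw [← ENNReal.ofReal_add (by positivity) (by positivity)]
        congr 1
        ring

theorem ap_zero (E : ℝ) (s : Sym2 (Fin d → ℤ) → Bool) (V : (Fin d → ℤ) → ℝ)
    (φ : (Fin d → ℤ) → ℝ) (h : ∀ y, φ y = 0) (y : Fin d → ℤ) : ap T0 κ E s V φ y = 0 := by
  unfold ap
  simp [h]

theorem step_flip (h : Adm T0 κ ρ0 b) {E : ℝ} {q : Om d} (hU : ∀ F, UQ T0 κ E q.2 q.1 F)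
    (z : Fin d → ℤ) (hz : z ≠ 0) (hκ : κ z ≠ 0) [DecidablePred (· ∈ ET ({z} : Finset (Fin d → ℤ)))]
    (h1 : q ∈ GG T0 κ E 0) (h2 : flipO (ET {z}) q ∈ GG T0 κ E 0) : q ∈ GG T0 κ E z := by
  classical
  obtain ⟨φ, hφ⟩ := mem_GG.1 h1
  obtain ⟨φ', hφ'⟩ := mem_GG.1 h2
  have hc := hφ.ne (hU ∅)
  obtain ⟨a1, a2, a3, a4⟩ := hφ
  obtain ⟨b1, b2, b3, b4⟩ := hφ'
  set a : ℝ := 2 * sg (q.2 s(0, z)) * κ z with ha
  have ha0 : a ≠ 0 := by
    rw [ha]
    refine mul_ne_zero (mul_ne_zero two_ne_zero ?_) hκ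
    intro h0
    have := sg_sq (q.2 s(0, z))
    rw [h0] at this
    norm_num at this
  have e1 : ∀ y, y ≠ 0 → ap T0 κ E q.2 q.1 φ' y = if y = z then a else 0 := by
    intro y hy
    have h3 := b4 y (Finset.notMem_empty _) hy
    have h4 := ap_flip h (E := E) (s := q.2) (V := q.1) b1 {z} y hy
    have h5 : ap T0 κ E (flipO (ET {z}) q).2 (flipO (ET {z}) q).1 φ' y =
        ap T0 κ E (flipS (ET {z}) q.2) q.1 φ' y := rfl
    rw [h5, h4, b2] at h3
    by_cases hyz : y = z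
    · subst hyz
      rw [if_pos (Finset.mem_singleton_self _)] at h3
      rw [if_pos rfl, ha]
      linarith
    · rw [if_neg (by simpa using hyz)] at h3
      rw [if_neg hyz]
      linarith
  set c := ap T0 κ E q.2 q.1 φ 0 with hcdef
  set lam := ap T0 κ E q.2 q.1 φ' 0 / c with hlam
  set ψ : (Fin d → ℤ) → ℝ := fun y => 1 * φ' y + (-lam) * φ y with hψ
  have hψ2 : L2 ψ := b1.lin a1 1 (-lam)
  have e2 : ∀ y, ap T0 κ E q.2 q.1 ψ y = if y = z then a else 0 := by
    intro y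
    rw [hψ, ap_lin h b1 a1]
    by_cases hy : y = 0
    · subst hy
      rw [if_neg (fun h0 => hz h0.symm), hlam, ← hcdef]
      field_simp
      ring
    · rw [e1 y hy, a4 y (Finset.notMem_empty _) hy]
      ring
  have hψz : ψ z ≠ 0 := by
    intro h0
    have h3 := hU {z} ψ hψ2 (fun y hy => by
      rw [Finset.mem_singleton.1 hy]
      exact h0) (fun y hy => by
      rw [e2, if_neg (by simpa using hy)])
    have h4 := ap_zero (T0 := T0) (κ := κ) E q.2 q.1 ψ h3 z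
    rw [e2, if_pos rfl] at h4
    exact ha0 h4
  refine mem_GG.2 ⟨fun y => (ψ z)⁻¹ * ψ y, hψ2.smul _, inv_mul_cancel₀ hψz, ?_, ?_⟩
  · intro y hy
    exact absurd hy (Finset.notMem_empty _)
  · intro y _ hy
    rw [ap_smul, e2, if_neg hy, mul_zero]

/-- the events at the origin and at a far away site almost agree -/
theorem GG_near (h : Adm T0 κ ρ0 b) (v : NNReal) (hv : v ≠ 0)
    (hc : ∀ᵐ s ∂(Ps d), CutOK T0 κ s) (E : ℝ) {ε : ℝ} (hε : 0 < ε) :
    ∃ Fr : Finset (Fin d → ℤ), ∀ z, z ∉ Fr → κ z ≠ 0 →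
      MU d v (GG T0 κ E 0 \ GG T0 κ E z) ≤ ENNReal.ofReal ε := by
  classical
  obtain ⟨J, hJ⟩ := flip_small v (GG_meas h E 0) hε
  have hfin : {z : Fin d → ℤ | s(0, z) ∈ J}.Finite := by
    refine Set.Finite.preimage (f := fun z : Fin d → ℤ => s(0, z)) ?_ J.finite_toSet
    intro z _ z' _ hzz
    simp only at hzz
    rw [Sym2.eq_iff] at hzz
    rcases hzz with ⟨_, h1⟩ | ⟨h1, h2⟩
    · exact h1
    · rw [h2, ← h1]
  refine ⟨insert 0 hfin.toFinset, fun z hz hκ => ?_⟩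
  rw [Finset.mem_insert, not_or, Set.Finite.mem_toFinset] at hz
  have h1 := hJ (ET {z}) (by
    rintro e ⟨w, hw, rfl⟩
    rw [Finset.mem_singleton.1 hw]
    exact hz.2)
  refine le_trans (measure_mono_ae ?_) h1
  filter_upwards [uq_ae h v hv hc E] with q hU hq
  exact ⟨hq.1, fun h2 => hq.2 (step_flip h hU z hz.1 hκ hq.1 h2)⟩

end Pool.Agent.TH980.SH
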