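import Pool.Agent.TH980.SH.Spec

/-!
Main theorem and its power law instance, with the full spectrum.
-/

set_option autoImplicit false

namespace Pool.Agent.TH980.SH

open Finset MeasureTheory ProbabilityTheory H10PL Filter Topology Pool.Agent.TH980.PL

variable {d : ℕ} {T0 : (Fin d → ℤ) → (Fin d → ℤ) → ℝ} {κ : (Fin d → ℤ) → ℝ} {ρ0 b : ℝ}

theorem main_sharp (h : Adm T0 κ ρ0 b) (hT : ∀ a y w, T0 (y + a) (w + a) = T0 y w)
    (v : NNReal) (hv : v ≠ 0) {δ : ℝ} (hδ : 0 < δ)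
    (hs : Summable fun z : Fin d → ℤ => ‖z‖ ^ δ * κ z ^ 2)
    (hns : ¬ Summable fun z => |κ z|) :
    ∀ᵐ q ∂((PV d v).prod (Ps d)), NoSol T0 κ q.2 q.1 ∧ FullSpec T0 κ q.2 q.1 := by
  have hc := cut_ae h (lt_min hδ two_pos) (min_le_right _ _) (summable_min h.κ0 hs)
  exact (sharp h hT v hv hδ hs hns).and (full_spec h hT v hv hc hns)

/-- the hypotheses hold for power laws up to the critical exponent -/
theorem power_hyp (hd : 0 < d) (α ε : ℝ) (h1 : (d : ℝ) / 2 < α) (h2 : α ≤ d) (hε : ε ≠ 0) :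
    Adm (Lap d) (fun z => ε * ‖z‖ ^ (-α)) 1
      ((ball_finite (0 : Fin d → ℤ) 1).toFinset.card : ℝ) ∧
    (Summable fun z : Fin d → ℤ => ‖z‖ ^ ((2 * α - d) / 2) * (ε * ‖z‖ ^ (-α)) ^ 2) ∧
    ¬ Summable fun z : Fin d → ℤ => |ε * ‖z‖ ^ (-α)| := by
  have hd' : (0 : ℝ) < d := by exact_mod_cast hd
  have hα : 0 < α := by linarith [half_pos hd']
  set κ : (Fin d → ℤ) → ℝ := fun z => ε * ‖z‖ ^ (-α) with hκ
  have h0 : κ 0 = 0 := by
    simp only [hκ, norm_zero]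
    rw [Real.zero_rpow (by linarith), mul_zero]
  have hsy : ∀ z, κ (-z) = κ z := fun z => by simp only [hκ, norm_neg]
  set δ : ℝ := (2 * α - d) / 2 with hδ
  have hδ0 : 0 < δ := by rw [hδ]; linarith
  have hs : Summable fun z : Fin d → ℤ => ‖z‖ ^ δ * κ z ^ 2 := by
    have h3 := (summable_pow hd (r := 2 * α - δ) (by rw [hδ]; linarith)).mul_left (ε ^ 2)
    refine h3.congr fun z => ?_
    by_cases hz : z = 0
    · subst hz
      rw [h0, norm_zero, Real.zero_rpow (by rw [hδ]; linarith)]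
      simp
    · have h4 : 0 < ‖z‖ := by linarith [one_le_norm hz]
      simp only [hκ]
      rw [mul_pow, ← Real.rpow_natCast (‖z‖ ^ (-α)) 2, ← Real.rpow_mul h4.le]
      have h5 : ‖z‖ ^ δ * (ε ^ 2 * ‖z‖ ^ (-α * ((2 : ℕ) : ℝ))) =
          ε ^ 2 * (‖z‖ ^ δ * ‖z‖ ^ (-α * ((2 : ℕ) : ℝ))) := by ring
      rw [h5, ← Real.rpow_add h4]
      congr 2
      push_cast
      ring
  refine ⟨Lap_adm κ h0 hsy (sq_summable_of h0 hδ0 hs), hs, ?_⟩
  have h6 : (fun z => |κ z|) = fun z : Fin d → ℤ => |ε| * ‖z‖ ^ (-α) := by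
    funext z
    simp only [hκ]
    rw [abs_mul, abs_of_nonneg (Real.rpow_nonneg (norm_nonneg z) _)]
  have h7 : (fun z : Fin d → ℤ => |ε * ‖z‖ ^ (-α)|) = fun z => |κ z| := rfl
  rw [h7, h6]
  exact not_summable_pow hd hα h2 (abs_pos.2 hε)

theorem power_main (hd : 0 < d) (v : NNReal) (hv : v ≠ 0) (α ε : ℝ) (h1 : (d : ℝ) / 2 < α)
    (h2 : α ≤ d) (hε : ε ≠ 0) :
    ∀ᵐ q ∂((PV d v).prod (Ps d)), NoSol (Lap d) (fun z => ε * ‖z‖ ^ (-α)) q.2 q.1 ∧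
      FullSpec (Lap d) (fun z => ε * ‖z‖ ^ (-α)) q.2 q.1 := by
  obtain ⟨g1, g2, g3⟩ := power_hyp hd α ε h1 h2 hε
  exact main_sharp g1 Lap_inv v hv (by linarith) g2 g3

end Pool.Agent.TH980.SH
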