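import Pool.Agent.TH980.SH.Pairs

/-!
Second moment method: many resonances with probability bounded below.
-/

set_option autoImplicit false

namespace Pool.Agent.TH980.SH

open Finset MeasureTheory ProbabilityTheory H10PL Filter Topology Pool.Agent.TH980.PL

section general

variable {Ω ι : Type*} [MeasurableSpace Ω]

theorem pz (P : Measure Ω) [IsProbabilityMeasure P] (S : Finset ι) (A : ι → Set Ω)
    (hA : ∀ i, MeasurableSet (A i)) {a c : ℝ} (ha : 0 < a) (h1 : a ≤ ∑ i ∈ S, P.real (A i))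
    (h2 : ∑ i ∈ S, ∑ j ∈ S, P.real (A i ∩ A j) ≤ c) :
    a ^ 2 ≤ 4 * c * P.real {ω | a / 2 ≤ ∑ i ∈ S, (A i).indicator (fun _ => (1 : ℝ)) ω} := by
  classical
  set N : Ω → ℝ := fun ω => ∑ i ∈ S, (A i).indicator (fun _ => (1 : ℝ)) ω with hN
  have hint : ∀ {B : Set Ω}, MeasurableSet B → Integrable (B.indicator fun _ => (1 : ℝ)) P :=
    fun hB => (integrable_const (1 : ℝ)).indicator hB
  have hreal : ∀ {B : Set Ω}, MeasurableSet B → ∫ ω, B.indicator (fun _ => (1 : ℝ)) ω ∂P =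
      P.real B := by
    intro B hB
    rw [integral_indicator hB]
    simp
  have hNm : Measurable N := Finset.measurable_sum _ fun i _ => measurable_const.indicator (hA i)
  have hNi : Integrable N P := integrable_finsetSum _ fun i _ => hint (hA i)
  have e1 : ∫ ω, N ω ∂P = ∑ i ∈ S, P.real (A i) := by
    rw [integral_finsetSum _ fun i _ => hint (hA i)]
    exact Finset.sum_congr rfl fun i _ => hreal (hA i)
  have hN2 : ∀ ω, N ω ^ 2 = ∑ i ∈ S, ∑ j ∈ S, (A i ∩ A j).indicator (fun _ => (1 : ℝ)) ω := by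
    intro ω
    rw [sq, hN, Finset.sum_mul_sum]
    refine Finset.sum_congr rfl fun i _ => Finset.sum_congr rfl fun j _ => ?_
    by_cases hi : ω ∈ A i
    · by_cases hj : ω ∈ A j
      · have hij : ω ∈ A i ∩ A j := ⟨hi, hj⟩
        rw [Set.indicator_of_mem hi, Set.indicator_of_mem hj, Set.indicator_of_mem hij]
        ring
      · have hij : ω ∉ A i ∩ A j := fun h => hj h.2
        rw [Set.indicator_of_notMem hj, Set.indicator_of_notMem hij]
        ring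
    · have hij : ω ∉ A i ∩ A j := fun h => hi h.1
      rw [Set.indicator_of_notMem hi, Set.indicator_of_notMem hij]
      ring
  have e2 : ∫ ω, N ω ^ 2 ∂P = ∑ i ∈ S, ∑ j ∈ S, P.real (A i ∩ A j) := by
    rw [integral_congr_ae (Eventually.of_forall hN2),
      integral_finsetSum _ fun i _ => integrable_finsetSum _ fun j _ => hint ((hA i).inter (hA j))]
    refine Finset.sum_congr rfl fun i _ => ?_
    rw [integral_finsetSum _ fun j _ => hint ((hA i).inter (hA j))]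
    exact Finset.sum_congr rfl fun j _ => hreal ((hA i).inter (hA j))
  have hN2i : Integrable (fun ω => N ω ^ 2) P := by
    have : (fun ω => N ω ^ 2) = fun ω =>
        ∑ i ∈ S, ∑ j ∈ S, (A i ∩ A j).indicator (fun _ => (1 : ℝ)) ω := funext hN2
    rw [this]
    exact integrable_finsetSum _ fun i _ => integrable_finsetSum _ fun j _ =>
      hint ((hA i).inter (hA j))
  set B : Set Ω := {ω | a / 2 ≤ N ω} with hB
  have hBm : MeasurableSet B := measurableSet_le measurable_const hNm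
  have hc : 0 < c := by
    have h3 : ∑ i ∈ S, P.real (A i) ≤ ∑ i ∈ S, ∑ j ∈ S, P.real (A i ∩ A j) := by
      refine Finset.sum_le_sum fun i hi => ?_
      have h4 : P.real (A i) = P.real (A i ∩ A i) := by rw [Set.inter_self]
      rw [h4]
      exact Finset.single_le_sum (f := fun j => P.real (A i ∩ A j))
        (fun j _ => measureReal_nonneg) hi
    linarith
  set lam : ℝ := 2 * c / a with hlam
  have hlam0 : 0 < lam := by positivity
  have hpt : ∀ ω, N ω ≤ a / 2 + (N ω ^ 2 / (2 * lam) +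
      lam / 2 * B.indicator (fun _ => (1 : ℝ)) ω) := by
    intro ω
    by_cases hω : ω ∈ B
    · rw [Set.indicator_of_mem hω]
      have h5 : N ω ≤ N ω ^ 2 / (2 * lam) + lam / 2 * 1 := by
        have h6 : N ω ^ 2 / (2 * lam) + lam / 2 * 1 - N ω = (N ω - lam) ^ 2 / (2 * lam) := by
          field_simp
          ring
        have h7 : 0 ≤ (N ω - lam) ^ 2 / (2 * lam) := by positivity
        linarith
      linarith
    · rw [Set.indicator_of_notMem hω]
      have h5 : N ω < a / 2 := not_le.1 hω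
      have h6 : 0 ≤ N ω ^ 2 / (2 * lam) := by positivity
      linarith
  have h3 : ∫ ω, N ω ∂P ≤ ∫ ω, (a / 2 + (N ω ^ 2 / (2 * lam) +
      lam / 2 * B.indicator (fun _ => (1 : ℝ)) ω)) ∂P := by
    refine integral_mono hNi ?_ hpt
    exact (integrable_const _).add ((hN2i.div_const _).add ((hint hBm).const_mul _))
  have e3 : ∫ ω, (a / 2 + (N ω ^ 2 / (2 * lam) +
      lam / 2 * B.indicator (fun _ => (1 : ℝ)) ω)) ∂P =
      a / 2 + ((∑ i ∈ S, ∑ j ∈ S, P.real (A i ∩ A j)) / (2 * lam) + lam / 2 * P.real B) := by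
    have i1 : Integrable (fun ω => N ω ^ 2 / (2 * lam)) P := hN2i.div_const _
    have i2 : Integrable (fun ω => lam / 2 * B.indicator (fun _ => (1 : ℝ)) ω) P :=
      (hint hBm).const_mul _
    have i3 : Integrable (fun ω => N ω ^ 2 / (2 * lam) +
        lam / 2 * B.indicator (fun _ => (1 : ℝ)) ω) P := i1.add i2
    have i4 : ∫ ω, N ω ^ 2 / (2 * lam) ∂P = (∫ ω, N ω ^ 2 ∂P) / (2 * lam) := integral_div _ _
    rw [integral_add (integrable_const _) i3, integral_add i1 i2, i4, e2,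
      integral_const_mul, hreal hBm]
    simp
  rw [e1, e3] at h3
  have h4 : (∑ i ∈ S, ∑ j ∈ S, P.real (A i ∩ A j)) / (2 * lam) ≤ c / (2 * lam) :=
    div_le_div_of_nonneg_right h2 (by positivity)
  have h5 : c / (2 * lam) = a / 4 := by
    rw [hlam]
    field_simp
    ring
  have h6 : a / 4 ≤ lam / 2 * P.real B := by linarith
  have h7 : lam / 2 * P.real B = c * P.real B / a := by
    rw [hlam]
    field_simp
  rw [h7, le_div_iff₀ ha] at h6
  show a ^ 2 ≤ 4 * c * P.real B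
  nlinarith

end general

variable {d : ℕ} {T0 : (Fin d → ℤ) → (Fin d → ℤ) → ℝ} {κ : (Fin d → ℤ) → ℝ} {ρ0 b : ℝ}

/-- the resonance event at `z` -/
def ZZ (T0 : (Fin d → ℤ) → (Fin d → ℤ) → ℝ) (κ : (Fin d → ℤ) → ℝ) (E M : ℝ)
    (z : Fin d → ℤ) : Set (Om d) := EvE T0 κ E {0} z M (CZ d |κ z|)

theorem ZZ_meas (h : Adm T0 κ ρ0 b) (E M : ℝ) (z : Fin d → ℤ) :
    MeasurableSet (ZZ T0 κ E M z) := evE_meas h E _ z M _ (CZ_closed _)

theorem second_moment (h : Adm T0 κ ρ0 b) (v : NNReal) (hv : v ≠ 0)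
    (hc : ∀ᵐ s ∂(Ps d), CutOK T0 κ s) (E : ℝ) {M : ℝ} (hM : 0 ≤ M) (S : Finset (Fin d → ℤ))
    (hS0 : (0 : Fin d → ℤ) ∉ S) (hK : 1 ≤ ∑ z ∈ S, |κ z|) :
    ∑ z ∈ S, ∑ z' ∈ S, (MU d v).real ((ZZ T0 κ E M z ∩ GG T0 κ E 0) ∩
      (ZZ T0 κ E M z' ∩ GG T0 κ E 0)) ≤
      (gaussianPDFReal 0 v 0 * 2 + 16 * M * gaussianPDFReal 0 v 0 +
        64 / 9 * gaussianPDFReal 0 v 0 ^ 2) * (∑ z ∈ S, |κ z|) ^ 2 := by
  classical
  set G := gaussianPDFReal 0 v 0 with hG
  have hG0 : 0 ≤ G := gaussianPDFReal_nonneg 0 v 0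
  set K := ∑ z ∈ S, |κ z| with hKd
  have hone : ∀ z, (MU d v).real (ZZ T0 κ E M z) ≤ G * (2 * |κ z|) := fun z =>
    one_upper h v hv hc E z (abs_nonneg _)
  set hy : (Fin d → ℤ) → (Fin d → ℤ) → ℝ := fun z z' =>
    (MU d v).real (EvE T0 κ E {0} z M (CO d z' ∩ CZ d |κ z|)) with hhy
  have hhy0 : ∀ z z', 0 ≤ hy z z' := fun z z' => measureReal_nonneg
  have hpair : ∀ z ∈ S, ∀ z' ∈ S, (MU d v).real ((ZZ T0 κ E M z ∩ GG T0 κ E 0) ∩
      (ZZ T0 κ E M z' ∩ GG T0 κ E 0)) ≤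
      (if z = z' then G * (2 * |κ z|) else 0) + (hy z z' + hy z' z +
        64 / 9 * G ^ 2 * (|κ z| * |κ z'|)) := by
    intro z hz z' hz'
    by_cases hzz : z = z'
    · subst hzz
      rw [if_pos rfl]
      have h1 : (MU d v).real ((ZZ T0 κ E M z ∩ GG T0 κ E 0) ∩
          (ZZ T0 κ E M z ∩ GG T0 κ E 0)) ≤ (MU d v).real (ZZ T0 κ E M z) :=
        measureReal_mono fun q hq => hq.1.1
      have h2 := hone z
      have h3 := hhy0 z z
      have h4 : 0 ≤ 64 / 9 * G ^ 2 * (|κ z| * |κ z|) := by positivity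
      linarith
    · rw [if_neg hzz, zero_add]
      have hz0 : z ≠ 0 := fun h0 => hS0 (h0 ▸ hz)
      have hz0' : z' ≠ 0 := fun h0 => hS0 (h0 ▸ hz')
      have hsub : (ZZ T0 κ E M z ∩ GG T0 κ E 0) ∩ (ZZ T0 κ E M z' ∩ GG T0 κ E 0) ⊆
          (EvE T0 κ E {0} z M (CO d z' ∩ CZ d |κ z|) ∪
            EvE T0 κ E {0} z' M (CO d z ∩ CZ d |κ z'|)) ∪ NH T0 κ E M z z' |κ z| |κ z'| := by
        intro q hq
        by_cases hq2 : q ∈ EvE T0 κ E {0} z M (CO d z' ∩ CZ d |κ z|) ∪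
            EvE T0 κ E {0} z' M (CO d z ∩ CZ d |κ z'|)
        · exact Or.inl hq2
        · exact Or.inr ⟨⟨hq.1.1, hq.2.1⟩, hq2⟩
      have h1 := measureReal_mono (μ := MU d v) hsub
      have h2 := measureReal_union_le (μ := MU d v)
        (EvE T0 κ E {0} z M (CO d z' ∩ CZ d |κ z|) ∪
            EvE T0 κ E {0} z' M (CO d z ∩ CZ d |κ z'|)) (NH T0 κ E M z z' |κ z| |κ z'|)
      have h3 := measureReal_union_le (μ := MU d v)
        (EvE T0 κ E {0} z M (CO d z' ∩ CZ d |κ z|))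
        (EvE T0 κ E {0} z' M (CO d z ∩ CZ d |κ z'|))
      have h4 := pair_upper (M := M) h v hv hc E hzz hz0 hz0' (abs_nonneg (κ z))
        (abs_nonneg (κ z'))
      have h5 : (G * (8 / 3 * |κ z|)) * (G * (8 / 3 * |κ z'|)) =
          64 / 9 * G ^ 2 * (|κ z| * |κ z'|) := by ring
      rw [← hG, h5] at h4
      simp only [hhy]
      linarith
  have hyb : ∀ z, ∑ z' ∈ S, hy z z' ≤ 4 * M * (G * (2 * |κ z|)) := by
    intro z
    have h1 := sum_O h v hv hc E {0} z M (CZ d |κ z|) (CZ_closed _) hM S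
    refine h1.trans ?_
    exact mul_le_mul_of_nonneg_left (hone z) (by positivity)
  calc ∑ z ∈ S, ∑ z' ∈ S, (MU d v).real ((ZZ T0 κ E M z ∩ GG T0 κ E 0) ∩
      (ZZ T0 κ E M z' ∩ GG T0 κ E 0))
      ≤ ∑ z ∈ S, ∑ z' ∈ S, ((if z = z' then G * (2 * |κ z|) else 0) + (hy z z' + hy z' z +
        64 / 9 * G ^ 2 * (|κ z| * |κ z'|))) :=
        Finset.sum_le_sum fun z hz => Finset.sum_le_sum fun z' hz' => hpair z hz z' hz'
    _ = ∑ z ∈ S, ∑ z' ∈ S, (if z = z' then G * (2 * |κ z|) else 0) +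
        (∑ z ∈ S, ∑ z' ∈ S, hy z z' + ∑ z ∈ S, ∑ z' ∈ S, hy z' z +
          ∑ z ∈ S, ∑ z' ∈ S, 64 / 9 * G ^ 2 * (|κ z| * |κ z'|)) := by
        simp only [Finset.sum_add_distrib]
    _ ≤ G * 2 * K + (4 * M * (G * 2) * K + 4 * M * (G * 2) * K + 64 / 9 * G ^ 2 * K ^ 2) := by
        have t1 : ∑ z ∈ S, ∑ z' ∈ S, (if z = z' then G * (2 * |κ z|) else 0) = G * 2 * K := by
          rw [hKd, Finset.mul_sum]
          refine Finset.sum_congr rfl fun z hz => ?_
          rw [Finset.sum_ite_eq, if_pos hz]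
          ring
        have t2 : ∑ z ∈ S, ∑ z' ∈ S, hy z z' ≤ 4 * M * (G * 2) * K := by
          rw [hKd, Finset.mul_sum]
          refine Finset.sum_le_sum fun z _ => (hyb z).trans (le_of_eq ?_)
          ring
        have t3 : ∑ z ∈ S, ∑ z' ∈ S, hy z' z ≤ 4 * M * (G * 2) * K := by
          rw [Finset.sum_comm]
          exact t2
        have t4 : ∑ z ∈ S, ∑ z' ∈ S, 64 / 9 * G ^ 2 * (|κ z| * |κ z'|) =
            64 / 9 * G ^ 2 * K ^ 2 := by
          rw [sq K, hKd, Finset.sum_mul_sum, Finset.mul_sum]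
          refine Finset.sum_congr rfl fun z _ => ?_
          rw [Finset.mul_sum]
        rw [t1, t4]
        linarith
    _ ≤ (G * 2 + 16 * M * G + 64 / 9 * G ^ 2) * K ^ 2 := by
        have t5 : K ≤ K ^ 2 := by nlinarith
        have t6 : 0 ≤ G * 2 + 16 * M * G := by positivity
        have t7 := mul_le_mul_of_nonneg_left t5 t6
        nlinarith

theorem big_set (hns : ¬ Summable fun z => |κ z|) (Fr : Finset (Fin d → ℤ)) (R : ℝ) :
    ∃ S : Finset (Fin d → ℤ), (∀ z ∈ S, z ∉ Fr ∧ κ z ≠ 0) ∧ R ≤ ∑ z ∈ S, |κ z| := by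
  classical
  by_contra hcon
  push Not at hcon
  apply hns
  refine summable_of_sum_le (c := R + ∑ z ∈ Fr, |κ z|) (fun z => abs_nonneg _) fun F => ?_
  have h1 := hcon (F.filter fun z => z ∉ Fr ∧ κ z ≠ 0) (fun z hz => (Finset.mem_filter.1 hz).2)
  have h2 : ∑ z ∈ F, |κ z| ≤ ∑ z ∈ F.filter (fun z => z ∉ Fr ∧ κ z ≠ 0), |κ z| +
      ∑ z ∈ Fr, |κ z| := by
    rw [← Finset.sum_filter_add_sum_filter_not F (fun z => z ∉ Fr ∧ κ z ≠ 0)]
    refine add_le_add le_rfl ?_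
    have h3 : ∑ z ∈ F.filter (fun z => ¬ (z ∉ Fr ∧ κ z ≠ 0)), |κ z| =
        ∑ z ∈ (F.filter (fun z => ¬ (z ∉ Fr ∧ κ z ≠ 0))).filter (· ∈ Fr), |κ z| := by
      refine (Finset.sum_filter_of_ne fun z hz hne => ?_).symm
      have h4 := (Finset.mem_filter.1 hz).2
      by_contra h5
      exact h4 ⟨h5, fun h6 => hne (by rw [h6, abs_zero])⟩
    rw [h3]
    refine Finset.sum_le_sum_of_subset_of_nonneg (fun z hz => (Finset.mem_filter.1 hz).2)
      fun z _ _ => abs_nonneg _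
  linarith

/-- **Many resonances.** -/
theorem many_res (h : Adm T0 κ ρ0 b) (hT : ∀ a y w, T0 (y + a) (w + a) = T0 y w)
    (v : NNReal) (hv : v ≠ 0) (hc : ∀ᵐ s ∂(Ps d), CutOK T0 κ s)
    (hns : ¬ Summable fun z => |κ z|) (E : ℝ)
    (hp : 0 < (MU d v).real (GG T0 κ E 0)) :
    ∃ (M c : ℝ), 0 < c ∧ ∀ L : ℝ, ∃ S : Finset (Fin d → ℤ), (0 : Fin d → ℤ) ∉ S ∧
      (∀ z ∈ S, κ z ≠ 0) ∧ c ≤ (MU d v).real {q | L ≤ ∑ z ∈ S,
        (ZZ T0 κ E M z ∩ GG T0 κ E 0).indicator (fun _ => (1 : ℝ)) q} := by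
  classical
  obtain ⟨n, Fr, hFr0, hFr⟩ := const_lower h hT v hv hc E hp
  obtain ⟨Kb, hKb, hκb⟩ := κ_bdd h
  set p := (MU d v).real (GG T0 κ E 0) with hpd
  set M : ℝ := 4 * n with hM
  have hM0 : 0 ≤ M := by positivity
  set g := gaussianPDFReal 0 v (3 * n + Kb) with hg
  have hg0 : 0 < g := gaussianPDFReal_pos 0 v _ hv
  set G := gaussianPDFReal 0 v 0 with hG
  have hG0 : 0 < G := gaussianPDFReal_pos 0 v _ hv
  set C := G * 2 + 16 * M * G + 64 / 9 * G ^ 2 with hC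
  have hC0 : 0 < C := by positivity
  set c0 := g * p with hc0
  have hc00 : 0 < c0 := by positivity
  refine ⟨M, c0 ^ 2 / (4 * C), by positivity, fun L => ?_⟩
  obtain ⟨S, hS1, hS2⟩ := big_set hns Fr (max 1 (2 * L / c0))
  set K := ∑ z ∈ S, |κ z| with hK
  have hK1 : 1 ≤ K := (le_max_left _ _).trans hS2
  have hK2 : 2 * L / c0 ≤ K := (le_max_right _ _).trans hS2
  have hS0 : (0 : Fin d → ℤ) ∉ S := fun h0 => (hS1 0 h0).1 hFr0
  refine ⟨S, hS0, fun z hz => (hS1 z hz).2, ?_⟩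
  have hlow : ∀ z ∈ S, c0 * |κ z| ≤ (MU d v).real (ZZ T0 κ E M z ∩ GG T0 κ E 0) := by
    intro z hz
    have hz0 : z ≠ 0 := fun h0 => hS0 (h0 ▸ hz)
    have h1 := one_lower (M := M) (W := 3 * n) (K := Kb) (k := |κ z|) h v hv E hz0
      (abs_nonneg _) (hκb z)
    have h2 := hFr z (hS1 z hz).1 (hS1 z hz).2
    refine le_trans ?_ h1
    have h3 : c0 * |κ z| = g * (2 * |κ z|) * (p / 2) := by rw [hc0]; ring
    rw [h3]
    exact mul_le_mul_of_nonneg_left h2 (by positivity)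
  have ha : 0 < c0 * K := by positivity
  have h1 := pz (MU d v) S (fun z => ZZ T0 κ E M z ∩ GG T0 κ E 0)
    (fun z => (ZZ_meas h E M z).inter (GG_meas h E 0)) (a := c0 * K) (c := C * K ^ 2) ha
    (by
      rw [hK, Finset.mul_sum]
      exact Finset.sum_le_sum hlow)
    (second_moment h v hv hc E hM0 S hS0 hK1)
  have hsub : {q : Om d | c0 * K / 2 ≤ ∑ z ∈ S,
        (ZZ T0 κ E M z ∩ GG T0 κ E 0).indicator (fun _ => (1 : ℝ)) q} ⊆
      {q | L ≤ ∑ z ∈ S, (ZZ T0 κ E M z ∩ GG T0 κ E 0).indicator (fun _ => (1 : ℝ)) q} := by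
    intro q hq
    have hq' : c0 * K / 2 ≤ ∑ z ∈ S,
        (ZZ T0 κ E M z ∩ GG T0 κ E 0).indicator (fun _ => (1 : ℝ)) q := hq
    rw [div_le_iff₀ hc00] at hK2
    show L ≤ ∑ z ∈ S, (ZZ T0 κ E M z ∩ GG T0 κ E 0).indicator (fun _ => (1 : ℝ)) q
    linarith
  have h2 := measureReal_mono (μ := MU d v) hsub
  refine le_trans ?_ h2
  rw [div_le_iff₀ (by positivity)]
  have hKpos : 0 < K ^ 2 := by positivity
  have h3 : (c0 ^ 2) * K ^ 2 ≤ ((MU d v).real {q | c0 * K / 2 ≤ ∑ z ∈ S,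
        (ZZ T0 κ E M z ∩ GG T0 κ E 0).indicator (fun _ => (1 : ℝ)) q} * (4 * C)) * K ^ 2 := by
    calc c0 ^ 2 * K ^ 2 = (c0 * K) ^ 2 := by ring
      _ ≤ _ := h1
      _ = _ := by ring
  exact le_of_mul_le_mul_right h3 hKpos

end Pool.Agent.TH980.SH
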