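import Pool.Agent.TH980.SH.Const

/-!
Resonances: one point and two point bounds.
-/

set_option autoImplicit false

namespace Pool.Agent.TH980.SH

open Finset MeasureTheory ProbabilityTheory H10PL Filter Topology Pool.Agent.TH980.PL

variable {d : ℕ} {T0 : (Fin d → ℤ) → (Fin d → ℤ) → ℝ} {κ : (Fin d → ℤ) → ℝ} {ρ0 b : ℝ}

theorem gauss_upper (v : NNReal) (hv : v ≠ 0) (a c : ℝ) :
    gaussianReal 0 v (Set.Icc a c) ≤ ENNReal.ofReal (gaussianPDFReal 0 v 0 * (c - a)) := by
  rw [gaussianReal_apply 0 hv]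
  have h1 : ∀ x, gaussianPDF 0 v x ≤ ENNReal.ofReal (gaussianPDFReal 0 v 0) := by
    intro x
    unfold gaussianPDF
    refine ENNReal.ofReal_le_ofReal ?_
    simp only [gaussianPDFReal, sub_zero]
    refine mul_le_mul_of_nonneg_left ?_ (by positivity)
    rw [Real.exp_le_exp]
    have : 0 ≤ x ^ 2 / (2 * (v : ℝ)) := by positivity
    have h3 : -(0 : ℝ) ^ 2 / (2 * (v : ℝ)) = 0 := by simp
    rw [h3, neg_div]
    linarith
  calc ∫⁻ x in Set.Icc a c, gaussianPDF 0 v x ≤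
        ∫⁻ _x in Set.Icc a c, ENNReal.ofReal (gaussianPDFReal 0 v 0) := lintegral_mono h1
    _ = ENNReal.ofReal (gaussianPDFReal 0 v 0) * ENNReal.ofReal (c - a) := by
        rw [lintegral_const, Measure.restrict_apply MeasurableSet.univ, Set.univ_inter,
          Real.volume_Icc]
    _ = _ := (ENNReal.ofReal_mul (gaussianPDFReal_nonneg _ _ _)).symm

theorem gauss_lower (v : NNReal) (hv : v ≠ 0) (a c W : ℝ) (ha : -W ≤ a) (hc : c ≤ W) :
    ENNReal.ofReal (gaussianPDFReal 0 v W * (c - a)) ≤ gaussianReal 0 v (Set.Icc a c) := by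
  rw [gaussianReal_apply 0 hv]
  calc ENNReal.ofReal (gaussianPDFReal 0 v W * (c - a)) =
        ENNReal.ofReal (gaussianPDFReal 0 v W) * ENNReal.ofReal (c - a) :=
        ENNReal.ofReal_mul (gaussianPDFReal_nonneg _ _ _)
    _ = ∫⁻ _x in Set.Icc a c, ENNReal.ofReal (gaussianPDFReal 0 v W) := by
        rw [lintegral_const, Measure.restrict_apply MeasurableSet.univ, Set.univ_inter,
          Real.volume_Icc]
    _ ≤ ∫⁻ x in Set.Icc a c, gaussianPDF 0 v x := by
        refine setLIntegral_mono (measurable_gaussianPDF 0 v) fun x hx => ?_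
        unfold gaussianPDF
        exact ENNReal.ofReal_le_ofReal (H10PL.Mom.pdf_le v W x ⟨ha.trans hx.1, hx.2.trans hc⟩)

/-- the constraint `|r| ≤ k` -/
def CZ (d : ℕ) (k : ℝ) : Set ((ℝ × Om d) × (((Fin d → ℤ) → ℝ) × ℝ)) := {p | |p.2.2| ≤ k}

theorem CZ_closed (k : ℝ) : IsClosed (CZ d k) := isClosed_le cont_r.abs continuous_const

theorem ap_V {E : ℝ} {s : Sym2 (Fin d → ℤ) → Bool} (V V' φ : (Fin d → ℤ) → ℝ)
    (y : Fin d → ℤ) : ap T0 κ E s V' φ y = ap T0 κ E s V φ y + (V' y - V y) * φ y := by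
  unfold ap
  ring

theorem GF_congr {E : ℝ} {s : Sym2 (Fin d → ℤ) → Bool} {V V' : (Fin d → ℤ) → ℝ}
    {F : Finset (Fin d → ℤ)} {z : Fin d → ℤ} {φ : (Fin d → ℤ) → ℝ}
    (hV : ∀ y, y ∉ F → y ≠ z → V' y = V y) (hφ : GF T0 κ E s V' F z φ) : GF T0 κ E s V F z φ := by
  obtain ⟨a1, a2, a3, a4⟩ := hφ
  refine ⟨a1, a2, a3, fun y hy hyz => ?_⟩
  have h1 := a4 y hy hyz
  rw [ap_V V V' φ y, hV y hy hyz, sub_self, zero_mul, add_zero] at h1
  exact h1

/-- resampling at `z` creates a resonance -/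
theorem det_lower (h : Adm T0 κ ρ0 b) {E : ℝ} {q : Om d} {z : Fin d → ℤ} (hz : z ≠ 0) {M W : ℝ}
    (h1 : q ∈ GG T0 κ E 0) (h2 : q ∈ EvE T0 κ E {0} z M (CG d z W)) :
    ∃ m : ℝ, |m| ≤ W ∧ ∀ (k t : ℝ), |t - m| ≤ k → t ≠ m →
      upd z (q, t) ∈ EvE T0 κ E {0} z M (CZ d k) ∩ GG T0 κ E 0 := by
  obtain ⟨φ0, hφ0⟩ := mem_GG.1 h1
  obtain ⟨φ, hφ, hM, hW⟩ := h2
  refine ⟨q.1 z - ap T0 κ E q.2 q.1 φ z, hW, fun k t hk hne => ?_⟩
  set m := q.1 z - ap T0 κ E q.2 q.1 φ z with hm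
  have e1 : ap T0 κ E q.2 (Function.update q.1 z t) φ z = t - m := by
    rw [ap_upd, if_pos rfl, hφ.2.1, hm]
    ring
  constructor
  · refine ⟨φ, (GF_upd t).2 hφ, hM, ?_⟩
    show |ap T0 κ E q.2 (Function.update q.1 z t) φ z| ≤ k
    rw [e1]
    exact hk
  · obtain ⟨a1, a2, a3, a4⟩ := hφ0
    obtain ⟨b1, b2, b3, b4⟩ := hφ
    have htm : t - m ≠ 0 := sub_ne_zero.2 hne
    set lam := (t - q.1 z) * φ0 z / (t - m) with hlam
    refine mem_GG.2 ⟨fun y => 1 * φ0 y + (-lam) * φ y, a1.lin b1 _ _, ?_, ?_, ?_⟩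
    · have := b3 0 (Finset.mem_singleton_self 0)
      show 1 * φ0 0 + (-lam) * φ 0 = 1
      rw [a2, this]
      ring
    · intro y hy
      exact absurd hy (Finset.notMem_empty _)
    · intro y _ hy
      show ap T0 κ E q.2 (Function.update q.1 z t) (fun y => 1 * φ0 y + (-lam) * φ y) y = 0
      rw [ap_lin h a1 b1, ap_upd E q.2 q.1 φ0 z t y, a4 y (Finset.notMem_empty _) hy]
      by_cases hyz : y = z
      · subst hyz
        rw [e1, if_pos rfl, hlam]
        field_simp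
        ring
      · rw [ap_upd, if_neg hyz, if_neg hyz, b4 y (by simpa using hy) hyz]
        ring

theorem one_lower (h : Adm T0 κ ρ0 b) (v : NNReal) (hv : v ≠ 0) (E : ℝ) {z : Fin d → ℤ}
    (hz : z ≠ 0) {M W K k : ℝ} (hk : 0 ≤ k) (hkK : k ≤ K) :
    gaussianPDFReal 0 v (W + K) * (2 * k) *
      (MU d v).real (GG T0 κ E 0 ∩ EvE T0 κ E {0} z M (CG d z W)) ≤
      (MU d v).real (EvE T0 κ E {0} z M (CZ d k) ∩ GG T0 κ E 0) := by
  have : NullSingletonClass (gaussianReal 0 v) := nullSingletonClass_gaussianReal hv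
  have hg := gaussianPDFReal_nonneg 0 v (W + K)
  have h1 := resample_ge v z (A := GG T0 κ E 0 ∩ EvE T0 κ E {0} z M (CG d z W))
    (B := EvE T0 κ E {0} z M (CZ d k) ∩ GG T0 κ E 0)
    ((GG_meas h E 0).inter (evE_meas h E _ z M _ (CG_closed z W)))
    ((evE_meas h E _ z M _ (CZ_closed k)).inter (GG_meas h E 0))
    (ENNReal.ofReal (gaussianPDFReal 0 v (W + K) * (2 * k)))
    (Eventually.of_forall fun q hq => by
      obtain ⟨m, hm1, hm2⟩ := det_lower h hz hq.1 hq.2
      have h2 : Set.Icc (m - k) (m + k) \ {m} ⊆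
          {t | upd z (q, t) ∈ EvE T0 κ E {0} z M (CZ d k) ∩ GG T0 κ E 0} := by
        intro t ht
        refine hm2 k t ?_ ht.2
        rw [abs_le]
        constructor
        · linarith [ht.1.1]
        · linarith [ht.1.2]
      have h3 : gaussianReal 0 v (Set.Icc (m - k) (m + k) \ {m}) =
          gaussianReal 0 v (Set.Icc (m - k) (m + k)) :=
        measure_sdiff_null (measure_singleton m)
      refine le_trans ?_ (measure_mono h2)
      rw [h3]
      have h4 := gauss_lower v hv (m - k) (m + k) (W + K) (by linarith [(abs_le.1 hm1).1])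
        (by linarith [(abs_le.1 hm1).2])
      refine le_trans (le_of_eq ?_) h4
      congr 2
      ring)
  have h5 := ENNReal.toReal_mono (measure_ne_top _ _) h1
  rw [ENNReal.toReal_mul, ENNReal.toReal_ofReal (by positivity)] at h5
  exact h5

theorem one_upper (h : Adm T0 κ ρ0 b) (v : NNReal) (hv : v ≠ 0)
    (hc : ∀ᵐ s ∂(Ps d), CutOK T0 κ s) (E : ℝ) (z : Fin d → ℤ) {M k : ℝ} (hk : 0 ≤ k) :
    (MU d v).real (EvE T0 κ E {0} z M (CZ d k)) ≤ gaussianPDFReal 0 v 0 * (2 * k) := by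
  have hg := gaussianPDFReal_nonneg 0 v 0
  refine ENNReal.toReal_le_of_le_ofReal (by positivity) ?_
  refine resample_le v z (evE_meas h E _ z M _ (CZ_closed k)) _ ?_
  filter_upwards [uq_ae h v hv hc E] with q hU
  by_cases hne : {t | upd z (q, t) ∈ EvE T0 κ E {0} z M (CZ d k)}.Nonempty
  · obtain ⟨t0, φ0, h1, _, _⟩ := hne
    have h1' : GF T0 κ E q.2 q.1 {0} z φ0 := (GF_upd t0).1 h1
    set m := q.1 z - ap T0 κ E q.2 q.1 φ0 z with hm
    have hsub : {t | upd z (q, t) ∈ EvE T0 κ E {0} z M (CZ d k)} ⊆ Set.Icc (m - k) (m + k) := by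
      rintro t ⟨φ, h2, _, h3⟩
      have h2' : GF T0 κ E q.2 q.1 {0} z φ := (GF_upd t).1 h2
      have he := h1'.unique h h2' (hU _)
      subst he
      have h4 : |ap T0 κ E q.2 (Function.update q.1 z t) φ0 z| ≤ k := h3
      rw [ap_upd, if_pos rfl, h1'.2.1] at h4
      have h5 := abs_le.1 h4
      constructor
      · rw [hm]; linarith [h5.1]
      · rw [hm]; linarith [h5.2]
    refine (measure_mono hsub).trans ((gauss_upper v hv _ _).trans (le_of_eq ?_))
    congr 2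
    ring
  · rw [Set.not_nonempty_iff_eq_empty.1 hne, measure_empty]
    exact zero_le

/-- two resonances that are not hybridised -/
def NH (T0 : (Fin d → ℤ) → (Fin d → ℤ) → ℝ) (κ : (Fin d → ℤ) → ℝ) (E M : ℝ)
    (z z' : Fin d → ℤ) (k k' : ℝ) : Set (Om d) :=
  (EvE T0 κ E {0} z M (CZ d k) ∩ EvE T0 κ E {0} z' M (CZ d k')) \
    (EvE T0 κ E {0} z M (CO d z' ∩ CZ d k) ∪ EvE T0 κ E {0} z' M (CO d z ∩ CZ d k'))

theorem NH_symm {E M : ℝ} {z z' : Fin d → ℤ} {k k' : ℝ} :
    NH T0 κ E M z z' k k' = NH T0 κ E M z' z k' k := by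
  unfold NH
  rw [Set.inter_comm, Set.union_comm]

theorem NH_meas (h : Adm T0 κ ρ0 b) (E M : ℝ) (z z' : Fin d → ℤ) (k k' : ℝ) :
    MeasurableSet (NH T0 κ E M z z' k k') :=
  ((evE_meas h E _ z M _ (CZ_closed k)).inter (evE_meas h E _ z' M _ (CZ_closed k'))).diff
    ((evE_meas h E _ z M _ ((CO_closed z').inter (CZ_closed k))).union
      (evE_meas h E _ z' M _ ((CO_closed z).inter (CZ_closed k'))))

theorem pair_half (h : Adm T0 κ ρ0 b) {E : ℝ} {q : Om d} {z z' : Fin d → ℤ} (hzz : z ≠ z')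
    (hz : z ≠ 0) {M k k' : ℝ}
    (hU : UQ T0 κ E q.2 q.1 (insert z {z', 0})) :
    ∃ m : ℝ, ∀ V' : (Fin d → ℤ) → ℝ, (∀ y, y ≠ z → y ≠ z' → V' y = q.1 y) →
      (V', q.2) ∈ NH T0 κ E M z z' k k' → |V' z - m| ≤ 4 / 3 * k := by
  classical
  -- the doubly cut solution
  have key : ∀ V' : (Fin d → ℤ) → ℝ, (∀ y, y ≠ z → y ≠ z' → V' y = q.1 y) →
      (V', q.2) ∈ NH T0 κ E M z z' k k' → ∃ a, GF T0 κ E q.2 q.1 {z', 0} z a ∧
        |ap T0 κ E q.2 V' a z| ≤ 4 / 3 * k := by
    rintro V' hV ⟨⟨⟨φ, hφ, hM, hk⟩, ⟨φ', hφ', hM', hk'⟩⟩, hn⟩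
    rw [Set.mem_union, not_or] at hn
    obtain ⟨a1, a2, a3, a4⟩ := hφ
    obtain ⟨b1, b2, b3, b4⟩ := hφ'
    have hα : |φ z'| < 1 / 2 := by
      by_contra hcon
      exact hn.1 ⟨φ, ⟨a1, a2, a3, a4⟩, hM, not_lt.1 hcon, hk⟩
    have hβ : |φ' z| < 1 / 2 := by
      by_contra hcon
      exact hn.2 ⟨φ', ⟨b1, b2, b3, b4⟩, hM', not_lt.1 hcon, hk'⟩
    set α := φ z' with hαd
    set β := φ' z with hβd
    have hαβ : |α * β| < 1 / 4 := by
      rw [abs_mul]
      nlinarith [abs_nonneg α, abs_nonneg β]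
    have hD : 3 / 4 < 1 - α * β := by linarith [(abs_lt.1 hαβ).2]
    set D := 1 - α * β with hDd
    have hD0 : 0 < D := by linarith
    have hDi : D⁻¹ ≤ 4 / 3 := by
      rw [inv_le_comm₀ hD0 (by norm_num)]
      linarith
    have hDi0 : 0 < D⁻¹ := inv_pos.2 hD0
    set ψ : (Fin d → ℤ) → ℝ := fun y => D⁻¹ * φ y + (-(α * D⁻¹)) * φ' y with hψ
    have eap : ∀ y, ap T0 κ E q.2 V' ψ y =
        D⁻¹ * ap T0 κ E q.2 V' φ y + (-(α * D⁻¹)) * ap T0 κ E q.2 V' φ' y := fun y => by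
      rw [hψ, ap_lin h a1 b1]
    have hψG : GF T0 κ E q.2 V' {z', 0} z ψ := by
      refine ⟨a1.lin b1 _ _, ?_, ?_, ?_⟩
      · show D⁻¹ * φ z + (-(α * D⁻¹)) * φ' z = 1
        rw [a2, ← hβd]
        have : D⁻¹ * 1 + -(α * D⁻¹) * β = D⁻¹ * D := by rw [hDd]; ring
        rw [this, inv_mul_cancel₀ hD0.ne']
      · intro y hy
        rcases Finset.mem_insert.1 hy with rfl | hy
        · show D⁻¹ * φ y + (-(α * D⁻¹)) * φ' y = 0
          rw [b2, ← hαd]
          ring
        · have hy0 := Finset.mem_singleton.1 hy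
          show D⁻¹ * φ y + (-(α * D⁻¹)) * φ' y = 0
          rw [a3 y (by rw [hy0]; exact Finset.mem_singleton_self 0),
            b3 y (by rw [hy0]; exact Finset.mem_singleton_self 0)]
          ring
      · intro y hy hyz
        rw [Finset.mem_insert, not_or] at hy
        have e1 : ap T0 κ E q.2 V' φ y = 0 := a4 y hy.2 hyz
        have e2 : ap T0 κ E q.2 V' φ' y = 0 := b4 y hy.2 hy.1
        rw [eap, e1, e2]
        ring
    refine ⟨ψ, GF_congr (fun y hy hyz => hV y hyz fun h1 => hy (by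
      rw [h1]; exact Finset.mem_insert_self _ _)) hψG, ?_⟩
    have e2 : ap T0 κ E q.2 V' φ' z = 0 := b4 z (by simpa using hz) hzz
    rw [eap, e2, mul_zero, add_zero, abs_mul, abs_of_pos hDi0]
    have hk1 : |ap T0 κ E q.2 V' φ z| ≤ k := hk
    exact mul_le_mul hDi hk1 (abs_nonneg _) (by norm_num)
  by_cases hne : ∃ V' : (Fin d → ℤ) → ℝ, (∀ y, y ≠ z → y ≠ z' → V' y = q.1 y) ∧
      (V', q.2) ∈ NH T0 κ E M z z' k k'
  · obtain ⟨V0, hV0, hN0⟩ := hne
    obtain ⟨a, ha, _⟩ := key V0 hV0 hN0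
    refine ⟨q.1 z - ap T0 κ E q.2 q.1 a z, fun V' hV' hN' => ?_⟩
    obtain ⟨a', ha', hk⟩ := key V' hV' hN'
    have he := ha.unique h ha' hU
    subst he
    rw [ap_V q.1 V' a z, ha.2.1] at hk
    refine le_trans (le_of_eq ?_) hk
    congr 1
    ring
  · refine ⟨0, fun V' hV' hN' => ?_⟩
    exact absurd ⟨V', hV', hN'⟩ hne

theorem pair_upper (h : Adm T0 κ ρ0 b) (v : NNReal) (hv : v ≠ 0)
    (hc : ∀ᵐ s ∂(Ps d), CutOK T0 κ s) (E : ℝ) {z z' : Fin d → ℤ} (hzz : z ≠ z')
    (hz : z ≠ 0) (hz' : z' ≠ 0) {M k k' : ℝ} (hk : 0 ≤ k) (hk' : 0 ≤ k') :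
    (MU d v).real (NH T0 κ E M z z' k k') ≤
      (gaussianPDFReal 0 v 0 * (8 / 3 * k)) * (gaussianPDFReal 0 v 0 * (8 / 3 * k')) := by
  have hg := gaussianPDFReal_nonneg 0 v 0
  set γ := gaussianReal 0 v with hγ
  set B := NH T0 κ E M z z' k k' with hB
  have hBm : MeasurableSet B := NH_meas h E M z z' k k'
  refine ENNReal.toReal_le_of_le_ofReal (by positivity) ?_
  set f : Om d → ENNReal := fun q => γ {t | upd z' (q, t) ∈ B} with hf
  have hfm : Measurable f := by
    have h1 : MeasurableSet (upd z' ⁻¹' B) := (upd_mp v z').measurable hBm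
    exact measurable_measure_prodMk_left h1
  have e1 : MU d v B = ∫⁻ q, ∫⁻ t, f (upd z (q, t)) ∂γ ∂(MU d v) := by
    rw [resample_eq v z' hBm]
    have h2 := (upd_mp v z).lintegral_comp hfm
    have h3 := lintegral_prod (μ := MU d v) (ν := γ) (fun p => f (upd z p))
      (hfm.comp (upd_mp v z).measurable).aemeasurable
    exact h2.symm.trans h3
  rw [e1]
  have key : ∀ᵐ q ∂(MU d v), ∫⁻ t, f (upd z (q, t)) ∂γ ≤
      ENNReal.ofReal ((gaussianPDFReal 0 v 0 * (8 / 3 * k)) *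
        (gaussianPDFReal 0 v 0 * (8 / 3 * k'))) := by
    filter_upwards [uq_ae h v hv hc E] with q hU
    obtain ⟨m, hm⟩ := pair_half (M := M) (k := k) (k' := k') h hzz hz (hU _)
    obtain ⟨m', hm'⟩ := pair_half (M := M) (k := k') (k' := k) h hzz.symm hz' (hU _)
    have hslice : ∀ t, f (upd z (q, t)) ≤ (Set.Icc (m - 4 / 3 * k) (m + 4 / 3 * k)).indicator
        (fun _ => ENNReal.ofReal (gaussianPDFReal 0 v 0 * (8 / 3 * k'))) t := by
      intro t
      have hV : ∀ t', ∀ y, y ≠ z → y ≠ z' →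
          (upd z' (upd z (q, t), t')).1 y = q.1 y := by
        intro t' y hy hy'
        show Function.update (Function.update q.1 z t) z' t' y = q.1 y
        rw [Function.update_of_ne hy', Function.update_of_ne hy]
      by_cases ht : t ∈ Set.Icc (m - 4 / 3 * k) (m + 4 / 3 * k)
      · rw [Set.indicator_of_mem ht]
        have hsub : {t' | upd z' (upd z (q, t), t') ∈ B} ⊆
            Set.Icc (m' - 4 / 3 * k') (m' + 4 / 3 * k') := by
          intro t' ht'
          have h3 : ((upd z' (upd z (q, t), t')).1, q.2) ∈ NH T0 κ E M z' z k' k := by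
            rw [← NH_symm]
            exact ht'
          have h4 := hm' _ (fun y hy hy' => hV t' y hy' hy) h3
          have h5 : (upd z' (upd z (q, t), t')).1 z' = t' := by
            show Function.update (Function.update q.1 z t) z' t' z' = t'
            rw [Function.update_self]
          rw [h5] at h4
          have h6 := abs_le.1 h4
          exact ⟨by linarith [h6.1], by linarith [h6.2]⟩
        refine (measure_mono hsub).trans ((gauss_upper v hv _ _).trans (le_of_eq ?_))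
        congr 2
        ring
      · rw [Set.indicator_of_notMem ht]
        have hemp : {t' | upd z' (upd z (q, t), t') ∈ B} = ∅ := by
          refine Set.eq_empty_iff_forall_notMem.2 fun t' ht' => ht ?_
          have h4 := hm (upd z' (upd z (q, t), t')).1 (hV t') ht'
          have h5 : (upd z' (upd z (q, t), t')).1 z = t := by
            show Function.update (Function.update q.1 z t) z' t' z = t
            rw [Function.update_of_ne hzz, Function.update_self]
          rw [h5] at h4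
          have h6 := abs_le.1 h4
          exact ⟨by linarith [h6.1], by linarith [h6.2]⟩
        show γ {t' | upd z' (upd z (q, t), t') ∈ B} ≤ 0
        rw [hemp, measure_empty]
    refine (lintegral_mono hslice).trans ?_
    rw [lintegral_indicator measurableSet_Icc, lintegral_const,
      Measure.restrict_apply MeasurableSet.univ, Set.univ_inter, mul_comm,
      ENNReal.ofReal_mul (p := gaussianPDFReal 0 v 0 * (8 / 3 * k)) (by positivity)]
    refine mul_le_mul' ?_ le_rfl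
    refine (gauss_upper v hv _ _).trans (le_of_eq ?_)
    congr 2
    ring
  refine (lintegral_mono_ae key).trans ?_
  rw [lintegral_const, measure_univ, mul_one]

end Pool.Agent.TH980.SH
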