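import Mathlib

/-!
Small ball bound for Rademacher sums in a Hilbert space.
-/

set_option autoImplicit false

namespace Pool.Agent.TH980.SH

open Finset

variable {H ι : Type*} [NormedAddCommGroup H] [InnerProductSpace ℝ H] [DecidableEq ι]

/-- the signed sum; the elements of `T` get the sign `-1` -/
noncomputable def SS (v : ι → H) (R T : Finset ι) : H := ∑ z ∈ R, (if z ∈ T then (-1 : ℝ) else 1) • v z

theorem SS_insert (v : ι → H) {R : Finset ι} {a : ι} (ha : a ∉ R) {T : Finset ι} (hT : T ⊆ R) :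
    SS v (insert a R) T = SS v R T + v a := by
  unfold SS
  rw [Finset.sum_insert ha, if_neg (fun h => ha (hT h)), one_smul, add_comm]

theorem SS_insert' (v : ι → H) {R : Finset ι} {a : ι} (ha : a ∉ R) (T : Finset ι) :
    SS v (insert a R) (insert a T) = SS v R T - v a := by
  unfold SS
  rw [Finset.sum_insert ha, if_pos (Finset.mem_insert_self a T)]
  have : ∑ z ∈ R, (if z ∈ insert a T then (-1 : ℝ) else 1) • v z =
      ∑ z ∈ R, (if z ∈ T then (-1 : ℝ) else 1) • v z := by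
    refine Finset.sum_congr rfl fun z hz => ?_
    have hza : z ≠ a := fun h => ha (h ▸ hz)
    have : (z ∈ insert a T) ↔ z ∈ T := by
      rw [Finset.mem_insert]
      exact ⟨fun h => h.resolve_left hza, Or.inr⟩
    simp only [this]
  rw [this, neg_one_smul]
  abel

theorem par1 (x y : H) : ‖x + y‖ ^ 2 + ‖x - y‖ ^ 2 = 2 * (‖x‖ ^ 2 + ‖y‖ ^ 2) := by
  rw [norm_add_sq_real, norm_sub_sq_real]
  ring

theorem par2 (x y : H) : (‖x + y‖ ^ 2) ^ 2 + (‖x - y‖ ^ 2) ^ 2 ≤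
    2 * (‖x‖ ^ 2) ^ 2 + 12 * (‖x‖ ^ 2 * ‖y‖ ^ 2) + 2 * (‖y‖ ^ 2) ^ 2 := by
  rw [norm_add_sq_real, norm_sub_sq_real]
  have h1 := abs_real_inner_le_norm x y
  have h2 : (inner ℝ x y) ^ 2 ≤ ‖x‖ ^ 2 * ‖y‖ ^ 2 := by
    rw [← mul_pow, ← sq_abs]
    exact pow_le_pow_left₀ (abs_nonneg _) h1 2
  nlinarith

theorem mom2 (v : ι → H) (R : Finset ι) :
    ∑ T ∈ R.powerset, ‖SS v R T‖ ^ 2 = 2 ^ R.card * ∑ z ∈ R, ‖v z‖ ^ 2 := by
  induction R using Finset.induction_on with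
  | empty => simp [SS]
  | insert a R ha ih =>
    rw [Finset.sum_powerset_insert ha, ← Finset.sum_add_distrib, Finset.card_insert_of_notMem ha,
      Finset.sum_insert ha]
    have : ∀ T ∈ R.powerset, ‖SS v (insert a R) T‖ ^ 2 + ‖SS v (insert a R) (insert a T)‖ ^ 2 =
        2 * (‖SS v R T‖ ^ 2 + ‖v a‖ ^ 2) := by
      intro T hT
      rw [SS_insert v ha (Finset.mem_powerset.1 hT), SS_insert' v ha T]
      exact par1 _ _
    rw [Finset.sum_congr rfl this, ← Finset.mul_sum, Finset.sum_add_distrib, ih,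
      Finset.sum_const, Finset.card_powerset, nsmul_eq_mul]
    push_cast
    ring

theorem mom4 (v : ι → H) (R : Finset ι) :
    ∑ T ∈ R.powerset, (‖SS v R T‖ ^ 2) ^ 2 ≤ 3 * 2 ^ R.card * (∑ z ∈ R, ‖v z‖ ^ 2) ^ 2 := by
  induction R using Finset.induction_on with
  | empty => simp [SS]
  | insert a R ha ih =>
    rw [Finset.sum_powerset_insert ha, ← Finset.sum_add_distrib, Finset.card_insert_of_notMem ha,
      Finset.sum_insert ha]
    set A := ∑ z ∈ R, ‖v z‖ ^ 2 with hA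
    have hA0 : 0 ≤ A := Finset.sum_nonneg fun z _ => by positivity
    have : ∀ T ∈ R.powerset, (‖SS v (insert a R) T‖ ^ 2) ^ 2 +
        (‖SS v (insert a R) (insert a T)‖ ^ 2) ^ 2 ≤
        2 * (‖SS v R T‖ ^ 2) ^ 2 + 12 * ‖v a‖ ^ 2 * ‖SS v R T‖ ^ 2 + 2 * (‖v a‖ ^ 2) ^ 2 := by
      intro T hT
      rw [SS_insert v ha (Finset.mem_powerset.1 hT), SS_insert' v ha T]
      refine (par2 _ _).trans (le_of_eq ?_)
      ring
    refine (Finset.sum_le_sum this).trans ?_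
    rw [Finset.sum_add_distrib, Finset.sum_add_distrib, ← Finset.mul_sum, ← Finset.mul_sum,
      mom2 v R, Finset.sum_const, Finset.card_powerset, nsmul_eq_mul, ← hA]
    push_cast
    have hp : (0 : ℝ) < 2 ^ R.card := by positivity
    have hv : 0 ≤ ‖v a‖ ^ 2 := by positivity
    calc 2 * ∑ T ∈ R.powerset, (‖SS v R T‖ ^ 2) ^ 2 + 12 * ‖v a‖ ^ 2 * (2 ^ R.card * A) +
          2 ^ R.card * (2 * (‖v a‖ ^ 2) ^ 2)
        ≤ 2 * (3 * 2 ^ R.card * A ^ 2) + 12 * ‖v a‖ ^ 2 * (2 ^ R.card * A) +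
          2 ^ R.card * (2 * (‖v a‖ ^ 2) ^ 2) := by linarith
      _ ≤ 3 * 2 ^ (R.card + 1) * (‖v a‖ ^ 2 + A) ^ 2 := by
        have e : 3 * 2 ^ (R.card + 1) * (‖v a‖ ^ 2 + A) ^ 2 -
            (2 * (3 * 2 ^ R.card * A ^ 2) + 12 * ‖v a‖ ^ 2 * (2 ^ R.card * A) +
              2 ^ R.card * (2 * (‖v a‖ ^ 2) ^ 2)) = 2 ^ R.card * (4 * (‖v a‖ ^ 2) ^ 2) := by
          rw [pow_succ (2 : ℝ) R.card]
          ring
        have : 0 ≤ (2 : ℝ) ^ R.card * (4 * (‖v a‖ ^ 2) ^ 2) := by positivity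
        linarith

/-- many signed sums are large -/
theorem count1 (v : ι → H) (R : Finset ι) (hA : 0 < ∑ z ∈ R, ‖v z‖ ^ 2) :
    (2 : ℝ) ^ R.card ≤ 12 * ((R.powerset.filter fun T =>
      (∑ z ∈ R, ‖v z‖ ^ 2) / 2 ≤ ‖SS v R T‖ ^ 2).card : ℝ) := by
  set A := ∑ z ∈ R, ‖v z‖ ^ 2 with hAd
  set m := ((R.powerset.filter fun T => A / 2 ≤ ‖SS v R T‖ ^ 2).card : ℝ) with hm
  have hpt : ∀ T ∈ R.powerset, ‖SS v R T‖ ^ 2 ≤ A / 2 + ((‖SS v R T‖ ^ 2) ^ 2 / (12 * A) +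
      3 * A * (if A / 2 ≤ ‖SS v R T‖ ^ 2 then 1 else 0)) := by
    intro T _
    split_ifs with hT
    · have h6 : (‖SS v R T‖ ^ 2) ^ 2 / (12 * A) + 3 * A * 1 - ‖SS v R T‖ ^ 2 =
          (‖SS v R T‖ ^ 2 - 6 * A) ^ 2 / (12 * A) := by
        field_simp
        ring
      have h7 : 0 ≤ (‖SS v R T‖ ^ 2 - 6 * A) ^ 2 / (12 * A) := by positivity
      linarith
    · have h6 : 0 ≤ (‖SS v R T‖ ^ 2) ^ 2 / (12 * A) := by positivity
      push Not at hT
      linarith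
  have h1 := Finset.sum_le_sum hpt
  rw [mom2 v R, ← hAd, Finset.sum_add_distrib, Finset.sum_add_distrib, Finset.sum_const,
    Finset.card_powerset, nsmul_eq_mul, ← Finset.sum_div, ← Finset.mul_sum,
    ← Finset.sum_filter, Finset.sum_const, nsmul_eq_mul, mul_one, ← hm] at h1
  push_cast at h1
  have h2 : (∑ T ∈ R.powerset, (‖SS v R T‖ ^ 2) ^ 2) / (12 * A) ≤
      (3 * 2 ^ R.card * A ^ 2) / (12 * A) :=
    div_le_div_of_nonneg_right (mom4 v R) (by positivity)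
  have h3 : (3 * 2 ^ R.card * A ^ 2) / (12 * A) = 2 ^ R.card * A / 4 := by
    field_simp
    ring
  have h4 : 2 ^ R.card * A ≤ (12 * m) * A := by linarith
  exact le_of_mul_le_mul_right h4 hA

theorem SS_compl (v : ι → H) (R T : Finset ι) : SS v R (R \ T) = - SS v R T := by
  unfold SS
  rw [← Finset.sum_neg_distrib]
  refine Finset.sum_congr rfl fun z hz => ?_
  by_cases hT : z ∈ T
  · rw [if_pos hT, if_neg (by simp [hT])]
    simp
  · rw [if_neg hT, if_pos (by simp [hz, hT])]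
    simp

/-- the small ball bound -/
theorem count2 (v : ι → H) (R : Finset ι) (r : H) (hA : 0 < ∑ z ∈ R, ‖v z‖ ^ 2) :
    (2 : ℝ) ^ R.card ≤ 24 * ((R.powerset.filter fun T =>
      (∑ z ∈ R, ‖v z‖ ^ 2) / 2 ≤ ‖r - SS v R T‖ ^ 2).card : ℝ) := by
  classical
  set A := ∑ z ∈ R, ‖v z‖ ^ 2 with hAd
  set G := R.powerset.filter fun T => A / 2 ≤ ‖r - SS v R T‖ ^ 2 with hG
  have hsub : (R.powerset.filter fun T => A / 2 ≤ ‖SS v R T‖ ^ 2) ⊆ G ∪ G.image (fun T => R \ T) := by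
    intro T hT
    rw [Finset.mem_filter] at hT
    obtain ⟨h1, h2⟩ := hT
    rw [Finset.mem_union]
    by_cases h3 : A / 2 ≤ ‖r - SS v R T‖ ^ 2
    · exact Or.inl (Finset.mem_filter.2 ⟨h1, h3⟩)
    · right
      rw [Finset.mem_image]
      refine ⟨R \ T, Finset.mem_filter.2 ⟨Finset.mem_powerset.2 Finset.sdiff_subset, ?_⟩, ?_⟩
      · rw [SS_compl, sub_neg_eq_add]
        have h4 := par1 r (SS v R T)
        push Not at h3
        have h5 : 0 ≤ ‖r‖ ^ 2 := by positivity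
        linarith
      · exact Finset.sdiff_sdiff_eq_self (Finset.mem_powerset.1 h1)
  have h1 := Finset.card_le_card hsub
  have h2 : (G ∪ G.image (fun T => R \ T)).card ≤ 2 * G.card := by
    refine (Finset.card_union_le _ _).trans ?_
    have := Finset.card_image_le (s := G) (f := fun T => R \ T)
    omega
  have h3 := count1 v R hA
  rw [← hAd] at h3
  have h4 : ((R.powerset.filter fun T => A / 2 ≤ ‖SS v R T‖ ^ 2).card : ℝ) ≤ 2 * G.card := by
    exact_mod_cast h1.trans h2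
  linarith

end Pool.Agent.TH980.SH
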