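import Pool.Agent.TH980.SH.Uniq

/-!
Translation invariance.
-/

set_option autoImplicit false

namespace Pool.Agent.TH980.SH

open Finset MeasureTheory ProbabilityTheory H10PL Filter Topology Pool.Agent.TH980.PL

variable {d : ℕ} {T0 : (Fin d → ℤ) → (Fin d → ℤ) → ℝ} {κ : (Fin d → ℤ) → ℝ} {ρ0 b : ℝ}

/-- translation of a configuration -/
def sh (a : Fin d → ℤ) (q : Om d) : Om d :=
  (fun y => q.1 (y + a), fun e => q.2 (e.map (· + a)))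

theorem sh_mp (v : NNReal) (a : Fin d → ℤ) : MeasurePreserving (sh a) (MU d v) (MU d v) := by
  have hinj : Function.Injective fun y : Fin d → ℤ => y + a := add_left_injective a
  have h1 : MeasurePreserving (fun (V : (Fin d → ℤ) → ℝ) y => V (y + a)) (PV d v) (PV d v) := by
    refine ⟨measurable_pi_iff.2 fun y => measurable_pi_apply _, ?_⟩
    exact Measure.map_infinitePi_infinitePi_of_inj (P := fun _ : Fin d → ℤ => gaussianReal 0 v) hinj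
  have h2 : MeasurePreserving (fun (s : Sym2 (Fin d → ℤ) → Bool) e => s (e.map (· + a)))
      (Ps d) (Ps d) := by
    refine ⟨measurable_pi_iff.2 fun y => measurable_pi_apply _, ?_⟩
    exact Measure.map_infinitePi_infinitePi_of_inj (P := fun _ : Sym2 (Fin d → ℤ) => coin)
      (Sym2.map.injective hinj)
  exact h1.prod h2

theorem Kf_sh (hT : ∀ a y w, T0 (y + a) (w + a) = T0 y w) (a : Fin d → ℤ) (q : Om d)
    (y w : Fin d → ℤ) : Kf T0 κ (sh a q).2 y w = Kf T0 κ q.2 (y + a) (w + a) := by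
  unfold Kf sh
  rw [hT, add_sub_add_right_eq_sub]
  rfl

theorem ap_sh (hT : ∀ a y w, T0 (y + a) (w + a) = T0 y w) (E : ℝ) (a : Fin d → ℤ) (q : Om d)
    (φ : (Fin d → ℤ) → ℝ) (y : Fin d → ℤ) :
    ap T0 κ E (sh a q).2 (sh a q).1 (fun y => φ (y + a)) y = ap T0 κ E q.2 q.1 φ (y + a) := by
  unfold ap
  have h1 : ∑' w, Kf T0 κ (sh a q).2 y w * φ (w + a) = ∑' w, Kf T0 κ q.2 (y + a) w * φ w := by
    rw [← (Equiv.addRight a).tsum_eq (fun w => Kf T0 κ q.2 (y + a) w * φ w)]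
    refine tsum_congr fun w => ?_
    rw [Kf_sh hT]
    rfl
  rw [h1]
  rfl

theorem L2_sh (a : Fin d → ℤ) {φ : (Fin d → ℤ) → ℝ} :
    L2 (fun y => φ (y + a)) ↔ L2 φ := by
  unfold L2
  exact (Equiv.addRight a).summable_iff (f := fun y => φ y ^ 2)

theorem Kn_sh (a : Fin d → ℤ) {φ : (Fin d → ℤ) → ℝ} {n : ℝ} :
    (fun y => φ (y + a)) ∈ Kn d n ↔ φ ∈ Kn d n := by
  rw [mem_Kn, mem_Kn, L2_sh]
  have : ∑' y, φ (y + a) ^ 2 = ∑' y, φ y ^ 2 := (Equiv.addRight a).tsum_eq (fun y => φ y ^ 2)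
  rw [this]

theorem GF_sh (hT : ∀ a y w, T0 (y + a) (w + a) = T0 y w) (E : ℝ) (a : Fin d → ℤ) (q : Om d)
    (φ : (Fin d → ℤ) → ℝ) (z : Fin d → ℤ) :
    GF T0 κ E (sh a q).2 (sh a q).1 ∅ z (fun y => φ (y + a)) ↔
      GF T0 κ E q.2 q.1 ∅ (z + a) φ := by
  unfold GF
  rw [L2_sh]
  refine and_congr Iff.rfl (and_congr Iff.rfl (and_congr ?_ ?_))
  · simp
  · constructor
    · intro h y _ hy
      have h1 := h (y - a) (Finset.notMem_empty _) (fun h2 => hy (by rw [← h2]; abel))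
      rw [ap_sh hT] at h1
      simpa using h1
    · intro h y _ hy
      rw [ap_sh hT]
      exact h (y + a) (Finset.notMem_empty _) (fun h2 => hy (add_right_cancel h2))

theorem evE_sh (hT : ∀ a y w, T0 (y + a) (w + a) = T0 y w) (E : ℝ) (a z : Fin d → ℤ) (n : ℝ)
    (C C' : Set ((ℝ × Om d) × (((Fin d → ℤ) → ℝ) × ℝ)))
    (hC : ∀ (q : Om d) (φ : (Fin d → ℤ) → ℝ) (r : ℝ),
      ((E, sh a q), ((fun y => φ (y + a)), r)) ∈ C ↔ ((E, q), (φ, r)) ∈ C') :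
    sh a ⁻¹' (EvE T0 κ E ∅ z n C) = EvE T0 κ E ∅ (z + a) n C' := by
  ext q
  constructor
  · rintro ⟨φ, h1, h2, h3⟩
    set ψ : (Fin d → ℤ) → ℝ := fun y => φ (y - a) with hψ
    have e : φ = fun y => ψ (y + a) := by
      funext y
      simp only [hψ, add_sub_cancel_right]
    rw [e] at h1 h2 h3
    rw [ap_sh hT] at h3
    exact ⟨ψ, (GF_sh hT E a q ψ z).1 h1, (Kn_sh a).1 h2, (hC q ψ _).1 h3⟩
  · rintro ⟨φ, h1, h2, h3⟩
    refine ⟨fun y => φ (y + a), (GF_sh hT E a q φ z).2 h1, (Kn_sh a).2 h2, ?_⟩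
    rw [ap_sh hT]
    exact (hC q φ _).2 h3

/-- the event that there is a normalised solution at `z` with norm square at most `n` -/
def AA0 (T0 : (Fin d → ℤ) → (Fin d → ℤ) → ℝ) (κ : (Fin d → ℤ) → ℝ) (E : ℝ)
    (z : Fin d → ℤ) (n : ℝ) : Set (Om d) := EvE T0 κ E ∅ z n Set.univ

/-- the event that there is a normalised solution at `z` -/
def GG (T0 : (Fin d → ℤ) → (Fin d → ℤ) → ℝ) (κ : (Fin d → ℤ) → ℝ) (E : ℝ)
    (z : Fin d → ℤ) : Set (Om d) := ⋃ n : ℕ, AA0 T0 κ E z n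

theorem mem_AA0 {E : ℝ} {z : Fin d → ℤ} {n : ℝ} {q : Om d} :
    q ∈ AA0 T0 κ E z n ↔ ∃ φ, GF T0 κ E q.2 q.1 ∅ z φ ∧ φ ∈ Kn d n := by
  constructor
  · rintro ⟨φ, h1, h2, -⟩
    exact ⟨φ, h1, h2⟩
  · rintro ⟨φ, h1, h2⟩
    exact ⟨φ, h1, h2, Set.mem_univ _⟩

theorem mem_GG {E : ℝ} {z : Fin d → ℤ} {q : Om d} :
    q ∈ GG T0 κ E z ↔ ∃ φ, GF T0 κ E q.2 q.1 ∅ z φ := by
  unfold GG
  rw [Set.mem_iUnion]
  constructor
  · rintro ⟨n, hn⟩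
    obtain ⟨φ, h1, _⟩ := mem_AA0.1 hn
    exact ⟨φ, h1⟩
  · rintro ⟨φ, h1⟩
    obtain ⟨n, hn⟩ := exists_nat_ge (∑' y, φ y ^ 2)
    exact ⟨n, mem_AA0.2 ⟨φ, h1, mem_Kn.2 ⟨h1.1, hn⟩⟩⟩

theorem AA0_meas (h : Adm T0 κ ρ0 b) (E : ℝ) (z : Fin d → ℤ) (n : ℝ) :
    MeasurableSet (AA0 T0 κ E z n) := evE_meas h E ∅ z n _ isClosed_univ

theorem GG_meas (h : Adm T0 κ ρ0 b) (E : ℝ) (z : Fin d → ℤ) :
    MeasurableSet (GG T0 κ E z) := MeasurableSet.iUnion fun n => AA0_meas h E z n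

theorem AA0_mono {E : ℝ} {z : Fin d → ℤ} {n m : ℝ} (hnm : n ≤ m) :
    AA0 T0 κ E z n ⊆ AA0 T0 κ E z m := by
  intro q hq
  obtain ⟨φ, h1, h2⟩ := mem_AA0.1 hq
  exact mem_AA0.2 ⟨φ, h1, Kn_mono hnm h2⟩

theorem GG_sh (h : Adm T0 κ ρ0 b) (hT : ∀ a y w, T0 (y + a) (w + a) = T0 y w) (v : NNReal)
    (E : ℝ) (z : Fin d → ℤ) : MU d v (GG T0 κ E z) = MU d v (GG T0 κ E 0) := by
  rw [← (sh_mp v z).measure_preimage (GG_meas h E 0).nullMeasurableSet]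
  congr 1
  unfold GG
  rw [Set.preimage_iUnion]
  refine Set.iUnion_congr fun n => ?_
  unfold AA0
  rw [evE_sh hT E z 0 n Set.univ Set.univ (fun _ _ _ => Iff.rfl), zero_add]

end Pool.Agent.TH980.SH
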