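import Pool.Agent.TH980.SH.PZ
import Pool.Agent.TH980.SH.Rad

/-!
Random signs at the origin: with many resonances the solution at the origin is large.
-/

set_option autoImplicit false

namespace Pool.Agent.TH980.SH

open Finset MeasureTheory ProbabilityTheory H10PL Filter Topology Pool.Agent.TH980.PL

variable {d : ℕ} {T0 : (Fin d → ℤ) → (Fin d → ℤ) → ℝ} {κ : (Fin d → ℤ) → ℝ} {ρ0 b : ℝ}

theorem lin_sum (h : Adm T0 κ ρ0 b) {E : ℝ} {s : Sym2 (Fin d → ℤ) → Bool}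
    {V φ0 : (Fin d → ℤ) → ℝ} (hφ0 : L2 φ0) (c : (Fin d → ℤ) → ℝ)
    (w : (Fin d → ℤ) → (Fin d → ℤ) → ℝ) (R : Finset (Fin d → ℤ)) (hw : ∀ z ∈ R, L2 (w z)) :
    L2 (fun y => φ0 y + ∑ z ∈ R, c z * w z y) ∧
      ∀ y, ap T0 κ E s V (fun y => φ0 y + ∑ z ∈ R, c z * w z y) y =
        ap T0 κ E s V φ0 y + ∑ z ∈ R, c z * ap T0 κ E s V (w z) y := by
  classical
  induction R using Finset.induction_on with
  | empty => simpa using hφ0
  | insert a R ha ih =>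
    obtain ⟨i1, i2⟩ := ih fun z hz => hw z (Finset.mem_insert_of_mem hz)
    have ha2 := hw a (Finset.mem_insert_self a R)
    have e : (fun y => φ0 y + ∑ z ∈ insert a R, c z * w z y) =
        fun y => 1 * (φ0 y + ∑ z ∈ R, c z * w z y) + c a * w a y := by
      funext y
      rw [Finset.sum_insert ha]
      ring
    rw [e]
    refine ⟨i1.lin ha2 1 (c a), fun y => ?_⟩
    rw [ap_lin h i1 ha2, i2, Finset.sum_insert ha]
    ring

open Classical in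
theorem flip_sol (h : Adm T0 κ ρ0 b) {E M : ℝ} {q : Om d} (hU : ∀ F, UQ T0 κ E q.2 q.1 F)
    (R : Finset (Fin d → ℤ)) (hR0 : (0 : Fin d → ℤ) ∉ R)
    (hG : q ∈ GG T0 κ E 0) (hZ : ∀ z ∈ R, q ∈ ZZ T0 κ E M z) :
    ∃ (v : (Fin d → ℤ) → (Fin d → ℤ) → ℝ) (r : (Fin d → ℤ) → ℝ), (∀ z ∈ R, 1 ≤ |v z z|) ∧
      ∀ T, T ⊆ R → ∃ φ, GF T0 κ E (flipO (ET T) q).2 (flipO (ET T) q).1 ∅ 0 φ ∧
        ∀ y, φ y = r y - ∑ z ∈ R, (if z ∈ T then (-1 : ℝ) else 1) * v z y := by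
  obtain ⟨φ0, hφ0⟩ := mem_GG.1 hG
  obtain ⟨a1, a2, a3, a4⟩ := hφ0
  have hex : ∀ z, ∃ φ : (Fin d → ℤ) → ℝ, z ∈ R →
      (GF T0 κ E q.2 q.1 {0} z φ ∧ |ap T0 κ E q.2 q.1 φ z| ≤ |κ z|) := by
    intro z
    by_cases hz : z ∈ R
    · obtain ⟨φ, h1, _, h2⟩ := hZ z hz
      exact ⟨φ, fun _ => ⟨h1, h2⟩⟩
    · exact ⟨0, fun h => absurd h hz⟩
  choose f hf using hex
  set v : (Fin d → ℤ) → (Fin d → ℤ) → ℝ := fun z y =>
    (sg (q.2 s(0, z)) * κ z / ap T0 κ E q.2 q.1 (f z) z) * f z y with hv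
  have hvL : ∀ z ∈ R, L2 (v z) := fun z hz => (hf z hz).1.1.smul _
  have hvap : ∀ z ∈ R, ∀ y, y ≠ 0 → ap T0 κ E q.2 q.1 (v z) y =
      if y = z then sg (q.2 s(0, z)) * κ z else 0 := by
    intro z hz y hy
    obtain ⟨⟨b1, b2, b3, b4⟩, hk⟩ := hf z hz
    have hne := GF.ne (hf z hz).1 (hU _)
    simp only [hv]
    rw [ap_smul]
    by_cases hyz : y = z
    · subst hyz
      rw [if_pos rfl]
      field_simp
    · rw [if_neg hyz, b4 y (by simpa using hy) hyz, mul_zero]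
  have hv0 : ∀ z ∈ R, v z 0 = 0 := by
    intro z hz
    obtain ⟨⟨b1, b2, b3, b4⟩, hk⟩ := hf z hz
    simp only [hv]
    rw [b3 0 (Finset.mem_singleton_self 0), mul_zero]
  refine ⟨v, fun y => φ0 y + ∑ z ∈ R, v z y, ?_, ?_⟩
  · intro z hz
    obtain ⟨⟨b1, b2, b3, b4⟩, hk⟩ := hf z hz
    have hne := GF.ne (hf z hz).1 (hU _)
    have hpos : 0 < |ap T0 κ E q.2 q.1 (f z) z| := abs_pos.2 hne
    simp only [hv]
    rw [b2, mul_one, abs_div, abs_mul, sg_abs, one_mul, le_div_iff₀ hpos, one_mul]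
    exact hk
  · intro T hT
    set c : (Fin d → ℤ) → ℝ := fun z => if z ∈ T then 2 else 0 with hc
    obtain ⟨i1, i2⟩ := lin_sum h (E := E) (s := q.2) (V := q.1) a1 c v R hvL
    refine ⟨fun y => φ0 y + ∑ z ∈ R, c z * v z y, ⟨i1, ?_, ?_, ?_⟩, ?_⟩
    · show φ0 0 + ∑ z ∈ R, c z * v z 0 = 1
      rw [Finset.sum_eq_zero fun z hz => by rw [hv0 z hz, mul_zero], a2, add_zero]
    · intro y hy
      exact absurd hy (Finset.notMem_empty _)
    · intro y _ hy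
      have e0 : φ0 0 + ∑ z ∈ R, c z * v z 0 = 1 := by
        rw [Finset.sum_eq_zero fun z hz => by rw [hv0 z hz, mul_zero], a2, add_zero]
      show ap T0 κ E (flipS (ET T) q.2) q.1 (fun y => φ0 y + ∑ z ∈ R, c z * v z y) y = 0
      rw [ap_flip h i1 T y hy, i2, a4 y (Finset.notMem_empty _) hy, e0, zero_add]
      have e1 : ∑ z ∈ R, c z * ap T0 κ E q.2 q.1 (v z) y =
          if y ∈ R then c y * (sg (q.2 s(0, y)) * κ y) else 0 := by
        rw [← Finset.sum_ite_eq R y (fun z => c z * (sg (q.2 s(0, z)) * κ z))]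
        refine Finset.sum_congr rfl fun z hz => ?_
        rw [hvap z hz y hy]
        split_ifs with h1
        · rfl
        · rw [mul_zero]
      rw [e1]
      by_cases hyT : y ∈ T
      · rw [if_pos (hT hyT), if_pos hyT]
        simp only [hc]
        rw [if_pos hyT]
        ring
      · rw [if_neg hyT]
        simp only [hc]
        rw [if_neg hyT]
        split_ifs <;> ring
    · intro y
      show φ0 y + ∑ z ∈ R, c z * v z y = (φ0 y + ∑ z ∈ R, v z y) -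
        ∑ z ∈ R, (if z ∈ T then (-1 : ℝ) else 1) * v z y
      rw [add_sub_assoc, ← Finset.sum_sub_distrib]
      congr 1
      refine Finset.sum_congr rfl fun z _ => ?_
      simp only [hc]
      split_ifs <;> ring

/-- configurations with a large solution at the origin -/
def QQ (T0 : (Fin d → ℤ) → (Fin d → ℤ) → ℝ) (κ : (Fin d → ℤ) → ℝ) (E L : ℝ) : Set (Om d) :=
  GG T0 κ E 0 \ AA0 T0 κ E 0 L

theorem QQ_meas (h : Adm T0 κ ρ0 b) (E L : ℝ) : MeasurableSet (QQ T0 κ E L) :=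
  (GG_meas h E 0).diff (AA0_meas h E 0 L)

open Classical in
theorem count3 (h : Adm T0 κ ρ0 b) {E M L : ℝ} {q : Om d} (hU : ∀ F, UQ T0 κ E q.2 q.1 F)
    (hU' : ∀ T : Finset (Fin d → ℤ), ∀ F, UQ T0 κ E (flipO (ET T) q).2 (flipO (ET T) q).1 F)
    (R : Finset (Fin d → ℤ)) (hR0 : (0 : Fin d → ℤ) ∉ R)
    (hG : q ∈ GG T0 κ E 0) (hZ : ∀ z ∈ R, q ∈ ZZ T0 κ E M z) (hL0 : 0 ≤ L)
    (hL : L < (R.card : ℝ) / 2) :
    (2 : ℝ) ^ R.card ≤ 24 * ((R.powerset.filter fun T => flipO (ET T) q ∈ QQ T0 κ E L).card : ℝ) := by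
  obtain ⟨v, r, hv1, hv2⟩ := flip_sol h hU R hR0 hG hZ
  let v' : (Fin d → ℤ) → EuclideanSpace ℝ R := fun z => WithLp.toLp 2 fun y => v z y
  let r' : EuclideanSpace ℝ R := WithLp.toLp 2 fun y => r y
  have hA : (R.card : ℝ) ≤ ∑ z ∈ R, ‖v' z‖ ^ 2 := by
    have h1 : ∀ z ∈ R, (1 : ℝ) ≤ ‖v' z‖ ^ 2 := by
      intro z hz
      rw [EuclideanSpace.norm_sq_eq]
      have h2 : ‖v' z ⟨z, hz⟩‖ ^ 2 ≤ ∑ i, ‖v' z i‖ ^ 2 :=
        Finset.single_le_sum (f := fun i => ‖v' z i‖ ^ 2) (fun i _ => by positivity)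
          (Finset.mem_univ _)
      refine le_trans ?_ h2
      show (1 : ℝ) ≤ ‖v z z‖ ^ 2
      rw [Real.norm_eq_abs]
      have := hv1 z hz
      nlinarith
    have h2 := Finset.sum_le_sum h1
    rw [Finset.sum_const, nsmul_eq_mul, mul_one] at h2
    exact h2
  have hRpos : (0 : ℝ) < R.card := by linarith
  have hcount := count2 v' R r' (by linarith)
  refine hcount.trans ?_
  refine mul_le_mul_of_nonneg_left ?_ (by norm_num)
  have hsub : (R.powerset.filter fun T =>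
      (∑ z ∈ R, ‖v' z‖ ^ 2) / 2 ≤ ‖r' - SS v' R T‖ ^ 2) ⊆
      (R.powerset.filter fun T => flipO (ET T) q ∈ QQ T0 κ E L) := by
    intro T hT
    rw [Finset.mem_filter] at hT ⊢
    refine ⟨hT.1, ?_⟩
    obtain ⟨φ, hφ, hφy⟩ := hv2 T (Finset.mem_powerset.1 hT.1)
    have hnorm : ‖r' - SS v' R T‖ ^ 2 = ∑ y ∈ R, φ y ^ 2 := by
      rw [EuclideanSpace.norm_sq_eq, ← Finset.sum_coe_sort R (fun y => φ y ^ 2)]
      refine Finset.sum_congr rfl fun y _ => ?_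
      rw [Real.norm_eq_abs, sq_abs, hφy]
      congr 1
      have e1 : (SS v' R T) y = ∑ z ∈ R, (if z ∈ T then (-1 : ℝ) else 1) * v z y := by
        unfold SS
        rw [WithLp.ofLp_sum, Finset.sum_apply]
        refine Finset.sum_congr rfl fun z _ => ?_
        rfl
      show r' y - (SS v' R T) y = _
      rw [e1]
    refine ⟨mem_GG.2 ⟨φ, hφ⟩, fun hcon => ?_⟩
    obtain ⟨ψ, hψ, hψn⟩ := mem_AA0.1 hcon
    have he := hφ.unique h hψ (hU' T _)
    subst he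
    have h1 := hψn R
    rw [← hnorm] at h1
    linarith [hT.2]
  exact_mod_cast Finset.card_le_card hsub

theorem GF_flip (h : Adm T0 κ ρ0 b) {E : ℝ} {q : Om d} {z : Fin d → ℤ} (hz : z ≠ 0)
    (T : Finset (Fin d → ℤ)) [DecidablePred (· ∈ ET T)] {φ : (Fin d → ℤ) → ℝ} (hφ : L2 φ)
    (h0 : φ 0 = 0) :
    (GF T0 κ E (flipO (ET T) q).2 (flipO (ET T) q).1 {0} z φ ↔ GF T0 κ E q.2 q.1 {0} z φ) ∧
      ap T0 κ E (flipO (ET T) q).2 (flipO (ET T) q).1 φ z = ap T0 κ E q.2 q.1 φ z := by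
  have e : ∀ y, y ≠ 0 → ap T0 κ E (flipO (ET T) q).2 (flipO (ET T) q).1 φ y =
      ap T0 κ E q.2 q.1 φ y := by
    intro y hy
    have h1 := ap_flip h (E := E) (s := q.2) (V := q.1) hφ T y hy
    rw [h0, mul_zero, ite_self, sub_zero] at h1
    exact h1
  refine ⟨?_, e z hz⟩
  unfold GF
  have : (∀ y, y ∉ ({0} : Finset (Fin d → ℤ)) → y ≠ z →
      ap T0 κ E (flipO (ET T) q).2 (flipO (ET T) q).1 φ y = 0) ↔
      (∀ y, y ∉ ({0} : Finset (Fin d → ℤ)) → y ≠ z → ap T0 κ E q.2 q.1 φ y = 0) := by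
    refine forall_congr' fun y => forall_congr' fun hy => forall_congr' fun _ => ?_
    rw [e y (by simpa using hy)]
  rw [this]

theorem ZZ_flip (h : Adm T0 κ ρ0 b) {E M : ℝ} {q : Om d} {z : Fin d → ℤ} (hz : z ≠ 0)
    (T : Finset (Fin d → ℤ)) [DecidablePred (· ∈ ET T)] :
    flipO (ET T) q ∈ ZZ T0 κ E M z ↔ q ∈ ZZ T0 κ E M z := by
  constructor
  · rintro ⟨φ, h1, h2, h3⟩
    obtain ⟨g1, g2⟩ := GF_flip h (E := E) (q := q) hz T h1.1 (h1.2.2.1 0 (Finset.mem_singleton_self 0))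
    refine ⟨φ, g1.1 h1, h2, ?_⟩
    rw [← g2]
    exact h3
  · rintro ⟨φ, h1, h2, h3⟩
    obtain ⟨g1, g2⟩ := GF_flip h (E := E) (q := q) hz T h1.1 (h1.2.2.1 0 (Finset.mem_singleton_self 0))
    refine ⟨φ, g1.2 h1, h2, ?_⟩
    rw [g2]
    exact h3

/-- the event that the resonant sites of `S` are those of `R` -/
def EE (T0 : (Fin d → ℤ) → (Fin d → ℤ) → ℝ) (κ : (Fin d → ℤ) → ℝ) (E M : ℝ)
    (S R : Finset (Fin d → ℤ)) : Set (Om d) :=
  {q | q ∈ GG T0 κ E 0 ∧ ∀ z ∈ S, (q ∈ ZZ T0 κ E M z ↔ z ∈ R)}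

theorem EE_meas (h : Adm T0 κ ρ0 b) (E M : ℝ) (S R : Finset (Fin d → ℤ)) :
    MeasurableSet (EE T0 κ E M S R) := by
  classical
  have e : EE T0 κ E M S R = GG T0 κ E 0 ∩ ⋂ z ∈ S,
      (if z ∈ R then ZZ T0 κ E M z else (ZZ T0 κ E M z)ᶜ) := by
    ext q
    unfold EE
    rw [Set.mem_inter_iff, Set.mem_iInter₂]
    refine and_congr Iff.rfl (forall_congr' fun z => forall_congr' fun _ => ?_)
    split_ifs with hz
    · simp [hz]
    · simp [hz]
  rw [e]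
  refine (GG_meas h E 0).inter (Finset.measurableSet_biInter S fun z _ => ?_)
  split_ifs
  · exact ZZ_meas h E M z
  · exact (ZZ_meas h E M z).compl

open Classical in
theorem flip_ae (h : Adm T0 κ ρ0 b) (v : NNReal) (hv : v ≠ 0)
    (hc : ∀ᵐ s ∂(Ps d), CutOK T0 κ s) (E : ℝ) :
    ∀ᵐ q ∂(MU d v), (∀ F, UQ T0 κ E q.2 q.1 F) ∧
      ∀ (T : Finset (Fin d → ℤ)) (F : Finset (Fin d → ℤ)),
        UQ T0 κ E (flipO (ET T) q).2 (flipO (ET T) q).1 F := by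
  have h1 := uq_ae h v hv hc E
  refine h1.and ?_
  rw [ae_all_iff]
  intro T
  have h2 := (flipO_mp v (ET T)).quasiMeasurePreserving.ae h1
  filter_upwards [h2] with q hq F
  exact hq F

open Classical in
theorem EE_bound (h : Adm T0 κ ρ0 b) (v : NNReal) (hv : v ≠ 0)
    (hc : ∀ᵐ s ∂(Ps d), CutOK T0 κ s) (E M : ℝ) {L : ℝ} (hL0 : 0 ≤ L)
    (S R : Finset (Fin d → ℤ)) (hS0 : (0 : Fin d → ℤ) ∉ S) (hR : R ⊆ S)
    (hL : L < (R.card : ℝ) / 2) :
    (MU d v).real (EE T0 κ E M S R) ≤ 24 * (MU d v).real (EE T0 κ E M S R ∩ QQ T0 κ E L) := by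
  have hm1 := EE_meas h E M S R
  have hm2 : ∀ T : Finset (Fin d → ℤ),
      MeasurableSet (EE T0 κ E M S R ∩ flipO (ET T) ⁻¹' (QQ T0 κ E L)) := fun T =>
    hm1.inter ((flipO_mp v (ET T)).measurable (QQ_meas h E L))
  have hint : ∀ {A : Set (Om d)}, MeasurableSet A →
      Integrable (A.indicator fun _ => (1 : ℝ)) (MU d v) := fun hA =>
    (integrable_const (1 : ℝ)).indicator hA
  have hreal : ∀ {B : Set (Om d)}, MeasurableSet B →
      ∫ ω, B.indicator (fun _ => (1 : ℝ)) ω ∂(MU d v) = (MU d v).real B := by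
    intro B hB
    rw [integral_indicator hB]
    simp
  have hR0 : (0 : Fin d → ℤ) ∉ R := fun h0 => hS0 (hR h0)
  have hpt : ∀ᵐ q ∂(MU d v), (2 : ℝ) ^ R.card / 24 * (EE T0 κ E M S R).indicator (fun _ => (1 : ℝ)) q ≤
      ∑ T ∈ R.powerset, (EE T0 κ E M S R ∩ flipO (ET T) ⁻¹' (QQ T0 κ E L)).indicator
        (fun _ => (1 : ℝ)) q := by
    filter_upwards [flip_ae h v hv hc E] with q hq
    by_cases hqE : q ∈ EE T0 κ E M S R
    · rw [Set.indicator_of_mem hqE, mul_one]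
      have h1 := count3 (M := M) (L := L) h hq.1 hq.2 R hR0 hqE.1
        (fun z hz => (hqE.2 z (hR hz)).2 hz) hL0 hL
      have h2 : ∑ T ∈ R.powerset, (EE T0 κ E M S R ∩ flipO (ET T) ⁻¹' (QQ T0 κ E L)).indicator
          (fun _ => (1 : ℝ)) q =
          ((R.powerset.filter fun T => flipO (ET T) q ∈ QQ T0 κ E L).card : ℝ) := by
        rw [Finset.card_filter]
        push_cast
        refine Finset.sum_congr rfl fun T _ => ?_
        by_cases hT : flipO (ET T) q ∈ QQ T0 κ E L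
        · have h3 : q ∈ EE T0 κ E M S R ∩ flipO (ET T) ⁻¹' (QQ T0 κ E L) := ⟨hqE, hT⟩
          rw [Set.indicator_of_mem h3, if_pos hT]
        · have h3 : q ∉ EE T0 κ E M S R ∩ flipO (ET T) ⁻¹' (QQ T0 κ E L) := fun h4 => hT h4.2
          rw [Set.indicator_of_notMem h3, if_neg hT]
      rw [h2, div_le_iff₀ (by norm_num)]
      linarith
    · rw [Set.indicator_of_notMem hqE, mul_zero]
      exact Finset.sum_nonneg fun T _ => Set.indicator_nonneg (fun _ _ => zero_le_one) _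
  have hle := integral_mono_ae ((hint hm1).const_mul _)
    (integrable_finsetSum _ fun T _ => hint (hm2 T)) hpt
  rw [integral_const_mul, hreal hm1, integral_finsetSum _ fun T _ => hint (hm2 T)] at hle
  have h3 : ∀ T ∈ R.powerset, ∫ q, (EE T0 κ E M S R ∩ flipO (ET T) ⁻¹' (QQ T0 κ E L)).indicator
      (fun _ => (1 : ℝ)) q ∂(MU d v) ≤ (MU d v).real (EE T0 κ E M S R ∩ QQ T0 κ E L) := by
    intro T _
    rw [hreal (hm2 T)]
    have h4 : EE T0 κ E M S R ∩ flipO (ET T) ⁻¹' (QQ T0 κ E L) ⊆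
        flipO (ET T) ⁻¹' (EE T0 κ E M S R ∩ QQ T0 κ E L) := by
      rintro q ⟨h5, h6⟩
      refine ⟨⟨h6.1, fun z hz => ?_⟩, h6⟩
      have hz0 : z ≠ 0 := fun h0 => hS0 (h0 ▸ hz)
      rw [ZZ_flip h hz0 T]
      exact h5.2 z hz
    refine (measureReal_mono h4).trans (le_of_eq ?_)
    unfold Measure.real
    rw [(flipO_mp v (ET T)).measure_preimage (hm1.inter (QQ_meas h E L)).nullMeasurableSet]
  have h5 := hle.trans (Finset.sum_le_sum h3)
  rw [Finset.sum_const, Finset.card_powerset, nsmul_eq_mul] at h5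
  push_cast at h5
  have hp : (0 : ℝ) < 2 ^ R.card := by positivity
  have h6 : (2 : ℝ) ^ R.card * (MU d v).real (EE T0 κ E M S R) ≤
      2 ^ R.card * (24 * (MU d v).real (EE T0 κ E M S R ∩ QQ T0 κ E L)) := by
    nlinarith
  exact le_of_mul_le_mul_left h6 hp

open Classical in
theorem Q_bound (h : Adm T0 κ ρ0 b) (v : NNReal) (hv : v ≠ 0)
    (hc : ∀ᵐ s ∂(Ps d), CutOK T0 κ s) (E M : ℝ) {L L' : ℝ} (hL0 : 0 ≤ L) (hLL : 2 * L < L')
    (S : Finset (Fin d → ℤ)) (hS0 : (0 : Fin d → ℤ) ∉ S) :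
    (MU d v).real {q | L' ≤ ∑ z ∈ S,
        (ZZ T0 κ E M z ∩ GG T0 κ E 0).indicator (fun _ => (1 : ℝ)) q} ≤
      24 * (MU d v).real (QQ T0 κ E L) := by
  set PP := S.powerset.filter fun R => L' ≤ (R.card : ℝ) with hPP
  have hcov : {q | L' ≤ ∑ z ∈ S,
        (ZZ T0 κ E M z ∩ GG T0 κ E 0).indicator (fun _ => (1 : ℝ)) q} ⊆
      ⋃ R ∈ PP, EE T0 κ E M S R := by
    intro q hq
    have hq' : L' ≤ ∑ z ∈ S, (ZZ T0 κ E M z ∩ GG T0 κ E 0).indicator (fun _ => (1 : ℝ)) q := hq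
    have hG : q ∈ GG T0 κ E 0 := by
      by_contra hcon
      have : ∑ z ∈ S, (ZZ T0 κ E M z ∩ GG T0 κ E 0).indicator (fun _ => (1 : ℝ)) q = 0 := by
        refine Finset.sum_eq_zero fun z _ => ?_
        have h3 : q ∉ ZZ T0 κ E M z ∩ GG T0 κ E 0 := fun h4 => hcon h4.2
        rw [Set.indicator_of_notMem h3]
      rw [this] at hq'
      linarith
    have hsum : ∑ z ∈ S, (ZZ T0 κ E M z ∩ GG T0 κ E 0).indicator (fun _ => (1 : ℝ)) q =
        ((S.filter fun z => q ∈ ZZ T0 κ E M z).card : ℝ) := by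
      rw [Finset.card_filter]
      push_cast
      refine Finset.sum_congr rfl fun z _ => ?_
      by_cases hz : q ∈ ZZ T0 κ E M z
      · have h3 : q ∈ ZZ T0 κ E M z ∩ GG T0 κ E 0 := ⟨hz, hG⟩
        rw [Set.indicator_of_mem h3, if_pos hz]
      · have h3 : q ∉ ZZ T0 κ E M z ∩ GG T0 κ E 0 := fun h4 => hz h4.1
        rw [Set.indicator_of_notMem h3, if_neg hz]
    rw [hsum] at hq'
    rw [Set.mem_iUnion₂]
    refine ⟨S.filter fun z => q ∈ ZZ T0 κ E M z, ?_, hG, fun z hz => ?_⟩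
    · rw [hPP, Finset.mem_filter]
      exact ⟨Finset.mem_powerset.2 (Finset.filter_subset _ _), hq'⟩
    · rw [Finset.mem_filter]
      exact ⟨fun h3 => ⟨hz, h3⟩, fun h3 => h3.2⟩
  have hdisj : ∀ R ∈ PP, ∀ R' ∈ PP, R ≠ R' →
      Disjoint (EE T0 κ E M S R ∩ QQ T0 κ E L) (EE T0 κ E M S R' ∩ QQ T0 κ E L) := by
    intro R hR R' hR' hne
    rw [Set.disjoint_left]
    rintro q ⟨⟨_, h1⟩, _⟩ ⟨⟨_, h2⟩, _⟩
    apply hne
    have hRS := Finset.mem_powerset.1 (Finset.mem_filter.1 hR).1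
    have hRS' := Finset.mem_powerset.1 (Finset.mem_filter.1 hR').1
    ext z
    constructor
    · intro hz
      exact (h2 z (hRS hz)).1 ((h1 z (hRS hz)).2 hz)
    · intro hz
      exact (h1 z (hRS' hz)).1 ((h2 z (hRS' hz)).2 hz)
  have h1 : (MU d v).real (⋃ R ∈ PP, EE T0 κ E M S R) ≤ ∑ R ∈ PP, (MU d v).real (EE T0 κ E M S R) :=
    measureReal_biUnion_finset_le _ _
  have h2 : ∑ R ∈ PP, (MU d v).real (EE T0 κ E M S R) ≤
      ∑ R ∈ PP, 24 * (MU d v).real (EE T0 κ E M S R ∩ QQ T0 κ E L) := by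
    refine Finset.sum_le_sum fun R hR => ?_
    have hRS := Finset.mem_powerset.1 (Finset.mem_filter.1 hR).1
    have hRc := (Finset.mem_filter.1 hR).2
    exact EE_bound h v hv hc E M hL0 S R hS0 hRS (by linarith)
  have h3 : ∑ R ∈ PP, (MU d v).real (EE T0 κ E M S R ∩ QQ T0 κ E L) =
      (MU d v).real (⋃ R ∈ PP, (EE T0 κ E M S R ∩ QQ T0 κ E L)) := by
    rw [measureReal_biUnion_finset]
    · intro R hR R' hR' hne
      exact hdisj R hR R' hR' hne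
    · intro R _
      exact (EE_meas h E M S R).inter (QQ_meas h E L)
  have h4 : (MU d v).real (⋃ R ∈ PP, (EE T0 κ E M S R ∩ QQ T0 κ E L)) ≤
      (MU d v).real (QQ T0 κ E L) :=
    measureReal_mono (Set.iUnion₂_subset fun R _ => Set.inter_subset_right)
  calc _ ≤ (MU d v).real (⋃ R ∈ PP, EE T0 κ E M S R) := measureReal_mono hcov (measure_ne_top _ _)
    _ ≤ ∑ R ∈ PP, 24 * (MU d v).real (EE T0 κ E M S R ∩ QQ T0 κ E L) := h1.trans h2
    _ = 24 * ∑ R ∈ PP, (MU d v).real (EE T0 κ E M S R ∩ QQ T0 κ E L) := by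
        rw [Finset.mul_sum]
    _ ≤ 24 * (MU d v).real (QQ T0 κ E L) := by
        rw [h3]
        exact mul_le_mul_of_nonneg_left h4 (by norm_num)

/-- **No solution.**  At every energy, almost surely `δ_0` is not in the range. -/
theorem GG_zero (h : Adm T0 κ ρ0 b) (hT : ∀ a y w, T0 (y + a) (w + a) = T0 y w)
    (v : NNReal) (hv : v ≠ 0) (hc : ∀ᵐ s ∂(Ps d), CutOK T0 κ s)
    (hns : ¬ Summable fun z => |κ z|) (E : ℝ) (x : Fin d → ℤ) : MU d v (GG T0 κ E x) = 0 := by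
  rw [GG_sh h hT v E x]
  by_contra hne
  have hp : 0 < (MU d v).real (GG T0 κ E 0) := by
    rw [Measure.real, ENNReal.toReal_pos_iff]
    exact ⟨pos_iff_ne_zero.2 hne, measure_lt_top _ _⟩
  obtain ⟨M, c, hc0, hML⟩ := many_res h hT v hv hc hns E hp
  obtain ⟨n, hn⟩ := exists_n h v E (show 0 < c / 48 by positivity)
  obtain ⟨S, hS0, _, hS⟩ := hML (2 * n + 1)
  have h1 := Q_bound (L := (n : ℝ)) (L' := 2 * n + 1) h v hv hc E M (Nat.cast_nonneg n)
    (by linarith) S hS0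
  have h2 : (MU d v).real (QQ T0 κ E n) ≤ c / 48 := by
    refine le_trans (measureReal_mono ?_) hn
    rintro q ⟨h3, h4⟩
    refine ⟨h3, fun h5 => h4 ?_⟩
    obtain ⟨φ, g1, g2, _⟩ := h5
    exact mem_AA0.2 ⟨φ, g1, g2⟩
  linarith

end Pool.Agent.TH980.SH
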