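import Pool.Agent.TH980.SH.Fin

/-!
The spectrum is the whole line: Weyl sequences of finitely supported functions at every energy.
-/

set_option autoImplicit false

namespace Pool.Agent.TH980.SH

open Finset MeasureTheory ProbabilityTheory H10PL Filter Topology Pool.Agent.TH980.PL

variable {d : ℕ} {T0 : (Fin d → ℤ) → (Fin d → ℤ) → ℝ} {κ : (Fin d → ℤ) → ℝ} {ρ0 b : ℝ}

theorem appl_eq_ap (E : ℝ) (s : Sym2 (Fin d → ℤ) → Bool) (V : (Fin d → ℤ) → ℝ)
    (f : (Fin d → ℤ) →₀ ℝ) (y : Fin d → ℤ) : appl T0 κ s V E f y = ap T0 κ E s V f y := by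
  unfold appl ap
  rw [tsum_eq_sum (s := f.support)]
  intro w hw
  rw [Finsupp.notMem_support_iff.1 hw, mul_zero]

theorem L2_fin (f : (Fin d → ℤ) →₀ ℝ) : L2 (f : (Fin d → ℤ) → ℝ) := by
  unfold L2
  refine summable_of_ne_finset_zero (s := f.support) fun w hw => ?_
  rw [Finsupp.notMem_support_iff.1 hw]
  norm_num

theorem ap_single (E : ℝ) (s : Sym2 (Fin d → ℤ) → Bool) (V : (Fin d → ℤ) → ℝ)
    (w : Fin d → ℤ) (a : ℝ) (y : Fin d → ℤ) :
    ap T0 κ E s V (Finsupp.single w a : (Fin d → ℤ) →₀ ℝ) y =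
      a * (Kf T0 κ s y w + if y = w then (V y - E) else 0) := by
  classical
  unfold ap
  have h1 : ∑' u, Kf T0 κ s y u * (Finsupp.single w a : (Fin d → ℤ) →₀ ℝ) u =
      Kf T0 κ s y w * a := by
    rw [tsum_eq_single w]
    · rw [Finsupp.single_eq_same]
    · intro u hu
      rw [Finsupp.single_eq_of_ne hu, mul_zero]
  rw [h1]
  by_cases hy : y = w
  · subst hy
    rw [Finsupp.single_eq_same, if_pos rfl]
    ring
  · rw [Finsupp.single_eq_of_ne hy, if_neg hy]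
    ring

theorem ap_fin_L2 (h : Adm T0 κ ρ0 b) (E : ℝ) (s : Sym2 (Fin d → ℤ) → Bool)
    (V : (Fin d → ℤ) → ℝ) (f : (Fin d → ℤ) →₀ ℝ) : L2 (ap T0 κ E s V f) := by
  classical
  induction f using Finsupp.induction_linear with
  | zero =>
    have : ap T0 κ E s V ((0 : (Fin d → ℤ) →₀ ℝ) : (Fin d → ℤ) → ℝ) = fun _ => 0 := by
      funext y
      exact ap_zero E s V _ (fun _ => rfl) y
    rw [this]
    unfold L2
    simp
  | add f g hf hg =>
    have e : ap T0 κ E s V ((f + g : (Fin d → ℤ) →₀ ℝ) : (Fin d → ℤ) → ℝ) =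
        fun y => 1 * ap T0 κ E s V f y + 1 * ap T0 κ E s V g y := by
      funext y
      rw [← ap_lin h (L2_fin f) (L2_fin g) 1 1 y]
      congr 1
      funext u
      rw [Finsupp.add_apply]
      ring
    rw [e]
    exact hf.lin hg 1 1
  | single w a =>
    have e : ap T0 κ E s V ((Finsupp.single w a : (Fin d → ℤ) →₀ ℝ) : (Fin d → ℤ) → ℝ) =
        fun y => a * Kf T0 κ s w y + 1 * (a * if y = w then (V y - E) else 0) := by
      funext y
      rw [ap_single, Kf_symm h s y w]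
      ring
    rw [e]
    have h1 : L2 (fun y => Kf T0 κ s w y) := Kf_sq_summable h s w
    have h2 : L2 (fun y => a * if y = w then (V y - E) else 0) := by
      unfold L2
      refine summable_of_ne_finset_zero (s := {w}) fun u hu => ?_
      show (a * if u = w then (V u - E) else 0) ^ 2 = 0
      rw [if_neg (by simpa using hu)]
      norm_num
    exact h1.lin h2 a 1

/-- the Hilbert space -/
abbrev HS (d : ℕ) : Type := lp (fun _ : (Fin d → ℤ) => ℝ) 2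

theorem memlp_iff {g : (Fin d → ℤ) → ℝ} : Memℓp g 2 ↔ L2 g := by
  rw [memℓp_gen_iff (by norm_num)]
  unfold L2
  refine summable_congr fun y => ?_
  rw [ENNReal.toReal_ofNat, Real.norm_eq_abs, Real.rpow_ofNat, sq_abs]

/-- `H - E` on finitely supported functions -/
noncomputable def Aop (h : Adm T0 κ ρ0 b) (E : ℝ) (s : Sym2 (Fin d → ℤ) → Bool)
    (V : (Fin d → ℤ) → ℝ) : ((Fin d → ℤ) →₀ ℝ) →ₗ[ℝ] HS d where
  toFun f := ⟨ap T0 κ E s V f, memlp_iff.2 (ap_fin_L2 h E s V f)⟩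
  map_add' f g := by
    apply Subtype.ext
    funext y
    show ap T0 κ E s V ((f + g : (Fin d → ℤ) →₀ ℝ) : (Fin d → ℤ) → ℝ) y =
      ap T0 κ E s V f y + ap T0 κ E s V g y
    have := ap_lin h (E := E) (s := s) (V := V) (L2_fin f) (L2_fin g) 1 1 y
    rw [one_mul, one_mul] at this
    rw [← this]
    congr 1
    funext u
    rw [Finsupp.add_apply]
    ring
  map_smul' a f := by
    apply Subtype.ext
    funext y
    show ap T0 κ E s V ((a • f : (Fin d → ℤ) →₀ ℝ) : (Fin d → ℤ) → ℝ) y =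
      a * ap T0 κ E s V f y
    rw [← ap_smul]
    congr 1

theorem Aop_norm (h : Adm T0 κ ρ0 b) (E : ℝ) (s : Sym2 (Fin d → ℤ) → Bool)
    (V : (Fin d → ℤ) → ℝ) (f : (Fin d → ℤ) →₀ ℝ) :
    ‖Aop h E s V f‖ ^ 2 = ∑' y, ap T0 κ E s V f y ^ 2 := by
  rw [← real_inner_self_eq_norm_sq, lp.inner_eq_tsum]
  refine tsum_congr fun y => ?_
  rw [real_inner_self_eq_norm_sq, Real.norm_eq_abs, sq_abs]
  rfl

/-- duality -/
theorem dual_sol (h : Adm T0 κ ρ0 b) (E : ℝ) (s : Sym2 (Fin d → ℤ) → Bool)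
    (V : (Fin d → ℤ) → ℝ) (x : Fin d → ℤ) (M : ℝ) (hM0 : 0 ≤ M)
    (hM : ∀ f : (Fin d → ℤ) →₀ ℝ, f x ^ 2 ≤ M * ∑' y, ap T0 κ E s V f y ^ 2) :
    ∃ ψ : (Fin d → ℤ) → ℝ, L2 ψ ∧ ∀ y, ap T0 κ E s V ψ y = if y = x then 1 else 0 := by
  classical
  set A := Aop h E s V with hA
  set e : ((Fin d → ℤ) →₀ ℝ) →ₗ[ℝ] ℝ := Finsupp.lapply x with he
  have hbd : ∀ f, |e f| ≤ Real.sqrt M * ‖A f‖ := by
    intro f
    have h1 : |f x| ≤ Real.sqrt (M * ‖A f‖ ^ 2) := by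
      refine Real.abs_le_sqrt ?_
      rw [hA, Aop_norm]
      exact hM f
    rw [Real.sqrt_mul hM0, Real.sqrt_sq (norm_nonneg _)] at h1
    exact h1
  have hker : LinearMap.ker A ≤ LinearMap.ker e := by
    intro f hf
    rw [LinearMap.mem_ker] at hf ⊢
    have h1 := hbd f
    rw [hf, norm_zero, mul_zero] at h1
    exact abs_nonpos_iff.1 h1
  set lam : LinearMap.range A →ₗ[ℝ] ℝ :=
    ((LinearMap.ker A).liftQ e hker) ∘ₗ A.quotKerEquivRange.symm.toLinearMap with hlam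
  have hlamA : ∀ f, lam ⟨A f, LinearMap.mem_range_self A f⟩ = e f := by
    intro f
    rw [hlam, LinearMap.comp_apply]
    have h1 : A.quotKerEquivRange.symm ⟨A f, LinearMap.mem_range_self A f⟩ =
        (LinearMap.ker A).mkQ f := LinearMap.quotKerEquivRange_symm_apply_image A f _
    show ((LinearMap.ker A).liftQ e hker) (A.quotKerEquivRange.symm ⟨A f, _⟩) = e f
    rw [h1]
    exact Submodule.liftQ_apply _ _ _
  have hlb : ∀ w : LinearMap.range A, ‖lam w‖ ≤ Real.sqrt M * ‖w‖ := by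
    rintro ⟨w, f, rfl⟩
    rw [hlamA f]
    exact hbd f
  obtain ⟨g, hg, _⟩ := exists_extension_norm_eq (LinearMap.range A)
    (lam.mkContinuous (Real.sqrt M) hlb)
  set ψ : HS d := (InnerProductSpace.toDual ℝ (HS d)).symm g with hψ
  have hin : ∀ f, inner ℝ ψ (A f) = f x := by
    intro f
    rw [hψ, InnerProductSpace.toDual_symm_apply]
    have h1 := hg ⟨A f, LinearMap.mem_range_self A f⟩
    rw [LinearMap.mkContinuous_apply, hlamA f] at h1
    exact h1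
  have hψL : L2 (ψ : (Fin d → ℤ) → ℝ) := memlp_iff.1 (lp.memℓp ψ)
  refine ⟨ψ, hψL, fun y => ?_⟩
  have h1 := hin (Finsupp.single y 1)
  rw [lp.inner_eq_tsum] at h1
  have h2 : ∀ w, inner ℝ ((ψ : (Fin d → ℤ) → ℝ) w) ((A (Finsupp.single y 1) : (Fin d → ℤ) → ℝ) w) =
      Kf T0 κ s y w * (ψ : (Fin d → ℤ) → ℝ) w +
        (if w = y then (V y - E) * (ψ : (Fin d → ℤ) → ℝ) y else 0) := by
    intro w
    have h3 : (A (Finsupp.single y 1) : (Fin d → ℤ) → ℝ) w =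
        ap T0 κ E s V (Finsupp.single y 1 : (Fin d → ℤ) →₀ ℝ) w := rfl
    rw [h3, ap_single, one_mul, Kf_symm h s w y]
    have h4 : ∀ a c : ℝ, inner ℝ a c = c * a := fun a c => rfl
    rw [h4]
    by_cases hw : w = y
    · subst hw
      rw [if_pos rfl, if_pos rfl]
      ring
    · rw [if_neg hw, if_neg hw]
      ring
  rw [tsum_congr h2] at h1
  have h5 := (cs_tsum (Kf_sq_summable h s y) hψL).1
  have h6 : Summable fun w : Fin d → ℤ =>
      (if w = y then (V y - E) * (ψ : (Fin d → ℤ) → ℝ) y else (0 : ℝ)) :=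
    summable_of_ne_finset_zero (s := {y}) (fun w hw => if_neg (by simpa using hw))
  rw [h5.tsum_add h6, tsum_ite_eq] at h1
  unfold ap
  rw [h1, Finsupp.single_apply]

/-- at a fixed energy there are almost surely Weyl sequences -/
theorem weyl_fixed (h : Adm T0 κ ρ0 b) (hT : ∀ a y w, T0 (y + a) (w + a) = T0 y w)
    (v : NNReal) (hv : v ≠ 0) (hc : ∀ᵐ s ∂(Ps d), CutOK T0 κ s)
    (hns : ¬ Summable fun z => |κ z|) (E : ℝ) :
    ∀ᵐ q ∂(MU d v), ∀ M : ℕ, ∃ f : (Fin d → ℤ) →₀ ℝ,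
      M * ∑' y, ap T0 κ E q.2 q.1 f y ^ 2 < f 0 ^ 2 := by
  have h0 : ∀ᵐ q ∂(MU d v), q ∉ GG T0 κ E 0 :=
    measure_eq_zero_iff_ae_notMem.1 (GG_zero h hT v hv hc hns E 0)
  filter_upwards [h0, uq_ae h v hv hc E] with q hq hU M
  by_contra hcon
  push Not at hcon
  obtain ⟨ψ, hψ, hap⟩ := dual_sol h E q.2 q.1 0 M (Nat.cast_nonneg M) hcon
  have hne : ψ 0 ≠ 0 := by
    intro h1
    have h2 := hU {0} ψ hψ (fun y hy => by rw [Finset.mem_singleton.1 hy]; exact h1)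
      (fun y hy => by rw [hap, if_neg (by simpa using hy)])
    have h3 := ap_zero (T0 := T0) (κ := κ) E q.2 q.1 ψ h2 0
    rw [hap, if_pos rfl] at h3
    exact one_ne_zero h3
  apply hq
  refine mem_GG.2 ⟨fun y => (ψ 0)⁻¹ * ψ y, hψ.smul _, inv_mul_cancel₀ hne, ?_, ?_⟩
  · intro y hy
    exact absurd hy (Finset.notMem_empty _)
  · intro y _ hy
    rw [ap_smul, hap, if_neg hy, mul_zero]

/-- every real number is in the spectrum: there are finitely supported `f` with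
`‖(H - E) f‖ ≤ η ‖f‖` -/
def FullSpec (T0 : (Fin d → ℤ) → (Fin d → ℤ) → ℝ) (κ : (Fin d → ℤ) → ℝ)
    (s : Sym2 (Fin d → ℤ) → Bool) (V : (Fin d → ℤ) → ℝ) : Prop :=
  ∀ (E η : ℝ), 0 < η → ∃ f : (Fin d → ℤ) →₀ ℝ, f ≠ 0 ∧
    Summable (fun y => ((∑' w, Kf T0 κ s y w * f w) + V y * f y - E * f y) ^ 2) ∧
    ∑' y, ((∑' w, Kf T0 κ s y w * f w) + V y * f y - E * f y) ^ 2 ≤ η * ∑' y, f y ^ 2

theorem full_spec (h : Adm T0 κ ρ0 b) (hT : ∀ a y w, T0 (y + a) (w + a) = T0 y w)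
    (v : NNReal) (hv : v ≠ 0) (hc : ∀ᵐ s ∂(Ps d), CutOK T0 κ s)
    (hns : ¬ Summable fun z => |κ z|) : ∀ᵐ q ∂(MU d v), FullSpec T0 κ q.2 q.1 := by
  have h1 : ∀ᵐ q ∂(MU d v), ∀ (r : ℚ) (M : ℕ), ∃ f : (Fin d → ℤ) →₀ ℝ,
      M * ∑' y, ap T0 κ (r : ℝ) q.2 q.1 f y ^ 2 < f 0 ^ 2 := by
    rw [ae_all_iff]
    intro r
    exact weyl_fixed h hT v hv hc hns (r : ℝ)
  filter_upwards [h1] with q hq E η hη
  obtain ⟨r, hr1, hr2⟩ := exists_rat_btwn (show E < E + Real.sqrt (η / 4) by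
    have : 0 < Real.sqrt (η / 4) := Real.sqrt_pos.2 (by positivity)
    linarith)
  obtain ⟨M, hM⟩ := exists_nat_gt (4 / η)
  obtain ⟨f, hf⟩ := hq r M
  have hM0 : (0 : ℝ) < M := lt_trans (by positivity) hM
  have e : ∀ y, (∑' w, Kf T0 κ q.2 y w * f w) + q.1 y * f y - E * f y =
      1 * ap T0 κ (r : ℝ) q.2 q.1 f y + ((r : ℝ) - E) * f y := by
    intro y
    unfold ap
    ring
  have hL := (ap_fin_L2 h (r : ℝ) q.2 q.1 f).lin (L2_fin f) 1 ((r : ℝ) - E)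
  have hf2 : L2 (f : (Fin d → ℤ) → ℝ) := L2_fin f
  have ha2 := ap_fin_L2 h (r : ℝ) q.2 q.1 f
  set P := ∑' y, ap T0 κ (r : ℝ) q.2 q.1 f y ^ 2 with hP
  set N := ∑' y, f y ^ 2 with hN
  have hP0 : 0 ≤ P := tsum_nonneg fun y => sq_nonneg _
  have hfx : f 0 ^ 2 ≤ N := hf2.le_tsum 0 fun y _ => sq_nonneg _
  have hfN : M * P < N := lt_of_lt_of_le hf hfx
  refine ⟨f, ?_, ?_, ?_⟩
  · rintro rfl
    have h2 : (M : ℝ) * P < 0 := by simpa using hf
    have h3 : 0 ≤ (M : ℝ) * P := by positivity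
    linarith
  · refine hL.congr fun y => ?_
    rw [e]
  · have h2 : ∀ y, ((∑' w, Kf T0 κ q.2 y w * f w) + q.1 y * f y - E * f y) ^ 2 ≤
        2 * ap T0 κ (r : ℝ) q.2 q.1 f y ^ 2 + η / 2 * f y ^ 2 := by
      intro y
      rw [e]
      have h3 : ((r : ℝ) - E) ^ 2 ≤ η / 4 := by
        have h4 : 0 ≤ (r : ℝ) - E := by linarith
        have h5 : (r : ℝ) - E ≤ Real.sqrt (η / 4) := by linarith
        calc ((r : ℝ) - E) ^ 2 ≤ Real.sqrt (η / 4) ^ 2 := pow_le_pow_left₀ h4 h5 2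
          _ = η / 4 := Real.sq_sqrt (by positivity)
      have h6 : (((r : ℝ) - E) * f y) ^ 2 ≤ η / 4 * f y ^ 2 := by
        rw [mul_pow]
        exact mul_le_mul_of_nonneg_right h3 (sq_nonneg _)
      nlinarith [sq_nonneg (ap T0 κ (r : ℝ) q.2 q.1 f y - ((r : ℝ) - E) * f y)]
    have hs1 : Summable fun y => ((∑' w, Kf T0 κ q.2 y w * f w) + q.1 y * f y - E * f y) ^ 2 := by
      refine hL.congr fun y => ?_
      rw [e]
    have hs2 : Summable fun y => 2 * ap T0 κ (r : ℝ) q.2 q.1 f y ^ 2 + η / 2 * f y ^ 2 :=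
      (ha2.mul_left 2).add (hf2.mul_left (η / 2))
    refine (hs1.tsum_le_tsum h2 hs2).trans ?_
    rw [(ha2.mul_left 2).tsum_add (hf2.mul_left (η / 2)), tsum_mul_left, tsum_mul_left, ← hP, ← hN]
    have h3 : P ≤ η / 4 * N := by
      have h4 : 4 / η * P ≤ M * P := mul_le_mul_of_nonneg_right hM.le hP0
      have h5 : 4 / η * P ≤ N := by linarith
      have h6 : P = η / 4 * (4 / η * P) := by field_simp
      rw [h6]
      exact mul_le_mul_of_nonneg_left h5 (by positivity)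
    linarith

end Pool.Agent.TH980.SH
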