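import Pool.Agent.TH980.SH.Clos

/-!
For a fixed energy, almost surely solutions are unique. Resampling of one potential.
-/

set_option autoImplicit false

namespace Pool.Agent.TH980.SH

open Finset MeasureTheory ProbabilityTheory H10PL Filter Topology Pool.Agent.TH980.PL

variable {d : ℕ} {T0 : (Fin d → ℤ) → (Fin d → ℤ) → ℝ} {κ : (Fin d → ℤ) → ℝ} {ρ0 b : ℝ}

/-- the law of the configuration -/
noncomputable abbrev MU (d : ℕ) (v : NNReal) : Measure (Om d) := (PV d v).prod (Ps d)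

theorem resample_eq (v : NNReal) (z : Fin d → ℤ) {B : Set (Om d)} (hB : MeasurableSet B) :
    MU d v B = ∫⁻ q, (gaussianReal 0 v) {t | upd z (q, t) ∈ B} ∂(MU d v) := by
  have h1 : (MU d v) B = ((MU d v).prod (gaussianReal 0 v)) (upd z ⁻¹' B) :=
    ((upd_mp v z).measure_preimage hB.nullMeasurableSet).symm
  rw [h1, Measure.prod_apply ((upd_mp v z).measurable hB)]
  rfl

theorem resample_le (v : NNReal) (z : Fin d → ℤ) {B : Set (Om d)} (hB : MeasurableSet B)
    (c : ENNReal) (h : ∀ᵐ q ∂(MU d v), (gaussianReal 0 v) {t | upd z (q, t) ∈ B} ≤ c) :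
    MU d v B ≤ c := by
  rw [resample_eq v z hB]
  refine (lintegral_mono_ae h).trans ?_
  rw [lintegral_const, measure_univ, mul_one]

theorem resample_ge (v : NNReal) (z : Fin d → ℤ) {A B : Set (Om d)} (hA : MeasurableSet A)
    (hB : MeasurableSet B) (c : ENNReal)
    (h : ∀ᵐ q ∂(MU d v), q ∈ A → c ≤ (gaussianReal 0 v) {t | upd z (q, t) ∈ B}) :
    c * MU d v A ≤ MU d v B := by
  rw [resample_eq v z hB]
  have h1 : c * MU d v A = ∫⁻ q, A.indicator (fun _ => c) q ∂(MU d v) := by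
    rw [lintegral_indicator hA, lintegral_const, Measure.restrict_apply MeasurableSet.univ,
      Set.univ_inter]
  rw [h1]
  refine lintegral_mono_ae ?_
  filter_upwards [h] with q hq
  by_cases hqA : q ∈ A
  · rw [Set.indicator_of_mem hqA]
    exact hq hqA
  · rw [Set.indicator_of_notMem hqA]
    exact zero_le

/-- good sign configurations -/
theorem cut_ae' (v : NNReal) (hc : ∀ᵐ s ∂(Ps d), CutOK T0 κ s) :
    ∀ᵐ q ∂(MU d v), CutOK T0 κ q.2 :=
  (measurePreserving_snd (μ := PV d v) (ν := Ps d)).quasiMeasurePreserving.ae hc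

/-- the closed set `r = 0` -/
def Czero (d : ℕ) : Set ((ℝ × Om d) × (((Fin d → ℤ) → ℝ) × ℝ)) := {p | p.2.2 = 0}

theorem Czero_closed : IsClosed (Czero d) :=
  isClosed_eq (continuous_snd.comp continuous_snd) continuous_const

theorem slice_sub (h : Adm T0 κ ρ0 b) {E : ℝ} {s : Sym2 (Fin d → ℤ) → Bool}
    (hc : CutOK T0 κ s) (V : (Fin d → ℤ) → ℝ) (F : Finset (Fin d → ℤ)) (y : Fin d → ℤ)
    (hy : y ∉ F) (t t' : ℝ) (φ φ' : (Fin d → ℤ) → ℝ)
    (hφ : GF T0 κ E s (Function.update V y t) F y φ)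
    (hφ0 : ap T0 κ E s (Function.update V y t) φ y = 0)
    (hφ' : GF T0 κ E s (Function.update V y t') F y φ')
    (hφ0' : ap T0 κ E s (Function.update V y t') φ' y = 0) : t = t' := by
  classical
  obtain ⟨a1, a2, a3, a4⟩ := hφ
  obtain ⟨b1, b2, b3, b4⟩ := hφ'
  have hV : Function.update V y t = Function.update (Function.update V y t') y t := by
    rw [Function.update_idem]
  have e1 : ∀ w, ap T0 κ E s (Function.update V y t) φ' w =
      ap T0 κ E s (Function.update V y t') φ' w + (if w = y then (t - t') * φ' y else 0) := by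
    intro w
    rw [hV, ap_upd, Function.update_self]
  have hG := green h hc (E := E) (V := Function.update V y t) a1 b1 (insert y F)
    (fun w hw => by
      rw [Finset.mem_insert, not_or] at hw
      exact a4 w hw.2 hw.1)
    (fun w hw => by
      rw [Finset.mem_insert, not_or] at hw
      rw [e1, b4 w hw.2 hw.1, if_neg hw.1, add_zero])
  rw [Finset.sum_insert hy, Finset.sum_insert hy] at hG
  have z1 : ∑ w ∈ F, φ' w * ap T0 κ E s (Function.update V y t) φ w = 0 :=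
    Finset.sum_eq_zero fun w hw => by rw [b3 w hw, zero_mul]
  have z2 : ∑ w ∈ F, φ w * ap T0 κ E s (Function.update V y t) φ' w = 0 :=
    Finset.sum_eq_zero fun w hw => by rw [a3 w hw, zero_mul]
  rw [z1, z2, hφ0, e1, hφ0', a2, b2, if_pos rfl] at hG
  linarith

theorem uq_null (h : Adm T0 κ ρ0 b) (v : NNReal) (hv : v ≠ 0)
    (hc : ∀ᵐ s ∂(Ps d), CutOK T0 κ s) (E : ℝ) (F : Finset (Fin d → ℤ)) (y : Fin d → ℤ)
    (hy : y ∉ F) (n : ℝ) : MU d v (EvE T0 κ E F y n (Czero d)) = 0 := by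
  have : NullSingletonClass (gaussianReal 0 v) := nullSingletonClass_gaussianReal hv
  refine le_antisymm ?_ zero_le
  refine resample_le v y (evE_meas h E F y n _ Czero_closed) 0 ?_
  filter_upwards [cut_ae' v hc] with q hq
  have hss : {t | upd y (q, t) ∈ EvE T0 κ E F y n (Czero d)}.Subsingleton := by
    rintro t ⟨φ, h1, -, h2⟩ t' ⟨φ', h1', -, h2'⟩
    exact slice_sub h hq q.1 F y hy t t' φ φ' h1 h2 h1' h2'
  rw [hss.measure_zero]

/-- **Uniqueness.** -/
theorem uq_ae (h : Adm T0 κ ρ0 b) (v : NNReal) (hv : v ≠ 0)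
    (hc : ∀ᵐ s ∂(Ps d), CutOK T0 κ s) (E : ℝ) :
    ∀ᵐ q ∂(MU d v), ∀ F, UQ T0 κ E q.2 q.1 F := by
  have h1 : ∀ᵐ q ∂(MU d v), ∀ (F : Finset (Fin d → ℤ)) (y : Fin d → ℤ) (n : ℕ), y ∉ F →
      q ∉ EvE T0 κ E F y n (Czero d) := by
    rw [ae_all_iff]
    intro F
    rw [ae_all_iff]
    intro y
    rw [ae_all_iff]
    intro n
    by_cases hy : y ∈ F
    · exact Eventually.of_forall fun q hq => absurd hy hq
    · have := uq_null h v hv hc E F y hy n
      have h2 : ∀ᵐ q ∂(MU d v), q ∉ EvE T0 κ E F y n (Czero d) := measure_eq_zero_iff_ae_notMem.1 this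
      filter_upwards [h2] with q hq _
      exact hq
  filter_upwards [h1] with q hq F φ h2 h3 h4 y
  by_contra hne
  have hyF : y ∉ F := fun hy => hne (h3 y hy)
  set ψ : (Fin d → ℤ) → ℝ := fun w => (φ y)⁻¹ * φ w with hψ
  have hψs : L2 ψ := h2.smul _
  obtain ⟨n, hn⟩ := exists_nat_ge (∑' w, ψ w ^ 2)
  refine hq F y n hyF ⟨ψ, ⟨hψs, inv_mul_cancel₀ hne, ?_, ?_⟩, mem_Kn.2 ⟨hψs, hn⟩, ?_⟩
  · intro w hw
    simp only [hψ]
    rw [h3 w hw, mul_zero]
  · intro w hw _
    rw [hψ, ap_smul, h4 w hw, mul_zero]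
  · show ap T0 κ E q.2 q.1 ψ y = 0
    rw [hψ, ap_smul, h4 y hyF, mul_zero]

end Pool.Agent.TH980.SH
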